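import Pool.Agent.H33.G.R_seed8.H499R2.NDK

/-! Natural density: corollaries used by the results. -/

set_option autoImplicit false

namespace Pool.Agent.H499R2.ND

open Pool.Agent.H320R2.PD Finset Filter Topology

/-- an invariant set with no element in `[-y,y]` has small density -/
theorem tail_le (B : ℕ) {d : ℤ} (hd : Odd d) (hd3 : ¬ (3 : ℤ) ∣ d) {s : ℤ} (hs : s = 1 ∨ s = -1) :
    ∃ K : ℝ, 0 < K ∧ ∀ y : ℝ, 2 ≤ y → ∀ S : Set ℤ, Inv d S → (∀ x ∈ S, y < |(x : ℝ)|) →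
      ∀ l : ℝ, HD s S l → l ≤ K / (Real.log y) ^ B := by
  obtain ⟨K, hK, h⟩ := stay_side B hd (cop_of_not_dvd hd3) hs
  refine ⟨K, hK, fun y hy S hS hSy l hl => ?_⟩
  apply le_of_tendsto hl
  filter_upwards [eventually_gt_atTop (0 : ℝ)] with X hX
  have hlog : 0 < Real.log y := Real.log_pos (by linarith)
  rw [div_le_div_iff₀ hX (by positivity)]
  have h1 := h y hy X hX.le
  rw [le_div_iff₀ (by positivity)] at h1
  refine le_trans ?_ h1
  apply mul_le_mul_of_nonneg_right _ (by positivity)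
  unfold G
  have : pos {x | s * x ∈ S} X ⊆ pos {x | s * x ∈ Stay d y} X := by
    intro x hx
    rw [mem_pos] at hx ⊢
    refine ⟨hx.1, fun k => hSy _ ((inv_iter hS k _).1 hx.2)⟩
  exact_mod_cast card_le_card this

/-- every nonzero orbit contains an integer prime to 3 -/
theorem exists_prime3' {d : ℤ} (hd : Odd d) (hd3 : ¬ (3 : ℤ) ∣ d) (n : ℕ) :
    ∀ a : ℤ, a ≠ 0 → a.natAbs ≤ n → ∃ k : ℕ, ¬ (3 : ℤ) ∣ (Td d)^[k] a := by
  induction n with
  | zero => intro a ha h; omega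
  | succ n ih =>
    intro a ha h
    by_cases h3 : (3 : ℤ) ∣ a
    · by_cases h2 : a % 2 = 0
      · obtain ⟨k, hk⟩ := ih (a / 2) (by omega) (by omega)
        refine ⟨k + 1, ?_⟩
        rw [Function.iterate_succ_apply]
        have : Td d a = a / 2 := by unfold Td; rw [if_pos h2]
        rw [this]; exact hk
      · refine ⟨1, ?_⟩
        rw [Function.iterate_one]
        obtain ⟨t, ht⟩ := hd
        have : Td d a = (3 * a + d) / 2 := by unfold Td; rw [if_neg h2]
        rw [this]; omega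
    · exact ⟨0, h3⟩

/-- the map `T` keeps the sign (`d = 1`) -/
theorem Td_one_sign {s : ℤ} (hs : s = 1 ∨ s = -1) (x : ℤ) : 0 < s * x ↔ 0 < s * Td 1 x := by
  unfold Td
  rcases hs with rfl | rfl
  · by_cases h : x % 2 = 0
    · rw [if_pos h]; omega
    · rw [if_neg h]; omega
  · by_cases h : x % 2 = 0
    · rw [if_pos h]; omega
    · rw [if_neg h]; omega

theorem Td_one_iter_sign {s : ℤ} (hs : s = 1 ∨ s = -1) (x : ℤ) (k : ℕ) :
    0 < s * x ↔ 0 < s * (Td 1)^[k] x := by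
  induction k generalizing x with
  | zero => simp
  | succ k ih => rw [Td_one_sign hs, ih, Function.iterate_succ_apply]

/-- `d = 1`: an invariant set with an element of sign `s` has positive density there -/
theorem one_pos {s : ℤ} (hs : s = 1 ∨ s = -1) {S : Set ℤ} (h : Inv 1 S) {a : ℤ} (haS : a ∈ S)
    (ha : 0 < s * a) {l : ℝ} (hl : HD s S l) : 0 < l := by
  obtain ⟨k, hk⟩ := exists_prime3' odd_one (by decide) _ a (by rintro rfl; simp at ha) le_rfl
  exact class_pos odd_one (by decide) hs h ((inv_iter h k a).1 haS) ((Td_one_iter_sign hs a k).1 ha) hk hl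

theorem one_lt {s : ℤ} (hs : s = 1 ∨ s = -1) {S : Set ℤ} (h : Inv 1 S) {a : ℤ} (haS : a ∉ S)
    (ha : 0 < s * a) {l : ℝ} (hl : HD s S l) : l < 1 := by
  obtain ⟨l', _, _, hl'⟩ := dens_side odd_one isCoprime_one_left hs h.compl
  have h1 := HD_compl hl hl'
  have h2 := one_pos hs h.compl haS ha hl'
  linarith

theorem one_eq_zero {s : ℤ} (hs : s = 1 ∨ s = -1) {S : Set ℤ} (h : ∀ a ∈ S, ¬ 0 < s * a) {l : ℝ}
    (hl : HD s S l) : l = 0 := by
  have h0 : Tendsto (fun _ : ℝ => (0 : ℝ)) atTop (𝓝 0) := tendsto_const_nhds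
  refine tendsto_nhds_unique hl (h0.congr fun X => ?_)
  have : pos {x | s * x ∈ S} X = ∅ := by
    rw [Finset.eq_empty_iff_forall_notMem]
    intro x hx
    rw [mem_pos] at hx
    apply h _ hx.2
    have : s * (s * x) = x := by rcases hs with rfl | rfl <;> ring
    rw [this]; omega
  unfold G
  rw [this]; simp

/-- `T` on the natural numbers -/
abbrev Tn : ℕ → ℕ := fun a : ℕ => if a % 2 = 0 then a / 2 else (3 * a + 1) / 2

/-- the integer set of a property of positive naturals -/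
def NS (P : ℕ → Prop) : Set ℤ := {x : ℤ | 1 ≤ x ∧ P x.toNat}

theorem NS_inv {P : ℕ → Prop} (hP : ∀ n : ℕ, 1 ≤ n → (P n ↔ P (Tn n))) : Inv 1 (NS P) := by
  intro x
  rcases lt_or_ge x 1 with hx | hx
  · constructor
    · rintro ⟨h, _⟩; omega
    · rintro ⟨h, _⟩
      exfalso
      unfold Td at h
      split_ifs at h <;> omega
  · have h1 : 1 ≤ Td 1 x := by
      unfold Td; split_ifs <;> omega
    have h2 : (Td 1 x).toNat = Tn x.toNat := by
      unfold Td; simp only [Tn]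
      obtain ⟨n, rfl⟩ : ∃ n : ℕ, x = n := ⟨x.toNat, (Int.toNat_of_nonneg (by omega)).symm⟩
      rw [Int.toNat_natCast]
      by_cases h : n % 2 = 0
      · rw [if_pos (by omega), if_pos h]; omega
      · rw [if_neg (by omega), if_neg h]; omega
    constructor
    · rintro ⟨_, h⟩
      refine ⟨h1, ?_⟩
      rw [h2]; exact (hP _ (by omega)).1 h
    · rintro ⟨_, h⟩
      rw [h2] at h
      exact ⟨hx, (hP _ (by omega)).2 h⟩

theorem NS_ncard (P : ℕ → Prop) (N : ℕ) :
    {n : ℤ | 0 < 1 * n ∧ 1 * n ≤ N ∧ n ∈ NS P}.ncard = {n : ℕ | 1 ≤ n ∧ n ≤ N ∧ P n}.ncard := by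
  have : {n : ℤ | 0 < 1 * n ∧ 1 * n ≤ N ∧ n ∈ NS P}
      = (fun n : ℕ => (n : ℤ)) '' {n : ℕ | 1 ≤ n ∧ n ≤ N ∧ P n} := by
    ext x
    rw [Set.mem_image]
    constructor
    · rintro ⟨h1, h2, h3, h4⟩
      refine ⟨x.toNat, ⟨by omega, by omega, h4⟩, by omega⟩
    · rintro ⟨n, ⟨h1, h2, h3⟩, rfl⟩
      refine ⟨by omega, by omega, by omega, ?_⟩
      simpa using h3
  rw [this, Set.ncard_image_of_injective _ Nat.cast_injective]

/-- DENSITY OF AN INVARIANT PROPERTY of the positive integers -/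
theorem nat_density {P : ℕ → Prop} (hP : ∀ n : ℕ, 1 ≤ n → (P n ↔ P (Tn n))) :
    ∃ l : ℝ, 0 ≤ l ∧ l ≤ 1 ∧
      Tendsto (fun N : ℕ => ({n : ℕ | 1 ≤ n ∧ n ≤ N ∧ P n}.ncard : ℝ) / N) atTop (𝓝 l) ∧
      (0 < l ↔ ∃ n, 1 ≤ n ∧ P n) ∧ (l = 1 ↔ ∀ n, 1 ≤ n → P n) := by
  obtain ⟨l, hl0, hl1, hl⟩ := dens_side odd_one isCoprime_one_left (Or.inl rfl : (1 : ℤ) = 1 ∨ _) (NS_inv hP)
  refine ⟨l, hl0, hl1, ?_, ?_, ?_⟩
  · refine (HD_ncard (Or.inl rfl) hl).congr fun N => ?_
    rw [NS_ncard]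
  · constructor
    · intro h
      by_contra hcon
      push Not at hcon
      have := one_eq_zero (Or.inl rfl) (S := NS P) (fun a ha _ => by
        obtain ⟨h1, h2⟩ := ha
        exact hcon a.toNat (by omega) h2) hl
      linarith
    · rintro ⟨n, hn, hPn⟩
      refine one_pos (Or.inl rfl) (NS_inv hP) (a := (n : ℤ)) ⟨by exact_mod_cast hn, by simpa using hPn⟩ ?_ hl
      rw [one_mul]; exact_mod_cast hn
  · constructor
    · intro h n hn
      by_contra hcon
      have := one_lt (Or.inl rfl) (NS_inv hP) (a := (n : ℤ)) (fun h' => hcon (by simpa using h'.2))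
        (by rw [one_mul]; exact_mod_cast hn) hl
      linarith
    · intro h
      obtain ⟨l', _, _, hl'⟩ := dens_side odd_one isCoprime_one_left (Or.inl rfl : (1 : ℤ) = 1 ∨ _) (NS_inv hP).compl
      have h1 := HD_compl hl hl'
      have h2 := one_eq_zero (Or.inl rfl) (S := (NS P)ᶜ) (fun a ha h0 => ha ⟨by omega, h _ (by omega)⟩) hl'
      linarith

end Pool.Agent.H499R2.ND
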