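import Pool.Agent.H33.G.R_seed8.H320R2.PDGam

/-! Natural density: decay of the nonuniformity functional beyond the diagonal. -/

set_option autoImplicit false

namespace Pool.Agent.H499R2.ND

open Pool.Agent.H320R2.PD Finset

/-- fewer letters, same relative digit: larger nonuniformity -/
theorem gam_anti (A a k i : ℕ) : gam A (a + k) (a + (k + i)) ≤ gam A k (k + i) := by
  calc gam A (a + k) (a + (k + i)) ≤ gam A a (a + (k + i)) * gam A k (k + i) := gam_rec A a k (k + i)
    _ ≤ 1 * gam A k (k + i) :=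
        mul_le_mul_of_nonneg_right (gam_le_one _ _ _) (gam_nonneg _ _ _)
    _ = _ := one_mul _

theorem gam_anti' {A k k' i : ℕ} (h : k ≤ k') : gam A k' (k' + i) ≤ gam A k (k + i) := by
  obtain ⟨a, rfl⟩ := Nat.exists_eq_add_of_le h
  have := gam_anti A a k i
  rw [show k + a = a + k by ring, show a + k + i = a + (k + i) by ring]
  exact this

/-- superpolynomial decay near the diagonal -/
theorem gam_beyond (B : ℕ) : ∃ C : ℝ, 0 < C ∧ ∀ k : ℕ, 1 ≤ k → ∀ i A : ℕ, 3 * k ≤ A →
    gam A k (k + i) ≤ C * (((i : ℝ) + 1) / k) ^ B := by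
  obtain ⟨k₀, hk₀⟩ := gam_good (ε := (1 / 13 : ℝ) ^ B) (by positivity)
  set K0 : ℕ := 400 + 2 * k₀ with hK0
  refine ⟨(K0 : ℝ) ^ B, by positivity, ?_⟩
  intro k
  induction k using Nat.strong_induction_on with
  | _ k ih =>
    intro hk i A hA
    have hkR : (0 : ℝ) < k := by exact_mod_cast hk
    rcases lt_or_ge k (K0 * (i + 1)) with hlt | hge
    · calc gam A k (k + i) ≤ 1 := gam_le_one _ _ _
        _ ≤ ((K0 : ℝ) * (((i : ℝ) + 1) / k)) ^ B := by
            apply one_le_pow₀
            rw [← mul_div_assoc, le_div_iff₀ hkR, one_mul]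
            have : (k : ℝ) < ((K0 * (i + 1) : ℕ) : ℝ) := by exact_mod_cast hlt
            push_cast at this ⊢
            linarith
        _ = _ := by rw [mul_pow]
    · have hi1 : K0 * (i + 1) = 400 * i + 2 * (k₀ * i) + 400 + 2 * k₀ := by rw [hK0]; ring
      have hk1big : 400 * i + 400 + 2 * k₀ ≤ k := by
        have : 0 ≤ 2 * (k₀ * i) := Nat.zero_le _
        omega
      obtain ⟨k1, hk1⟩ : ∃ k1 : ℕ, k1 = 5 * k / 6 := ⟨_, rfl⟩
      have hk1k₀ : k₀ ≤ k1 := by omega
      obtain ⟨q, hq1, hq2, hq3⟩ := hk₀ k1 hk1k₀ A (by omega)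
      obtain ⟨k2, hk2⟩ : ∃ k2 : ℕ, k2 = q - i - k1 := ⟨_, rfl⟩
      have hqk : q ≤ k := by omega
      have hk2' : k1 + k2 + i = q := by omega
      have hk2b : k ≤ 13 * k2 := by omega
      have hk2pos : 1 ≤ k2 := by omega
      have hk2lt : k2 < k := by omega
      have h1 : gam A k (k + i) ≤ gam A (k1 + k2) (k1 + k2 + i) := gam_anti' (by omega)
      have h2 : gam A (k1 + k2) (k1 + k2 + i) ≤ gam A k1 q * gam A k2 (k2 + i) := by
        have := gam_rec A k1 k2 (k2 + i)
        rw [← add_assoc, hk2'] at this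
        rw [hk2']
        exact this
      have h3 := ih k2 hk2lt hk2pos i A (by omega)
      have hk2R : (0 : ℝ) < k2 := by exact_mod_cast hk2pos
      calc gam A k (k + i) ≤ gam A k1 q * gam A k2 (k2 + i) := h1.trans h2
        _ ≤ (1 / 13 : ℝ) ^ B * ((K0 : ℝ) ^ B * (((i : ℝ) + 1) / k2) ^ B) :=
            mul_le_mul hq3 h3 (gam_nonneg _ _ _) (by positivity)
        _ = (K0 : ℝ) ^ B * ((1 / 13 : ℝ) * (((i : ℝ) + 1) / k2)) ^ B := by
            rw [mul_pow]; ring
        _ ≤ (K0 : ℝ) ^ B * ((((i : ℝ) + 1) / k)) ^ B := by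
            apply mul_le_mul_of_nonneg_left _ (by positivity)
            apply pow_le_pow_left₀ (by positivity)
            rw [← mul_div_assoc, div_le_div_iff₀ hk2R hkR]
            have : (k : ℝ) ≤ 13 * k2 := by exact_mod_cast hk2b
            nlinarith [this, (by positivity : (0 : ℝ) ≤ (i : ℝ) + 1)]

/-- all digits from `m'` to `k + m` -/
theorem gam_all (B : ℕ) : ∃ C : ℝ, 0 < C ∧ ∀ k m m' A J : ℕ, 1 ≤ k → 1 ≤ m' → 3 * k ≤ A →
    m' ≤ J → J < k + m →
    gam A k J ≤ C * ((1 / (m' : ℝ)) ^ B + ((m : ℝ) / k) ^ B) := by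
  obtain ⟨C, hC, h⟩ := gam_beyond B
  refine ⟨C, hC, fun k m m' A J hk hm' hA hJ hJk => ?_⟩
  have hkR : (0 : ℝ) < k := by exact_mod_cast hk
  have hm'R : (0 : ℝ) < m' := by exact_mod_cast hm'
  rcases lt_or_ge J k with hlt | hge
  · have h1 : gam A k J ≤ gam A J J := by
      obtain ⟨a, rfl⟩ := Nat.exists_eq_add_of_le hlt.le
      calc gam A (J + a) J ≤ gam A J (J + 0) * gam A a 0 := gam_rec A J a 0
        _ ≤ gam A J (J + 0) * 1 :=
            mul_le_mul_of_nonneg_left (gam_le_one _ _ _) (gam_nonneg _ _ _)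
        _ = _ := by rw [mul_one, add_zero]
    have hJ1 : 1 ≤ J := hm'.trans hJ
    have h2 := h J hJ1 0 A (by omega)
    have hJR : (m' : ℝ) ≤ J := by exact_mod_cast hJ
    calc gam A k J ≤ C * (((0 : ℕ) : ℝ) + 1) ^ B / (J : ℝ) ^ B := by
            refine h1.trans ?_
            rw [add_zero] at h2
            rw [div_pow] at h2
            rw [mul_div_assoc]
            exact h2
      _ ≤ C * ((1 / (m' : ℝ)) ^ B) := by
            rw [mul_div_assoc, ← div_pow]
            apply mul_le_mul_of_nonneg_left _ hC.le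
            apply pow_le_pow_left₀ (by positivity)
            simp only [Nat.cast_zero, zero_add]
            exact one_div_le_one_div_of_le hm'R hJR
      _ ≤ _ := by
            apply mul_le_mul_of_nonneg_left _ hC.le
            have : (0 : ℝ) ≤ ((m : ℝ) / k) ^ B := by positivity
            linarith
  · obtain ⟨i, rfl⟩ := Nat.exists_eq_add_of_le hge
    have h2 := h k hk i A hA
    have him : (i : ℝ) + 1 ≤ m := by
      have : i + 1 ≤ m := by omega
      exact_mod_cast this
    calc gam A k (k + i) ≤ C * (((i : ℝ) + 1) / k) ^ B := h2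
      _ ≤ C * ((m : ℝ) / k) ^ B := by
            apply mul_le_mul_of_nonneg_left _ hC.le
            apply pow_le_pow_left₀ (by positivity)
            exact div_le_div_of_nonneg_right him hkR.le
      _ ≤ _ := by
            apply mul_le_mul_of_nonneg_left _ hC.le
            have : (0 : ℝ) ≤ (1 / (m' : ℝ)) ^ B := by positivity
            linarith

end Pool.Agent.H499R2.ND
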