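import Pool.Agent.H33.G.R_seed8.H499R2.NDClass2
import Pool.Agent.H33.G.R_seed8.H366R2.DensFinal

/-! Natural density: merging classes of the `3x+d` maps on both sides. -/

set_option autoImplicit false

namespace Pool.Agent.H499R2.ND

open Pool.Agent.H320R2.PD Finset Filter Topology

/-- merging class of `a` under `f` -/
def Mg (f : ℤ → ℤ) (a : ℤ) : Set ℤ := {n : ℤ | ∃ i j : ℕ, f^[i] n = f^[j] a}

theorem Mg_self (f : ℤ → ℤ) (a : ℤ) : a ∈ Mg f a := ⟨0, 0, rfl⟩

theorem Mg_symm {f : ℤ → ℤ} {a n : ℤ} (h : n ∈ Mg f a) : a ∈ Mg f n := by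
  obtain ⟨i, j, h⟩ := h; exact ⟨j, i, h.symm⟩

theorem Mg_trans {f : ℤ → ℤ} {a b n : ℤ} (h : n ∈ Mg f b) (h' : b ∈ Mg f a) : n ∈ Mg f a := by
  obtain ⟨i, j, h⟩ := h
  obtain ⟨k, l, h'⟩ := h'
  refine ⟨k + i, j + l, ?_⟩
  rw [Function.iterate_add_apply, h, ← Function.iterate_add_apply, add_comm k j,
    Function.iterate_add_apply, h', ← Function.iterate_add_apply]

theorem Mg_step (f : ℤ → ℤ) (a x : ℤ) : x ∈ Mg f a ↔ f x ∈ Mg f a := by
  constructor
  · rintro ⟨i, j, h⟩
    refine ⟨i, j + 1, ?_⟩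
    rw [← Function.iterate_succ_apply, Function.iterate_succ_apply', h, ← Function.iterate_succ_apply' f]
  · rintro ⟨i, j, h⟩
    exact ⟨i + 1, j, by rw [Function.iterate_succ_apply]; exact h⟩

theorem Mg_iter (f : ℤ → ℤ) (a x : ℤ) (k : ℕ) : x ∈ Mg f a ↔ f^[k] x ∈ Mg f a := by
  induction k generalizing x with
  | zero => simp
  | succ k ih => rw [Mg_step, ih, Function.iterate_succ_apply]

theorem Mg_inv (d a : ℤ) : Inv d (Mg (Td d) a) := fun x => Mg_step _ a x

theorem inv_iter {d : ℤ} {S : Set ℤ} (h : Inv d S) (k : ℕ) (x : ℤ) : x ∈ S ↔ (Td d)^[k] x ∈ S := by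
  induction k generalizing x with
  | zero => simp
  | succ k ih => rw [h x, ih, Function.iterate_succ_apply]

theorem inv_class {d : ℤ} {S : Set ℤ} (h : Inv d S) {a n : ℤ} (hn : n ∈ Mg (Td d) a) : n ∈ S ↔ a ∈ S := by
  obtain ⟨i, j, hij⟩ := hn
  rw [inv_iter h i n, hij, ← inv_iter h j a]

theorem side_inv {d : ℤ} (hd : Odd d) {s : ℤ} (hs : s = 1 ∨ s = -1) {S : Set ℤ} (h : Inv d S) :
    Inv (s * d) {x | s * x ∈ S} := by
  rcases hs with rfl | rfl
  · have : {x : ℤ | (1 : ℤ) * x ∈ S} = S := by ext x; simp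
    rw [this, one_mul]; exact h
  · have h1 := h.neg hd
    have : {x : ℤ | (-1 : ℤ) * x ∈ S} = {x | -x ∈ S} := by ext x; simp
    rw [this, neg_one_mul]; exact h1

theorem side_odd {d : ℤ} (hd : Odd d) {s : ℤ} (hs : s = 1 ∨ s = -1) : Odd (s * d) := by
  rcases hs with rfl | rfl
  · rwa [one_mul]
  · rw [neg_one_mul]; exact hd.neg

theorem side_cop {d : ℤ} (hd : IsCoprime d 3) {s : ℤ} (hs : s = 1 ∨ s = -1) : IsCoprime (s * d) 3 := by
  rcases hs with rfl | rfl
  · rwa [one_mul]
  · rw [neg_one_mul]; exact hd.neg_left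

/-- density among the integers of sign `s`, real variable -/
def HD (s : ℤ) (S : Set ℤ) (l : ℝ) : Prop :=
  Tendsto (fun X : ℝ => G {x | s * x ∈ S} X / X) atTop (𝓝 l)

theorem dens_side {d : ℤ} (hd : Odd d) (hd3 : IsCoprime d 3) {s : ℤ} (hs : s = 1 ∨ s = -1)
    {S : Set ℤ} (h : Inv d S) : ∃ l : ℝ, 0 ≤ l ∧ l ≤ 1 ∧ HD s S l := by
  obtain ⟨l, hl⟩ := density_exists (side_odd hd hs) (side_cop hd3 hs) (side_inv hd hs h)
  refine ⟨l, ?_, ?_, hl⟩
  · apply ge_of_tendsto hl
    filter_upwards [eventually_gt_atTop (0 : ℝ)] with X hX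
    exact div_nonneg (G_nonneg _ _) hX.le
  · apply le_of_tendsto hl
    filter_upwards [eventually_gt_atTop (0 : ℝ)] with X hX
    rw [div_le_one hX]
    exact pos_card_le _ hX.le

/-- a class containing an integer `a` prime to 3 has positive density on the side of `a` -/
theorem class_pos {d : ℤ} (hd : Odd d) (hd3 : ¬ (3 : ℤ) ∣ d) {s : ℤ} (hs : s = 1 ∨ s = -1)
    {S : Set ℤ} (h : Inv d S) {a : ℤ} (haS : a ∈ S) (ha : 0 < s * a) (ha3 : ¬ (3 : ℤ) ∣ a)
    {l : ℝ} (hl : HD s S l) : 0 < l := by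
  obtain ⟨c, C, X0, hc, _, hX⟩ := Pool.Agent.H366R2.PDK.dens_k_log Pool.Agent.H366R2.PDK.decay
    d (Int.odd_iff.1 hd) hd3 a ha3
  have hlow : ∀ X : ℝ, max X0 1 ≤ X → c / 2 ≤ G {x | s * x ∈ S} (2 * X) / (2 * X) := by
    intro X hXX
    have hX1 : 1 ≤ X := (le_max_right _ _).trans hXX
    obtain ⟨A, hA, hcard⟩ := hX X ((le_max_left _ _).trans hXX)
    rw [le_div_iff₀ (by linarith)]
    have hinj : (A.card : ℝ) ≤ G {x | s * x ∈ S} (2 * X) := by
      unfold G
      have : A.card ≤ (pos {x | s * x ∈ S} (2 * X)).card := by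
        apply card_le_card_of_injOn (fun z => s * z)
        · intro z hz
          obtain ⟨h1, h2, j, _, hj⟩ := hA z hz
          have hzs : 0 < s * z := by
            rcases hs with rfl | rfl
            · have : 0 < a := by omega
              have := (mul_pos_iff_of_pos_right this).1 h2
              omega
            · have h5 : a < 0 := by omega
              have : z < 0 := by
                by_contra hcon
                push Not at hcon
                have := mul_nonpos_of_nonneg_of_nonpos hcon h5.le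
                omega
              omega
          have hss : s * (s * z) = z := by rcases hs with rfl | rfl <;> ring
          rw [mem_coe, mem_pos]
          beta_reduce
          refine ⟨⟨by omega, ?_⟩, ?_⟩
          · have h4 : s * z = |z| := by
              rcases hs with rfl | rfl
              · rw [abs_of_pos (by omega)]; ring
              · rw [abs_of_neg (by omega)]; ring
            rw [h4]
            linarith
          · change s * (s * z) ∈ S
            rw [hss]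
            have hj' : (Td d)^[j] z = a := hj
            rw [inv_iter h j z, hj']; exact haS
        · intro z _ z' _ h
          simp only at h
          rcases hs with rfl | rfl <;> omega
      exact_mod_cast this
    linarith
  have hge : c / 2 ≤ l := by
    apply ge_of_tendsto (hl.comp (tendsto_id.const_mul_atTop (by norm_num : (0 : ℝ) < 2)))
    filter_upwards [eventually_ge_atTop (max X0 1)] with X hX
    exact hlow X hX
  linarith

/-- natural density among the integers of sign `s` (counting form) -/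
theorem HD_ncard {s : ℤ} (hs : s = 1 ∨ s = -1) {S : Set ℤ} {l : ℝ} (h : HD s S l) :
    Tendsto (fun N : ℕ => ({n : ℤ | 0 < s * n ∧ s * n ≤ N ∧ n ∈ S}.ncard : ℝ) / N) atTop (𝓝 l) := by
  refine (nat_limit h).congr fun N => ?_
  rw [ncard_side hs S N]

theorem HD_unique {s : ℤ} {S : Set ℤ} {l l' : ℝ} (h : HD s S l) (h' : HD s S l') : l = l' :=
  tendsto_nhds_unique h h'

theorem HD_compl {s : ℤ} {S : Set ℤ} {l l' : ℝ} (h : HD s S l) (h' : HD s Sᶜ l') : l + l' = 1 :=
  compl_density (S := {x | s * x ∈ S}) h h'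

/-- labels of the classes on the side `s` -/
def IsRp (d s a : ℤ) : Prop := 0 < s * a ∧ ∀ b : ℤ, 0 < s * b → b ∈ Mg (Td d) a → s * a ≤ s * b

theorem rep_unique {d s a b : ℤ} (hs : s = 1 ∨ s = -1) (ha : IsRp d s a) (hb : IsRp d s b)
    (h : a ∈ Mg (Td d) b) : a = b := by
  have h1 := ha.2 b hb.1 (Mg_symm h)
  have h2 := hb.2 a ha.1 h
  rcases hs with rfl | rfl <;> omega

theorem exists_rep {d s : ℤ} (hs : s = 1 ∨ s = -1) {m : ℤ} (hm : 0 < s * m) :
    ∃ b : ℤ, IsRp d s b ∧ b ∈ Mg (Td d) m ∧ s * b ≤ s * m := by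
  classical
  have hexN : ∃ j : ℕ, ∃ b : ℤ, 0 < s * b ∧ b ∈ Mg (Td d) m ∧ s * b = j :=
    ⟨(s * m).toNat, m, hm, Mg_self _ m, (Int.toNat_of_nonneg hm.le).symm⟩
  obtain ⟨b, hb1, hb2, hb3⟩ := Nat.find_spec hexN
  have hbmin : ∀ b' : ℤ, 0 < s * b' → b' ∈ Mg (Td d) m → s * b ≤ s * b' := by
    intro b' h1 h2
    have := Nat.find_min' hexN ⟨b', h1, h2, (Int.toNat_of_nonneg h1.le).symm⟩
    rw [hb3]
    have h3 : ((s * b').toNat : ℤ) = s * b' := Int.toNat_of_nonneg h1.le
    rw [← h3]; exact_mod_cast this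
  exact ⟨b, ⟨hb1, fun b' h1 h2 => hbmin b' h1 (Mg_trans h2 hb2)⟩, hb2, hbmin m hm (Mg_self _ m)⟩

theorem Td_side {d : ℤ} (hd : Odd d) {s : ℤ} (hs : s = 1 ∨ s = -1) (k : ℕ) (x : ℤ) :
    (Td (s * d))^[k] x = s * (Td d)^[k] (s * x) := by
  rcases hs with rfl | rfl
  · simp
  · induction k generalizing x with
    | zero => simp
    | succ k ih =>
      rw [Function.iterate_succ_apply, Function.iterate_succ_apply, ih]
      have : Td (-1 * d) x = -Td d (-x) := by rw [neg_one_mul]; exact Td_neg d x hd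
      rw [this]
      congr 2
      ring_nf

theorem cop_of_not_dvd {d : ℤ} (hd3 : ¬ (3 : ℤ) ∣ d) : IsCoprime d 3 :=
  ((Int.prime_three.coprime_iff_not_dvd).2 hd3).symm

/-- (A) on both sides -/
theorem stay_side (B : ℕ) {d : ℤ} (hd : Odd d) (hd3 : IsCoprime d 3) {s : ℤ} (hs : s = 1 ∨ s = -1) :
    ∃ K : ℝ, 0 < K ∧ ∀ y : ℝ, 2 ≤ y → ∀ X : ℝ, 0 ≤ X →
      G {x | s * x ∈ Stay d y} X ≤ K * X / (Real.log y) ^ B := by
  obtain ⟨K, hK, h⟩ := stay_count B (side_odd hd hs) (side_cop hd3 hs)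
  refine ⟨K, hK, fun y hy X hX => ?_⟩
  have : {x : ℤ | s * x ∈ Stay d y} = Stay (s * d) y := by
    rcases hs with rfl | rfl
    · rw [one_mul]; ext x; simp
    · rw [neg_one_mul, ← Stay_neg d hd y]; ext x; simp
  rw [this]; exact h y hy X hX

/-- a countable partition: densities of the classes and of the invariant sets -/
theorem structure_d {d : ℤ} (hd : Odd d) (hd3 : ¬ (3 : ℤ) ∣ d) {s : ℤ} (hs : s = 1 ∨ s = -1) :
    ∃ δ : ℤ → ℝ,
    (∀ a : ℤ, 0 ≤ δ a ∧ HD s (Mg (Td d) a) (δ a)) ∧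
    (∀ a : ℤ, 0 < s * a → ¬ (3 : ℤ) ∣ a → 0 < δ a) ∧
    (∀ S : Set ℤ, Inv d S → Summable (fun a : {a : ℤ // IsRp d s a ∧ a ∈ S} => δ a) ∧
      HD s S (∑' a : {a : ℤ // IsRp d s a ∧ a ∈ S}, δ a)) ∧
    HasSum (fun a : {a : ℤ // IsRp d s a} => δ a) 1 := by
  have hc3 : IsCoprime d 3 := cop_of_not_dvd hd3
  have hex : ∀ a : ℤ, ∃ l : ℝ, 0 ≤ l ∧ l ≤ 1 ∧ HD s (Mg (Td d) a) l := fun a =>
    dens_side hd hc3 hs (Mg_inv d a)
  choose δ hδ0 hδ1 hδ using hex
  have hsodd := side_odd hd hs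
  have hs3 := side_cop hc3 hs
  have hss : ∀ x : ℤ, s * (s * x) = x := by
    intro x; rcases hs with rfl | rfl <;> ring
  have hdisj : ∀ a b : ℤ, IsRp d s a → IsRp d s b → a ≠ b →
      Disjoint {x : ℤ | s * x ∈ Mg (Td d) a} {x : ℤ | s * x ∈ Mg (Td d) b} := by
    intro a b ha hb hab
    rw [Set.disjoint_left]
    intro x hx hx'
    apply hab
    exact rep_unique hs ha hb (Mg_trans (Mg_symm hx) hx')
  have hone : HasSum (fun a : {a : ℤ // IsRp d s a} => δ a) 1 := by
    refine sum_one (ι := {a : ℤ // IsRp d s a}) hsodd hs3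
      (fun a => {x : ℤ | s * x ∈ Mg (Td d) a.1}) _ ?_ ?_ ?_
    · intro a; exact hδ a.1
    · intro a b hab; exact hdisj a.1 b.1 a.2 b.2 (fun h => hab (Subtype.ext h))
    · intro y
      classical
      have hfin : {a : {a : ℤ // IsRp d s a} | ((s * a.1 : ℤ) : ℝ) ≤ max y |(d : ℝ)|}.Finite := by
        apply Set.Finite.of_finite_image (f := fun a => s * a.1)
        · apply (Set.finite_Icc (0 : ℤ) ⌊max y |(d : ℝ)|⌋).subset
          rintro _ ⟨a, ha, rfl⟩
          exact ⟨a.2.1.le, Int.le_floor.2 ha⟩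
        · intro a _ b _ h
          simp only at h
          apply Subtype.ext
          rcases hs with rfl | rfl <;> omega
      refine ⟨hfin.toFinset, fun n hn hA => ?_⟩
      -- the orbit of `n` stays on the positive side above `max y |d|`
      have hall : ∀ k : ℕ, max y |(d : ℝ)| < (((Td (s * d))^[k] n : ℤ) : ℝ) := by
        intro k
        have hpos : 0 < (Td (s * d))^[k] n → max y |(d : ℝ)| < (((Td (s * d))^[k] n : ℤ) : ℝ) := by
          intro hp
          by_contra hcon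
          push Not at hcon
          rw [Td_side hd hs] at hp hcon
          set m := (Td d)^[k] (s * n) with hm
          obtain ⟨b, hb1, hb2, hb3⟩ := exists_rep (d := d) hs hp
          have hin : (⟨b, hb1⟩ : {a : ℤ // IsRp d s a}) ∈ hfin.toFinset := by
            rw [Set.Finite.mem_toFinset]
            change ((s * b : ℤ) : ℝ) ≤ _
            refine le_trans ?_ hcon
            exact_mod_cast hb3
          apply hA _ hin
          change s * n ∈ Mg (Td d) b
          have h1 : m ∈ Mg (Td d) (s * n) := (Mg_iter _ _ _ k).1 (Mg_self _ _)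
          exact Mg_trans (Mg_symm h1) (Mg_symm hb2)
        apply hpos
        -- positivity by induction
        clear hpos
        induction k with
        | zero => exact hn
        | succ k ih =>
          have hp' : max y |(d : ℝ)| < (((Td (s * d))^[k] n : ℤ) : ℝ) := by
            by_contra hcon
            push Not at hcon
            have hp := ih
            rw [Td_side hd hs] at hp hcon
            set m := (Td d)^[k] (s * n) with hm
            obtain ⟨b, hb1, hb2, hb3⟩ := exists_rep (d := d) hs hp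
            have hin : (⟨b, hb1⟩ : {a : ℤ // IsRp d s a}) ∈ hfin.toFinset := by
              rw [Set.Finite.mem_toFinset]
              change ((s * b : ℤ) : ℝ) ≤ _
              refine le_trans ?_ hcon
              exact_mod_cast hb3
            apply hA _ hin
            change s * n ∈ Mg (Td d) b
            have h1 : m ∈ Mg (Td d) (s * n) := (Mg_iter _ _ _ k).1 (Mg_self _ _)
            exact Mg_trans (Mg_symm h1) (Mg_symm hb2)
          rw [Function.iterate_succ_apply']
          set z := (Td (s * d))^[k] n with hz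
          have hz1 : |(d : ℝ)| < (z : ℝ) := lt_of_le_of_lt (le_max_right _ _) hp'
          have hz2 : |d| < z := by exact_mod_cast hz1
          have hsd : -z < s * d := by
            have h1 := neg_abs_le d
            have h2 := le_abs_self d
            rcases hs with rfl | rfl <;> omega
          have hz0 : 0 < z := lt_of_le_of_lt (abs_nonneg d) hz2
          unfold Td
          split_ifs with h
          · omega
          · omega
      intro k
      have h1 := lt_of_le_of_lt (le_max_left y |(d : ℝ)|) (hall k)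
      exact lt_of_lt_of_le h1 (le_abs_self _)
  refine ⟨δ, fun a => ⟨hδ0 a, hδ a⟩, fun a ha ha3 => class_pos hd hd3 hs (Mg_inv d a) (Mg_self _ a) ha ha3 (hδ a), ?_, hone⟩
  intro S hS
  obtain ⟨l, hl0, hl1, hl⟩ := dens_side hd hc3 hs hS
  obtain ⟨l', hl'0, hl'1, hl'⟩ := dens_side hd hc3 hs hS.compl
  have hll := HD_compl hl hl'
  -- partial sums
  have hpart : ∀ (P : Set ℤ) (lP : ℝ), Inv d P → HD s P lP →
      ∀ A : Finset {a : ℤ // IsRp d s a ∧ a ∈ P}, ∑ a ∈ A, δ a.1 ≤ lP := by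
    intro P lP hP hlP A
    have htend : Tendsto (fun X : ℝ => (∑ a ∈ A, G {x | s * x ∈ Mg (Td d) a.1} X) / X) atTop
        (𝓝 (∑ a ∈ A, δ a.1)) := by
      have := tendsto_finsetSum A (fun a _ => hδ a.1)
      refine this.congr fun X => ?_
      rw [sum_div]
    apply le_of_tendsto_of_tendsto htend hlP
    filter_upwards [eventually_gt_atTop (0 : ℝ)] with X hX
    apply div_le_div_of_nonneg_right _ hX.le
    apply G_sum_le' A (fun a => {x | s * x ∈ Mg (Td d) a.1}) {x | s * x ∈ P}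
    · intro a _ b _ hab
      exact hdisj a.1 b.1 a.2.1 b.2.1 (fun h => hab (Subtype.ext h))
    · intro a _ x _ hx
      change s * x ∈ P
      exact (inv_class hP hx).2 a.2.2
  have hsumS : Summable (fun a : {a : ℤ // IsRp d s a ∧ a ∈ S} => δ a.1) :=
    summable_of_sum_le (fun a => hδ0 a.1) (hpart S l hS hl)
  have hsumSc : Summable (fun a : {a : ℤ // IsRp d s a ∧ a ∈ Sᶜ} => δ a.1) :=
    summable_of_sum_le (fun a => hδ0 a.1) (hpart Sᶜ l' hS.compl hl')
  have hleS : ∑' a : {a : ℤ // IsRp d s a ∧ a ∈ S}, δ a.1 ≤ l :=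
    hsumS.tsum_le_of_sum_le (hpart S l hS hl)
  have hleSc : ∑' a : {a : ℤ // IsRp d s a ∧ a ∈ Sᶜ}, δ a.1 ≤ l' :=
    hsumSc.tsum_le_of_sum_le (hpart Sᶜ l' hS.compl hl')
  have htot : (∑' a : {a : ℤ // IsRp d s a ∧ a ∈ S}, δ a.1)
      + (∑' a : {a : ℤ // IsRp d s a ∧ a ∈ Sᶜ}, δ a.1) = 1 := by
    let T : Set {a : ℤ // IsRp d s a} := {a | a.1 ∈ S}
    let E1 : {a : ℤ // IsRp d s a ∧ a ∈ S} ≃ T :=
      { toFun := fun a => ⟨⟨a.1, a.2.1⟩, a.2.2⟩
        invFun := fun a => ⟨a.1.1, a.1.2, a.2⟩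
        left_inv := fun a => rfl
        right_inv := fun a => rfl }
    let E2 : {a : ℤ // IsRp d s a ∧ a ∈ Sᶜ} ≃ (Tᶜ : Set {a : ℤ // IsRp d s a}) :=
      { toFun := fun a => ⟨⟨a.1, a.2.1⟩, a.2.2⟩
        invFun := fun a => ⟨a.1.1, a.1.2, a.2⟩
        left_inv := fun a => rfl
        right_inv := fun a => rfl }
    have e1 : ∑' a : {a : ℤ // IsRp d s a ∧ a ∈ S}, δ a.1 = ∑' a : T, δ a.1.1 :=
      E1.tsum_eq (fun a : T => δ a.1.1)
    have e2 : ∑' a : {a : ℤ // IsRp d s a ∧ a ∈ Sᶜ}, δ a.1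
        = ∑' a : (Tᶜ : Set {a : ℤ // IsRp d s a}), δ a.1.1 :=
      E2.tsum_eq (fun a : (Tᶜ : Set {a : ℤ // IsRp d s a}) => δ a.1.1)
    rw [e1, e2]
    have hsummable : Summable (fun a : {a : ℤ // IsRp d s a} => δ a.1) := hone.summable
    exact ((hsummable.subtype T).tsum_add_tsum_compl (hsummable.subtype Tᶜ)).trans hone.tsum_eq
  have hl_eq : l = ∑' a : {a : ℤ // IsRp d s a ∧ a ∈ S}, δ a.1 := by linarith
  exact ⟨hsumS, hl_eq ▸ hl⟩

end Pool.Agent.H499R2.ND
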