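import Pool.Agent.H33.G.R_seed8.H499R2.NDG1
import Pool.Agent.H33.G.R_seed8.H499R2.NDIter

/-! Natural density: parameters with a small spread, and one stage for size dependent targets. -/

set_option autoImplicit false

namespace Pool.Agent.H499R2.ND

open Pool.Agent.H320R2.PD Finset

/-- lower and upper sizes of the typical words, spread `1/N` -/
def Tlo (N k : ℕ) : ℕ := ((2 * N - 1) * k + (N - 1)) / N
def Thi (N k : ℕ) : ℕ := (2 * N + 1) * k / N

theorem Tlo_le_iff {N k T : ℕ} (hN : 0 < N) : Tlo N k ≤ T ↔ (2 * N - 1) * k ≤ N * T := by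
  unfold Tlo
  constructor
  · intro h
    have h1 : ((2 * N - 1) * k + (N - 1)) / N < T + 1 := Nat.lt_succ_of_le h
    rw [Nat.div_lt_iff_lt_mul hN] at h1
    have h2 : (T + 1) * N = N * T + N := by ring
    omega
  · intro h
    have h1 : (2 * N - 1) * k + (N - 1) < (T + 1) * N := by
      have h2 : (T + 1) * N = N * T + N := by ring
      omega
    exact Nat.lt_succ_iff.1 ((Nat.div_lt_iff_lt_mul hN).2 h1)

theorem le_Thi_iff {N k T : ℕ} (hN : 0 < N) : T ≤ Thi N k ↔ N * T ≤ (2 * N + 1) * k := by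
  unfold Thi
  rw [Nat.le_div_iff_mul_le hN, mul_comm T N]

theorem mem_GWN {N cap k : ℕ} (hN : 0 < N) {w : List ℕ} : w ∈ GW cap k (Tlo N k) (Thi N k) ↔
    w ∈ FW cap k ∧ (2 * N - 1) * k ≤ N * w.sum ∧ N * w.sum ≤ (2 * N + 1) * k := by
  unfold GW
  rw [mem_filter, Tlo_le_iff hN, le_Thi_iff hN]

/-- a spread `1/N ≤ 1/20` is a spread `1/20` -/
theorem spread20 {N k T : ℕ} (hN : 20 ≤ N) (h1 : (2 * N - 1) * k ≤ N * T) (h2 : N * T ≤ (2 * N + 1) * k) :
    39 * k ≤ 20 * T ∧ 20 * T ≤ 41 * k := by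
  obtain ⟨a, rfl⟩ : ∃ a, N = a + 20 := ⟨N - 20, by omega⟩
  have e1 : 2 * (a + 20) - 1 = 2 * a + 39 := by omega
  rw [e1] at h1
  constructor
  · by_contra hcon
    push Not at hcon
    -- 20 T + 1 ≤ 39 k
    have h3 : (a + 20) * (20 * T + 1) ≤ (a + 20) * (39 * k) := Nat.mul_le_mul_left _ hcon
    nlinarith
  · by_contra hcon
    push Not at hcon
    have h3 : (a + 20) * (41 * k + 1) ≤ (a + 20) * (20 * T) := Nat.mul_le_mul_left _ hcon
    nlinarith

/-- mass of the typical words, spread `1/N` -/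
theorem mass_GWN (N k : ℕ) (hN : 20 ≤ N) :
    1 - ∑ w ∈ GW (3 * k) k (Tlo N k) (Thi N k), wwt w
      ≤ 3 * Real.exp (-((1 / (N : ℝ)) ^ 2 * k / 32)) := by
  have hN0 : 0 < N := by omega
  have hNR : (20 : ℝ) ≤ N := by exact_mod_cast hN
  set η : ℝ := 1 / (N : ℝ) with hη
  have hη0 : 0 < η := by positivity
  have hη1 : η ≤ 1 / 20 := by
    rw [hη]; exact one_div_le_one_div_of_le (by norm_num) hNR
  set G := GW (3 * k) k (Tlo N k) (Thi N k) with hG
  have h1 : ∑ w ∈ FW (3 * k) k, wwt w ≤ ∑ w ∈ G, wwt w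
      + ∑ w ∈ (FW (3 * k) k).filter (fun w => η * k ≤ |(w.sum : ℝ) - 2 * k|), wwt w := by
    classical
    rw [← sum_union_inter]
    have hsub : FW (3 * k) k ⊆ G
        ∪ ((FW (3 * k) k).filter fun w => η * k ≤ |(w.sum : ℝ) - 2 * k|) := by
      intro w hw
      rw [mem_union, hG, mem_GWN hN0, mem_filter]
      by_cases h : (2 * N - 1) * k ≤ N * w.sum ∧ N * w.sum ≤ (2 * N + 1) * k
      · exact Or.inl ⟨hw, h⟩
      · refine Or.inr ⟨hw, ?_⟩
        have e0 : η * k = k / (N : ℝ) := by rw [hη]; ring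
        generalize w.sum = T at h ⊢
        rcases not_and_or.1 h with h' | h'
        · push Not at h'
          have h3 : ((N * T : ℕ) : ℝ) < (((2 * N - 1) * k : ℕ) : ℝ) := by exact_mod_cast h'
          rw [Nat.cast_mul, Nat.cast_mul, Nat.cast_sub (by omega)] at h3
          push_cast at h3
          have := neg_le_abs ((T : ℝ) - 2 * k)
          rw [e0, div_le_iff₀ (by positivity)]
          have h4 : -((T : ℝ) - 2 * k) * N ≤ |(T : ℝ) - 2 * k| * N :=
            mul_le_mul_of_nonneg_right this (by positivity)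
          nlinarith
        · push Not at h'
          have h3 : (((2 * N + 1) * k : ℕ) : ℝ) < ((N * T : ℕ) : ℝ) := by exact_mod_cast h'
          push_cast at h3
          have := le_abs_self ((T : ℝ) - 2 * k)
          rw [e0, div_le_iff₀ (by positivity)]
          have h4 : ((T : ℝ) - 2 * k) * N ≤ |(T : ℝ) - 2 * k| * N :=
            mul_le_mul_of_nonneg_right this (by positivity)
          nlinarith
    have h2 := sum_le_sum_of_subset_of_nonneg hsub (f := wwt) (fun w _ _ => by unfold wwt; positivity)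
    have h3 : 0 ≤ ∑ x ∈ G
        ∩ ((FW (3 * k) k).filter fun w => η * k ≤ |(w.sum : ℝ) - 2 * k|), wwt x :=
      sum_nonneg fun w _ => by unfold wwt; positivity
    linarith
  have h2 := tail (3 * k) k (η := η) hη0 (by linarith)
  have h3 : 1 - (k : ℝ) * (1 / 2) ^ (3 * k) ≤ ∑ w ∈ FW (3 * k) k, wwt w := by
    rw [sum_wwt]
    have := one_add_mul_le_pow (a := -(1 / 2 : ℝ) ^ (3 * k)) (by
      have : (1 / 2 : ℝ) ^ (3 * k) ≤ 1 := pow_le_one₀ (by norm_num) (by norm_num)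
      linarith) k
    rw [← sub_eq_add_neg] at this
    linarith
  have h4 : (k : ℝ) * (1 / 2) ^ (3 * k) ≤ Real.exp (-(η ^ 2 * k / 32)) := by
    have e1 : (k : ℝ) ≤ 2 ^ k := by exact_mod_cast Nat.lt_two_pow_self.le
    have e2 : (1 / 2 : ℝ) ^ (3 * k) = (1 / 2) ^ k * ((1 / 4) ^ k) := by
      rw [← mul_pow, pow_mul]; norm_num
    have e3 : (k : ℝ) * (1 / 2) ^ (3 * k) ≤ (1 / 4) ^ k := by
      rw [e2, ← mul_assoc]
      have : (k : ℝ) * (1 / 2) ^ k ≤ 1 := by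
        rw [one_div, inv_pow, ← div_eq_mul_inv, div_le_one (by positivity)]; exact e1
      calc (k : ℝ) * (1 / 2) ^ k * (1 / 4) ^ k ≤ 1 * (1 / 4) ^ k :=
            mul_le_mul_of_nonneg_right this (by positivity)
        _ = _ := one_mul _
    refine e3.trans ?_
    rw [show (-(η ^ 2 * k / 32)) = k * (-(η ^ 2 / 32)) by ring, Real.exp_nat_mul]
    apply pow_le_pow_left₀ (by norm_num)
    have h5 := Real.add_one_le_exp (-(η ^ 2 / 32))
    have h6 : η ^ 2 ≤ 1 := by nlinarith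
    linarith
  linarith

/-- total error with spread `1/N` -/
noncomputable def ErrN (N : ℕ) (d : ℤ) (A : ℝ) (k m m' : ℕ) : ℝ :=
  Err d A k m m' + (1 - ∑ w ∈ GW (3 * k) k (Tlo N k) (Thi N k), wwt w)

theorem err_boundN (N : ℕ) (hN : 20 ≤ N) (B : ℕ) (d : ℤ) : ∃ C : ℝ, 0 < C ∧ ∀ A : ℝ, 0 < A →
    1000 ≤ Real.log A → ∀ k m m' : ℕ,
    (m : ℝ) ^ 2 ≤ Real.log A → k = ⌊Real.log A / 2⌋₊ → m' = ⌊Real.sqrt (0.8 * Real.log A)⌋₊ →
    ErrN N d A k m m' ≤ C / (Real.log A) ^ B := by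
  obtain ⟨C, hC, h⟩ := err_bound B d
  have hNR : (20 : ℝ) ≤ N := by exact_mod_cast hN
  set a : ℝ := 64 * (N : ℝ) ^ 2 with ha
  have ha0 : 0 < a := by positivity
  refine ⟨C + 4 * (B.factorial * a ^ B), by positivity, ?_⟩
  intro A hA ht k m m' hm hk hm'
  have h1 := h A hA ht k m m' hm hk hm'
  set t := Real.log A with htdef
  have htpos : 0 < t := by linarith
  have hk2 : t / 2 - 1 ≤ k := by rw [hk]; linarith [Nat.lt_floor_add_one (t / 2)]
  have h2 := mass_GWN N k hN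
  have h3 := exp_neg_le B ha0 htpos
  have h4 : 3 * Real.exp (-((1 / (N : ℝ)) ^ 2 * k / 32)) ≤ 4 * Real.exp (-(t / a)) := by
    have e1 : Real.exp (-((1 / (N : ℝ)) ^ 2 * k / 32)) ≤ Real.exp (1 / 12800) * Real.exp (-(t / a)) := by
      rw [← Real.exp_add]
      apply Real.exp_le_exp.2
      have e2 : (1 / (N : ℝ)) ^ 2 * k / 32 ≥ (1 / (N : ℝ)) ^ 2 * (t / 2 - 1) / 32 := by
        have : (1 / (N : ℝ)) ^ 2 * (t / 2 - 1) ≤ (1 / (N : ℝ)) ^ 2 * k :=
          mul_le_mul_of_nonneg_left hk2 (by positivity)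
        linarith
      have e3 : (1 / (N : ℝ)) ^ 2 * (t / 2 - 1) / 32 = t / a - (1 / (N : ℝ)) ^ 2 / 32 := by
        rw [ha]; field_simp; ring
      have e4 : (1 / (N : ℝ)) ^ 2 ≤ 1 / 400 := by
        rw [one_div, inv_pow, ← one_div]
        apply one_div_le_one_div_of_le (by norm_num)
        nlinarith
      linarith
    have e5 : Real.exp (1 / 12800) ≤ 4 / 3 := by
      have := Real.exp_bound_div_one_sub_of_interval (x := 1 / 12800) (by norm_num) (by norm_num)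
      refine this.trans (by norm_num)
    have e6 := Real.exp_pos (-(t / a))
    nlinarith
  unfold ErrN
  have h5 : (C + 4 * (B.factorial * a ^ B)) / t ^ B = C / t ^ B + 4 * ((B.factorial * a ^ B) / t ^ B) := by ring
  rw [h5]
  linarith

/-- ONE STAGE, size dependent targets -/
theorem stageG {N : ℕ} (hN : 20 ≤ N) {d : ℤ} (hd : Odd d) (hd3 : IsCoprime d 3) {S : Set ℤ}
    (S' : ℕ → Set ℤ) {A : ℝ} (hA : 0 < A) {k m m' : ℕ} (hk : 1 ≤ k) (hm' : m' ≤ k) {ρ : ℝ} (hρ : 0 ≤ ρ)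
    (hpath : ∀ w ∈ GW (3 * k) k (Tlo N k) (Thi N k), ∀ M x : ℤ, Odd M → Odd x → A ≤ (M : ℝ) →
      (M : ℝ) < 2 * A → M ∈ S → Vw d w M x → x ∈ S' w.sum)
    (h : ∀ T : ℕ, (2 * N - 1) * k ≤ N * T → N * T ≤ (2 * N + 1) * k → PB (S' T) (A * 3 ^ k / 2 ^ T) m' ρ) :
    PB S A m (ρ + ErrN N d A k m m') := by
  intro u v hu
  have hN0 : 0 < N := by omega
  obtain ⟨c, hc⟩ := cls_unit S A (2 * A) m hu v
  rw [hc]
  have hThi : Thi N k ≤ 41 * k / 20 := by
    rw [Nat.le_div_iff_mul_le (by norm_num), mul_comm]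
    have h1 : N * Thi N k ≤ (2 * N + 1) * k := (le_Thi_iff hN0).1 le_rfl
    by_contra hcon
    push Not at hcon
    have h2 : N * (41 * k + 1) ≤ N * (20 * Thi N k) := Nat.mul_le_mul_left _ hcon
    obtain ⟨a, rfl⟩ : ∃ a, N = a + 20 := ⟨N - 20, by omega⟩
    nlinarith
  have hTm : Thi N k ≤ k * (3 * k) := by
    refine hThi.trans ?_
    nlinarith [Nat.div_mul_le_self (41 * k) 20]
  have h1 := starG hd hd3 S' hA.le (3 * k) k m m' (Tlo N k) (Thi N k) hpath hk hm' hTm c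
  set G := GW (3 * k) k (Tlo N k) (Thi N k) with hG
  have h2 : ∑ w ∈ G, ((cls (S' w.sum) (A * 3 ^ k / 2 ^ w.sum) (2 * (A * 3 ^ k / 2 ^ w.sum)) m'
            (2 ^ w.sum) (d * Wo w)).card : ℝ) ≤ ∑ w ∈ G, ρ * (A * 3 ^ k / (2 * 3 ^ m')) * wwt w := by
    apply sum_le_sum
    intro w hw
    rw [hG, mem_GWN hN0] at hw
    have h3 := h w.sum hw.2.1 hw.2.2 (2 ^ w.sum) (d * Wo w) (cop_two_pow _)
    refine h3.trans (le_of_eq ?_)
    unfold wwt
    rw [one_div, inv_pow]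
    field_simp
  have hmass1 : ∑ w ∈ G, wwt w ≤ 1 := by
    refine le_trans ?_ (sum_wwt_le (3 * k) k)
    rw [hG]; unfold GW
    apply sum_le_sum_of_subset_of_nonneg (filter_subset _ _)
    intro w _ _; unfold wwt; positivity
  rw [← mul_sum] at h2
  have h4 : (∑ w ∈ G, ((cls (S' w.sum) (A * 3 ^ k / 2 ^ w.sum) (2 * (A * 3 ^ k / 2 ^ w.sum)) m'
            (2 ^ w.sum) (d * Wo w)).card : ℝ)) / 3 ^ (k + m - m') ≤ ρ * (A / (2 * 3 ^ m)) := by
    rw [div_le_iff₀ (by positivity)]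
    refine h2.trans ?_
    have h5 : ρ * (A * 3 ^ k / (2 * 3 ^ m')) * ∑ w ∈ G, wwt w ≤ ρ * (A * 3 ^ k / (2 * 3 ^ m')) * 1 :=
      mul_le_mul_of_nonneg_left hmass1 (by positivity)
    refine h5.trans (le_of_eq ?_)
    have h6 : (3 : ℝ) ^ (k + m - m') * 3 ^ m' = 3 ^ k * 3 ^ m := by
      rw [← pow_add, ← pow_add]; congr 1; omega
    have h7 : (3 : ℝ) ^ k = 3 ^ (k + m - m') * 3 ^ m' / 3 ^ m := by
      rw [h6]; field_simp
    rw [h7]
    field_simp
  refine h1.trans ?_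
  -- compare the errors
  unfold ErrN Err
  rw [← hG]
  set G0 := GW (3 * k) k ((39 * k + 19) / 20) (41 * k / 20) with hG0
  set δ := ∑ T ∈ range (k * (3 * k) + 1), dev (FWT (3 * k) k T) wwt (fun w => (Wo w : ℤ)) (k + m) m' with hδ
  have hδnn : 0 ≤ δ := sum_nonneg fun _ _ => sum_nonneg fun _ _ => abs_nonneg _
  have hX : (2 : ℝ) ^ Thi N k ≤ 2 ^ (41 * k / 20) := pow_le_pow_right₀ (by norm_num) hThi
  have hμ0 : ∑ w ∈ G0, wwt w ≤ 1 := by
    refine le_trans ?_ (sum_wwt_le (3 * k) k)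
    rw [hG0]; unfold GW
    apply sum_le_sum_of_subset_of_nonneg (filter_subset _ _)
    intro w _ _; unfold wwt; positivity
  set X := (2 : ℝ) ^ (41 * k / 20) with hXdef
  set X' := (2 : ℝ) ^ Thi N k with hX'def
  have hX'0 : 0 < X' := by positivity
  set Y := A / (2 * 3 ^ m) with hY
  have hY0 : 0 < Y := by positivity
  set Z := 2 * 3 ^ m / A with hZ
  have hfac : Y * Z = 1 := by rw [hY, hZ]; field_simp
  set μ0 := ∑ w ∈ G0, wwt w with hμ0def
  set μ := ∑ w ∈ G, wwt w with hμdef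
  have e1 : (ρ + (((1 + X * Z) * δ + (1 - μ0) + (1 + (|(d : ℝ)| + 2) * X) * Z) + (1 - μ))) * Y
      = ρ * Y + (Y + X * (Y * Z)) * δ + Y * (1 - μ0) + (1 + (|(d : ℝ)| + 2) * X) * (Y * Z) + Y * (1 - μ) := by ring
  rw [e1, hfac]
  have g1 : (Y + X') * δ ≤ (Y + X * 1) * δ := mul_le_mul_of_nonneg_right (by linarith) hδnn
  have g2 : 0 ≤ Y * (1 - μ0) := mul_nonneg hY0.le (by linarith)
  have g3 : (|(d : ℝ)| + 2) * X' ≤ (|(d : ℝ)| + 2) * X := mul_le_mul_of_nonneg_left hX (by positivity)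
  linarith

end Pool.Agent.H499R2.ND
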