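import Pool.Agent.H33.G.R_seed8.H499R2.NDStruct
import Pool.Agent.H33.G.R_seed8.H320R2.PDFinal

/-! Natural density: the merging classes of the Collatz map on the nonzero integers. -/

set_option autoImplicit false

namespace Pool.Agent.H499R2.ND

open Pool.Agent.H320R2.PD Finset Filter Topology

/-- the Collatz map on the integers -/
abbrev Ci : ℤ → ℤ := fun x : ℤ => if x % 2 = 0 then x / 2 else 3 * x + 1

/-- the merging class of `a` -/
def Kc (a : ℤ) : Set ℤ := {n : ℤ | ∃ i j : ℕ, Ci^[i] n = Ci^[j] a}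

theorem Kc_self (a : ℤ) : a ∈ Kc a := ⟨0, 0, rfl⟩

theorem Kc_symm {a n : ℤ} (h : n ∈ Kc a) : a ∈ Kc n := by
  obtain ⟨i, j, h⟩ := h; exact ⟨j, i, h.symm⟩

theorem Kc_trans {a b n : ℤ} (h : n ∈ Kc b) (h' : b ∈ Kc a) : n ∈ Kc a := by
  obtain ⟨i, j, h⟩ := h
  obtain ⟨k, l, h'⟩ := h'
  refine ⟨k + i, j + l, ?_⟩
  rw [Function.iterate_add_apply, h, ← Function.iterate_add_apply, add_comm k j,
    Function.iterate_add_apply, h', ← Function.iterate_add_apply]

theorem Kc_step (a x : ℤ) : x ∈ Kc a ↔ Ci x ∈ Kc a := by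
  constructor
  · rintro ⟨i, j, h⟩
    refine ⟨i, j + 1, ?_⟩
    rw [← Function.iterate_succ_apply, Function.iterate_succ_apply', h, ← Function.iterate_succ_apply' Ci]
  · rintro ⟨i, j, h⟩
    exact ⟨i + 1, j, by rw [Function.iterate_succ_apply]; exact h⟩

theorem Kc_iter (a x : ℤ) (k : ℕ) : x ∈ Kc a ↔ Ci^[k] x ∈ Kc a := by
  induction k generalizing x with
  | zero => simp
  | succ k ih => rw [Kc_step, ih, Function.iterate_succ_apply]

/-- one accelerated step is one or two steps -/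
theorem Td_Ci (x : ℤ) : Td 1 x = Ci x ∨ Td 1 x = Ci (Ci x) := by
  by_cases h : x % 2 = 0
  · left
    unfold Td; simp only [Ci]
    rw [if_pos h, if_pos h]
  · right
    unfold Td; simp only [Ci]
    rw [if_neg h, if_neg h, if_pos (by omega)]

theorem Td_iter_Ci (k : ℕ) (x : ℤ) : ∃ k', (Td 1)^[k] x = Ci^[k'] x := by
  induction k generalizing x with
  | zero => exact ⟨0, rfl⟩
  | succ k ih =>
    obtain ⟨k', hk'⟩ := ih (Td 1 x)
    rw [Function.iterate_succ_apply, hk']
    rcases Td_Ci x with h | h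
    · exact ⟨k' + 1, by rw [h, Function.iterate_succ_apply]⟩
    · exact ⟨k' + 2, by rw [h, Function.iterate_add_apply]; rfl⟩

theorem Kc_inv (a : ℤ) : Inv 1 (Kc a) := by
  intro x
  rcases Td_Ci x with h | h
  · rw [h, ← Kc_step]
  · rw [h, ← Kc_step, ← Kc_step]

/-- signs are preserved -/
theorem Ci_sign {s : ℤ} (hs : s = 1 ∨ s = -1) (x : ℤ) : 0 < s * x ↔ 0 < s * Ci x := by
  simp only [Ci]
  rcases hs with rfl | rfl
  · by_cases h : x % 2 = 0
    · rw [if_pos h]; omega
    · rw [if_neg h]; omega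
  · by_cases h : x % 2 = 0
    · rw [if_pos h]; omega
    · rw [if_neg h]; omega

theorem Ci_iter_sign {s : ℤ} (hs : s = 1 ∨ s = -1) (x : ℤ) (k : ℕ) : 0 < s * x ↔ 0 < s * Ci^[k] x := by
  induction k generalizing x with
  | zero => simp
  | succ k ih => rw [Ci_sign hs, ih, Function.iterate_succ_apply]

theorem Kc_sign {s : ℤ} (hs : s = 1 ∨ s = -1) {a n : ℤ} (h : n ∈ Kc a) : 0 < s * n ↔ 0 < s * a := by
  obtain ⟨i, j, h⟩ := h
  rw [Ci_iter_sign hs n i, Ci_iter_sign hs a j, h]

/-- the part of the class on the side `s`, reflected to the positive integers -/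
def Ks (s a : ℤ) : Set ℤ := {x : ℤ | s * x ∈ Kc a}

theorem Ks_inv {s : ℤ} (hs : s = 1 ∨ s = -1) (a : ℤ) : Inv s (Ks s a) := by
  rcases hs with rfl | rfl
  · have : Ks 1 a = Kc a := by ext x; simp [Ks]
    rw [this]; exact Kc_inv a
  · have h := (Kc_inv a).neg odd_one
    have : Ks (-1) a = {x | -x ∈ Kc a} := by ext x; simp [Ks]
    rw [this]; exact h

theorem Td_s {s : ℤ} (hs : s = 1 ∨ s = -1) (k : ℕ) (x : ℤ) : (Td s)^[k] x = s * (Td 1)^[k] (s * x) := by
  rcases hs with rfl | rfl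
  · simp
  · induction k generalizing x with
    | zero => simp
    | succ k ih =>
      rw [Function.iterate_succ_apply, Function.iterate_succ_apply, ih, Td_neg 1 x odd_one]
      congr 2
      ring_nf

/-- every nonzero trajectory contains a number prime to 3 -/
theorem exists_prime3 (n : ℕ) : ∀ a : ℤ, a ≠ 0 → a.natAbs ≤ n → ∃ k : ℕ, ¬ (3 : ℤ) ∣ Ci^[k] a := by
  induction n with
  | zero => intro a ha h; omega
  | succ n ih =>
    intro a ha h
    by_cases h3 : (3 : ℤ) ∣ a
    · by_cases h2 : a % 2 = 0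
      · obtain ⟨k, hk⟩ := ih (a / 2) (by omega) (by omega)
        refine ⟨k + 1, ?_⟩
        rw [Function.iterate_succ_apply]
        have : Ci a = a / 2 := by simp only [Ci]; rw [if_pos h2]
        rw [this]; exact hk
      · refine ⟨1, ?_⟩
        rw [Function.iterate_one]
        have : Ci a = 3 * a + 1 := by simp only [Ci]; rw [if_neg h2]
        rw [this]; omega
    · exact ⟨0, h3⟩

/-- limits along the naturals -/
theorem nat_limit {S : Set ℤ} {δ : ℝ} (h : Tendsto (fun X : ℝ => G S X / X) atTop (𝓝 δ)) :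
    Tendsto (fun N : ℕ => G S ((N : ℝ) + 1) / N) atTop (𝓝 δ) := by
  have h1 : Tendsto (fun N : ℕ => G S ((N : ℝ) + 1) / ((N : ℝ) + 1)) atTop (𝓝 δ) :=
    h.comp (tendsto_atTop_add_const_right _ 1 tendsto_natCast_atTop_atTop)
  have h2 : Tendsto (fun N : ℕ => ((N : ℝ) + 1) / N) atTop (𝓝 1) := by
    have h3 : Tendsto (fun N : ℕ => 1 + 1 / (N : ℝ)) atTop (𝓝 (1 + 0)) :=
      tendsto_const_nhds.add (tendsto_one_div_atTop_nhds_zero_nat)
    rw [add_zero] at h3
    refine h3.congr' ?_
    filter_upwards [eventually_gt_atTop 0] with N hN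
    have : (N : ℝ) ≠ 0 := by exact_mod_cast hN.ne'
    field_simp
  have h4 := h1.mul h2
  rw [mul_one] at h4
  refine h4.congr' ?_
  filter_upwards [eventually_gt_atTop 0] with N hN
  have : (N : ℝ) ≠ 0 := by exact_mod_cast hN.ne'
  have : (N : ℝ) + 1 ≠ 0 := by positivity
  field_simp

/-- counting on the side `s` -/
theorem ncard_side {s : ℤ} (hs : s = 1 ∨ s = -1) (S : Set ℤ) (N : ℕ) :
    ({n : ℤ | 0 < s * n ∧ s * n ≤ N ∧ n ∈ S}.ncard : ℝ) = G {x | s * x ∈ S} ((N : ℝ) + 1) := by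
  unfold G
  have hss : ∀ x : ℤ, s * (s * x) = x := by
    intro x; rcases hs with rfl | rfl <;> ring
  have himg : {n : ℤ | 0 < s * n ∧ s * n ≤ N ∧ n ∈ S}
      = (fun x : ℤ => s * x) '' (pos {x | s * x ∈ S} ((N : ℝ) + 1) : Set ℤ) := by
    ext n
    rw [Set.mem_image]
    constructor
    · rintro ⟨h1, h2, h3⟩
      refine ⟨s * n, ?_, hss n⟩
      rw [mem_coe, mem_pos]
      refine ⟨⟨by omega, ?_⟩, ?_⟩
      · have : ((s * n : ℤ) : ℝ) ≤ (N : ℝ) := by exact_mod_cast h2
        linarith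
      · change s * (s * n) ∈ S; rw [hss]; exact h3
    · rintro ⟨x, hx, rfl⟩
      rw [mem_coe, mem_pos] at hx
      refine ⟨?_, ?_, hx.2⟩
      · rw [hss]; omega
      · rw [hss]
        have h1 : (x : ℝ) < ((N + 1 : ℤ) : ℝ) := by push_cast; exact hx.1.2
        have h2 : x < N + 1 := by exact_mod_cast h1
        omega
  rw [himg, Set.ncard_image_of_injective, Set.ncard_coe_finset]
  intro x y hxy
  have := congrArg (fun z => s * z) hxy
  simp only [hss] at this
  exact this

/-- THE DENSITY OF A CLASS exists and is positive -/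
theorem class_density {s : ℤ} (hs : s = 1 ∨ s = -1) {a : ℤ} (ha : 0 < s * a) :
    ∃ δ : ℝ, 0 < δ ∧ Tendsto (fun X : ℝ => G (Ks s a) X / X) atTop (𝓝 δ) := by
  have hsodd : Odd s := by rcases hs with rfl | rfl <;> decide
  have hs3 : IsCoprime s 3 := by
    rcases hs with rfl | rfl
    · exact isCoprime_one_left
    · exact isCoprime_one_left.neg_left
  obtain ⟨δ, hδ⟩ := density_exists hsodd hs3 (Ks_inv hs a)
  refine ⟨δ, ?_, hδ⟩
  have ha0 : a ≠ 0 := by rintro rfl; simp at ha
  obtain ⟨k, hk⟩ := exists_prime3 _ a ha0 le_rfl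
  set a' := Ci^[k] a with ha'
  have ha's : 0 < s * a' := (Ci_iter_sign hs a k).1 ha
  obtain ⟨c, hc, X0, hX0⟩ := main_linear a' hk
  have hlow : ∀ X : ℝ, max X0 1 ≤ X → c / 2 ≤ G (Ks s a) (2 * X) / (2 * X) := by
    intro X hX
    have hX1 : 1 ≤ X := (le_max_right _ _).trans hX
    obtain ⟨S, hS, hcard⟩ := hX0 X ((le_max_left _ _).trans hX)
    rw [le_div_iff₀ (by linarith)]
    have hinj : (S.card : ℝ) ≤ G (Ks s a) (2 * X) := by
      unfold G
      have : S.card ≤ (pos (Ks s a) (2 * X)).card := by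
        apply card_le_card_of_injOn (fun z => s * z)
        · intro z hz
          obtain ⟨h1, h2, h3, j, hj⟩ := hS z hz
          have hzs : 0 < s * z := by
            rcases hs with rfl | rfl
            · have := h2 (by omega); omega
            · have := h3 (by omega); omega
          have hss : s * (s * z) = z := by rcases hs with rfl | rfl <;> ring
          rw [mem_coe, mem_pos]
          beta_reduce
          refine ⟨⟨by omega, ?_⟩, ?_⟩
          · have h4 : s * z = |z| := by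
              rcases hs with rfl | rfl
              · rw [abs_of_pos (by omega)]; ring
              · rw [abs_of_neg (by omega)]; ring
            rw [h4]
            linarith
          · change s * (s * z) ∈ Kc a
            rw [hss]
            have hj' : (Td 1)^[j] z = a' := hj
            obtain ⟨k', hk'⟩ := Td_iter_Ci j z
            rw [hk'] at hj'
            exact ⟨k', k, hj'⟩
        · intro z _ z' _ h
          simp only at h
          rcases hs with rfl | rfl <;> omega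
      exact_mod_cast this
    linarith
  have hge : c / 2 ≤ δ := by
    apply ge_of_tendsto (hδ.comp (tendsto_id.const_mul_atTop (by norm_num : (0 : ℝ) < 2)))
    filter_upwards [eventually_ge_atTop (max X0 1)] with X hX
    exact hlow X hX
  linarith

/-- STRUCTURE THEOREM for the Collatz map on the nonzero integers of sign `s` -/
theorem structure_thm {s : ℤ} (hs : s = 1 ∨ s = -1) : ∃ δ : ℤ → ℝ,
    (∀ a : ℤ, 0 < s * a → 0 < δ a ∧
      Tendsto (fun N : ℕ => ({n : ℤ | 0 < s * n ∧ s * n ≤ N ∧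
        ∃ i j : ℕ, Ci^[i] n = Ci^[j] a}.ncard : ℝ) / N) atTop (𝓝 (δ a))) ∧
    HasSum (fun a : {a : ℤ // 0 < s * a ∧ ∀ b : ℤ, 0 < s * b →
      (∃ i j : ℕ, Ci^[i] a = Ci^[j] b) → s * a ≤ s * b} => δ a) 1 := by
  have hsodd : Odd s := by rcases hs with rfl | rfl <;> decide
  have hs3 : IsCoprime s 3 := by
    rcases hs with rfl | rfl
    · exact isCoprime_one_left
    · exact isCoprime_one_left.neg_left
  have hss : ∀ x : ℤ, s * (s * x) = x := by
    intro x; rcases hs with rfl | rfl <;> ring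
  have hex : ∀ a : ℤ, ∃ δ : ℝ, 0 < s * a → 0 < δ ∧ Tendsto (fun X : ℝ => G (Ks s a) X / X) atTop (𝓝 δ) := by
    intro a
    by_cases ha : 0 < s * a
    · obtain ⟨δ, h⟩ := class_density hs ha; exact ⟨δ, fun _ => h⟩
    · exact ⟨0, fun h => (ha h).elim⟩
  choose δ hδ using hex
  refine ⟨δ, fun a ha => ⟨(hδ a ha).1, ?_⟩, ?_⟩
  · refine (nat_limit (hδ a ha).2).congr fun N => ?_
    have e := ncard_side hs (Kc a) N
    change G (Ks s a) ((N : ℝ) + 1) / N = ({n : ℤ | 0 < s * n ∧ s * n ≤ N ∧ n ∈ Kc a}.ncard : ℝ) / N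
    rw [e]
    rfl
  · refine sum_one (ι := {a : ℤ // 0 < s * a ∧ ∀ b : ℤ, 0 < s * b →
      (∃ i j : ℕ, Ci^[i] a = Ci^[j] b) → s * a ≤ s * b}) hsodd hs3 (fun a => Ks s a.1) _ ?_ ?_ ?_
    · intro a; exact (hδ a.1 a.2.1).2
    · intro a b hab
      rw [Set.disjoint_left]
      intro x hx hx'
      apply hab
      have h1 : s * x ∈ Kc a.1 := hx
      have h2 : s * x ∈ Kc b.1 := hx'
      have h3 : a.1 ∈ Kc b.1 := Kc_trans (Kc_symm h1) h2
      have h4 := a.2.2 b.1 b.2.1 h3
      have h5 := b.2.2 a.1 a.2.1 (Kc_symm h3)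
      apply Subtype.ext
      rcases hs with rfl | rfl <;> omega
    · intro y
      classical
      -- representatives up to `y`
      have hfin : {a : {a : ℤ // 0 < s * a ∧ ∀ b : ℤ, 0 < s * b →
          (∃ i j : ℕ, Ci^[i] a = Ci^[j] b) → s * a ≤ s * b} | ((s * a.1 : ℤ) : ℝ) ≤ y}.Finite := by
        apply Set.Finite.of_finite_image (f := fun a => s * a.1)
        · apply (Set.finite_Icc (0 : ℤ) ⌊y⌋).subset
          rintro _ ⟨a, ha, rfl⟩
          exact ⟨a.2.1.le, Int.le_floor.2 ha⟩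
        · intro a _ b _ h
          simp only at h
          apply Subtype.ext
          rcases hs with rfl | rfl <;> omega
      refine ⟨hfin.toFinset, fun n hn hA k => ?_⟩
      by_contra hcon
      push Not at hcon
      rw [Td_s hs] at hcon
      obtain ⟨k', hk'⟩ := Td_iter_Ci k (s * n)
      rw [hk'] at hcon
      set m := Ci^[k'] (s * n) with hm
      have hmK : m ∈ Kc (s * n) := (Kc_iter _ _ k').1 (Kc_self _)
      have hms : 0 < s * m := (Kc_sign hs hmK).2 (by rw [hss]; exact hn)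
      -- the least representative of the class
      have hexN : ∃ j : ℕ, ∃ b : ℤ, 0 < s * b ∧ b ∈ Kc m ∧ s * b = j :=
        ⟨(s * m).toNat, m, hms, Kc_self m, (Int.toNat_of_nonneg hms.le).symm⟩
      obtain ⟨b, hb1, hb2, hb3⟩ := Nat.find_spec hexN
      have hbmin : ∀ b' : ℤ, 0 < s * b' → b' ∈ Kc m → s * b ≤ s * b' := by
        intro b' h1 h2
        have := Nat.find_min' hexN ⟨b', h1, h2, (Int.toNat_of_nonneg h1.le).symm⟩
        rw [hb3]
        have h3 : ((s * b').toNat : ℤ) = s * b' := Int.toNat_of_nonneg h1.le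
        rw [← h3]; exact_mod_cast this
      have hbR : 0 < s * b ∧ ∀ b' : ℤ, 0 < s * b' → (∃ i j : ℕ, Ci^[i] b = Ci^[j] b') → s * b ≤ s * b' := by
        refine ⟨hb1, fun b' h1 h2 => hbmin b' h1 ?_⟩
        have : b ∈ Kc b' := h2
        exact Kc_trans (Kc_symm this) hb2
      have hby : ((s * b : ℤ) : ℝ) ≤ y := by
        have h1 : s * b ≤ s * m := hbmin m hms (Kc_self m)
        have h2 : ((s * b : ℤ) : ℝ) ≤ ((s * m : ℤ) : ℝ) := by exact_mod_cast h1
        refine h2.trans (le_trans (le_abs_self _) ?_)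
        exact hcon
      have hin : (⟨b, hbR⟩ : {a : ℤ // 0 < s * a ∧ ∀ b : ℤ, 0 < s * b →
          (∃ i j : ℕ, Ci^[i] a = Ci^[j] b) → s * a ≤ s * b}) ∈ hfin.toFinset := by
        rw [Set.Finite.mem_toFinset]; exact hby
      apply hA _ hin
      change s * n ∈ Kc b
      exact Kc_trans (Kc_symm hmK) (Kc_symm hb2)

end Pool.Agent.H499R2.ND
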