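import Mathlib

/-! Bounded functions that are approximately harmonic for the steps `-log 2`, `log (3/2)` converge. -/

set_option autoImplicit false

namespace Pool.Agent.H499R2.HL

open MeasureTheory Filter Topology


theorem a_pos : 0 < (Real.log 2) := Real.log_pos (by norm_num)
theorem b_pos : 0 < (Real.log (3 / 2)) := Real.log_pos (by norm_num)
theorem b_lt_a : (Real.log (3 / 2)) < (Real.log 2) := Real.log_lt_log (by norm_num) (by norm_num)
theorem a_lt_one : (Real.log 2) < 1 := by linarith [Real.log_two_lt_d9]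
theorem b_lt_one : (Real.log (3 / 2)) < 1 := b_lt_a.trans a_lt_one

/-- small nonzero combinations -/
theorem small_comb (δ : ℝ) (hδ : 0 < δ) : ∃ i j : ℕ, |-(i : ℝ) * (Real.log 2) + j * (Real.log (3 / 2))| < δ ∧ -(i : ℝ) * (Real.log 2) + j * (Real.log (3 / 2)) ≠ 0 := by
  have ha := a_pos
  have hb := b_pos
  obtain ⟨n, hn⟩ := exists_nat_gt ((Real.log (3 / 2)) / δ)
  have hn0 : 0 < n + 1 := Nat.succ_pos n
  obtain ⟨j, k, hk, _, hjk⟩ := Real.exists_int_int_abs_mul_sub_le ((Real.log 2) / (Real.log (3 / 2))) hn0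
  have hle : |(k : ℝ) * (Real.log 2) - j * (Real.log (3 / 2))| ≤ (Real.log (3 / 2)) / ((n : ℝ) + 1 + 1) := by
    have e : (k : ℝ) * (Real.log 2) - j * (Real.log (3 / 2)) = (k * ((Real.log 2) / (Real.log (3 / 2))) - j) * (Real.log (3 / 2)) := by field_simp
    rw [e, abs_mul, abs_of_pos hb]
    have h7 : |(k : ℝ) * ((Real.log 2) / (Real.log (3 / 2))) - j| ≤ 1 / ((n : ℝ) + 1 + 1) := by
      have := hjk
      push_cast at this
      exact this
    calc |(k : ℝ) * ((Real.log 2) / (Real.log (3 / 2))) - j| * (Real.log (3 / 2)) ≤ (1 / ((n : ℝ) + 1 + 1)) * (Real.log (3 / 2)) :=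
          mul_le_mul_of_nonneg_right h7 hb.le
      _ = _ := by ring
  have hlt : |(k : ℝ) * (Real.log 2) - j * (Real.log (3 / 2))| < δ := by
    refine lt_of_le_of_lt hle ?_
    rw [div_lt_iff₀ (by positivity)]
    rw [div_lt_iff₀ hδ] at hn
    nlinarith
  have hj : 0 < j := by
    by_contra hcon
    push Not at hcon
    have h1 : (j : ℝ) ≤ 0 := by exact_mod_cast hcon
    have h2 : (1 : ℝ) ≤ k := by exact_mod_cast hk
    have h3 : (Real.log (3 / 2)) ≤ (k : ℝ) * (Real.log 2) - j * (Real.log (3 / 2)) := by nlinarith [b_lt_a]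
    have h4 := le_abs_self ((k : ℝ) * (Real.log 2) - j * (Real.log (3 / 2)))
    have h5 : (Real.log (3 / 2)) / ((n : ℝ) + 1 + 1) < (Real.log (3 / 2)) := by
      rw [div_lt_iff₀ (by positivity)]
      nlinarith [(Nat.cast_nonneg n : (0 : ℝ) ≤ n)]
    linarith
  obtain ⟨i, rfl⟩ : ∃ i : ℕ, k = i := ⟨k.toNat, (Int.toNat_of_nonneg hk.le).symm⟩
  obtain ⟨j', rfl⟩ : ∃ j' : ℕ, j = j' := ⟨j.toNat, (Int.toNat_of_nonneg hj.le).symm⟩
  refine ⟨i, j', ?_, ?_⟩
  · rw [show -(i : ℝ) * (Real.log 2) + j' * (Real.log (3 / 2)) = -(((i : ℤ) : ℝ) * (Real.log 2) - ((j' : ℤ) : ℝ) * (Real.log (3 / 2))) by push_cast; ring, abs_neg]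
    exact hlt
  · intro h
    have hj0 : 0 < j' := by exact_mod_cast hj
    have hb' : (Real.log (3 / 2)) = Real.log 3 - (Real.log 2) := Real.log_div (by norm_num) (by norm_num)
    have h1 : (j' : ℝ) * Real.log 3 = ((i + j' : ℕ) : ℝ) * (Real.log 2) := by
      push_cast
      rw [hb'] at h
      linarith
    have h2 : Real.log ((3 : ℝ) ^ j') = Real.log ((2 : ℝ) ^ (i + j')) := by
      rw [Real.log_pow, Real.log_pow]; exact h1
    have h3 : (3 : ℝ) ^ j' = 2 ^ (i + j') :=
      Real.log_injOn_pos (Set.mem_Ioi.2 (by positivity)) (Set.mem_Ioi.2 (by positivity)) h2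
    have h4 : 3 ^ j' = 2 ^ (i + j') := by exact_mod_cast h3
    have h5 : Even (3 ^ j') := by
      rw [h4]; exact (Nat.even_pow.2 ⟨even_two, by omega⟩)
    have h6 : Odd (3 ^ j') := Odd.pow (by decide)
    exact (Nat.not_even_iff_odd.2 h6) h5

/-- the combinations are `δ`-dense in `[-(Real.log 2), (Real.log (3 / 2))]` -/
theorem net (δ : ℝ) (hδ : 0 < δ) : ∃ n : ℕ, ∀ u : ℝ, -(Real.log 2) ≤ u → u ≤ (Real.log (3 / 2)) →
    ∃ i j : ℕ, i + j ≤ n ∧ |u - (-(i : ℝ) * (Real.log 2) + j * (Real.log (3 / 2)))| ≤ δ := by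
  have ha := a_pos
  have hb := b_pos
  obtain ⟨i, j, hlt, hne⟩ := small_comb δ hδ
  set θ := -(i : ℝ) * (Real.log 2) + j * (Real.log (3 / 2)) with hθ
  have hθpos : 0 < |θ| := abs_pos.2 hne
  obtain ⟨K, hK⟩ := exists_nat_gt (((Real.log 2) + (Real.log (3 / 2))) / |θ|)
  have hK' : ((Real.log 2) + (Real.log (3 / 2))) < K * |θ| := by rwa [div_lt_iff₀ hθpos] at hK
  refine ⟨K * (i + j) + 1, fun u hu1 hu2 => ?_⟩
  rcases lt_or_gt_of_ne hne with hneg | hposi
  · -- θ < 0, start from (Real.log (3 / 2))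
    have habs : |θ| = -θ := abs_of_neg hneg
    set k := ⌊((Real.log (3 / 2)) - u) / |θ|⌋₊ with hk
    have hnn : 0 ≤ ((Real.log (3 / 2)) - u) / |θ| := div_nonneg (by linarith) hθpos.le
    have hk1 : (k : ℝ) * |θ| ≤ (Real.log (3 / 2)) - u := by
      have := Nat.floor_le hnn
      rwa [le_div_iff₀ hθpos] at this
    have hk2 : (Real.log (3 / 2)) - u < ((k : ℝ) + 1) * |θ| := by
      have := Nat.lt_floor_add_one (((Real.log (3 / 2)) - u) / |θ|)
      rwa [div_lt_iff₀ hθpos] at this
    have hkK : k ≤ K := by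
      have : (k : ℝ) * |θ| ≤ K * |θ| := by linarith
      have := le_of_mul_le_mul_right this hθpos
      exact_mod_cast this
    refine ⟨k * i, k * j + 1, ?_, ?_⟩
    · have : k * (i + j) ≤ K * (i + j) := Nat.mul_le_mul_right _ hkK
      have e : k * i + (k * j + 1) = k * (i + j) + 1 := by ring
      omega
    · have e : u - (-((k * i : ℕ) : ℝ) * (Real.log 2) + ((k * j + 1 : ℕ) : ℝ) * (Real.log (3 / 2))) = -((Real.log (3 / 2)) - u - k * |θ|) := by
        rw [habs, hθ]; push_cast; ring
      rw [e, abs_neg, abs_of_nonneg (by linarith)]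
      linarith
  · have habs : |θ| = θ := abs_of_pos hposi
    set k := ⌊(u + (Real.log 2)) / |θ|⌋₊ with hk
    have hnn : 0 ≤ (u + (Real.log 2)) / |θ| := div_nonneg (by linarith) hθpos.le
    have hk1 : (k : ℝ) * |θ| ≤ u + (Real.log 2) := by
      have := Nat.floor_le hnn
      rwa [le_div_iff₀ hθpos] at this
    have hk2 : u + (Real.log 2) < ((k : ℝ) + 1) * |θ| := by
      have := Nat.lt_floor_add_one ((u + (Real.log 2)) / |θ|)
      rwa [div_lt_iff₀ hθpos] at this
    have hkK : k ≤ K := by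
      have : (k : ℝ) * |θ| ≤ K * |θ| := by linarith
      have := le_of_mul_le_mul_right this hθpos
      exact_mod_cast this
    refine ⟨k * i + 1, k * j, ?_, ?_⟩
    · have : k * (i + j) ≤ K * (i + j) := Nat.mul_le_mul_right _ hkK
      have e : k * i + 1 + k * j = k * (i + j) + 1 := by ring
      omega
    · have e : u - (-((k * i + 1 : ℕ) : ℝ) * (Real.log 2) + ((k * j : ℕ) : ℝ) * (Real.log (3 / 2))) = u + (Real.log 2) - k * |θ| := by
        rw [habs, hθ]; push_cast; ring
      rw [e, abs_of_nonneg (by linarith)]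
      linarith

variable {F : ℝ → ℝ} {L C t0 : ℝ}

/-- near the upper limit the value propagates backwards along the steps -/
theorem propagate {M : ℝ} (hM : ∀ δ, 0 < δ → ∀ᶠ t in atTop, F t < M + δ)
    (hh : ∀ t, t0 ≤ t → |F t - (F (t - (Real.log 2)) + F (t + (Real.log (3 / 2)))) / 2| ≤ C / t ^ 2) (hC : 0 ≤ C) :
    ∀ n : ℕ, ∀ ε : ℝ, 0 < ε → ∃ δ : ℝ, 0 < δ ∧ ∃ T : ℝ, ∀ t : ℝ, T ≤ t → M - δ < F t →
      ∀ i j : ℕ, i + j ≤ n → M - ε < F (t + (-(i : ℝ) * (Real.log 2) + j * (Real.log (3 / 2)))) := by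
  have ha := a_pos
  have hb := b_pos
  intro n
  induction n with
  | zero =>
    intro ε hε
    refine ⟨ε, hε, 0, fun t _ hF i j hij => ?_⟩
    have h1 : i = 0 := by omega
    have h2 : j = 0 := by omega
    subst h1 h2
    simpa using hF
  | succ n ih =>
    intro ε hε
    obtain ⟨δ', hδ', T', h'⟩ := ih ε hε
    set δ := min (δ' / 4) ε with hδdef
    have hδ : 0 < δ := by positivity
    obtain ⟨T1, hT1⟩ := (eventually_atTop.1 (hM δ hδ))
    set T2 := max (max (T' + 1) (T1 + 1)) (max t0 (2 * C / δ + 1)) with hT2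
    refine ⟨δ, hδ, T2, fun t ht hF i j hij => ?_⟩
    have e1 : T' + 1 ≤ t := (le_max_left _ _).trans ((le_max_left _ _).trans ht)
    have e2 : T1 + 1 ≤ t := (le_max_right _ _).trans ((le_max_left _ _).trans ht)
    have e3 : t0 ≤ t := (le_max_left _ _).trans ((le_max_right _ _).trans ht)
    have e4 : 2 * C / δ + 1 ≤ t := (le_max_right _ _).trans ((le_max_right _ _).trans ht)
    have ht1 : 1 ≤ t := by
      have : 0 ≤ 2 * C / δ := by positivity
      linarith
    have hCt : C / t ^ 2 ≤ δ / 2 := by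
      rw [div_le_iff₀ (by positivity)]
      have h5 : 2 * C ≤ δ * t := by
        have : 2 * C / δ ≤ t := by linarith
        rw [div_le_iff₀ hδ] at this; linarith
      have : t ≤ t ^ 2 := by nlinarith
      nlinarith
    have hh1 := hh t e3
    rw [abs_le] at hh1
    have hu1 := hT1 (t - (Real.log 2)) (by linarith [a_lt_one])
    have hu2 := hT1 (t + (Real.log (3 / 2))) (by linarith)
    have hδ4 : δ ≤ δ' / 4 := min_le_left _ _
    have hv1 : M - δ' < F (t - (Real.log 2)) := by linarith
    have hv2 : M - δ' < F (t + (Real.log (3 / 2))) := by linarith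
    rcases Nat.eq_zero_or_pos i with hi | hi
    · rcases Nat.eq_zero_or_pos j with hj | hj
      · subst hi hj
        simp only [Nat.cast_zero, neg_zero, zero_mul, add_zero]
        have : δ ≤ ε := min_le_right _ _
        linarith
      · have := h' (t + (Real.log (3 / 2))) (by linarith) hv2 i (j - 1) (by omega)
        rw [Nat.cast_sub (by omega)] at this
        convert this using 2
        push_cast; ring
    · have := h' (t - (Real.log 2)) (by linarith [a_lt_one]) hv1 (i - 1) j (by omega)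
      rw [Nat.cast_sub (by omega)] at this
      convert this using 2
      push_cast; ring

/-- the conserved quantity -/
noncomputable def II (F : ℝ → ℝ) (t : ℝ) : ℝ := (∫ u in (t - (Real.log 2))..t, F u) - ∫ u in t..(t + (Real.log (3 / 2))), F u

theorem intble (hF : Measurable F) (h0 : ∀ t, 0 ≤ F t) (h1 : ∀ t, F t ≤ 1) (a b : ℝ) :
    IntervalIntegrable F volume a b := by
  rw [intervalIntegrable_iff]
  apply Measure.integrableOn_of_bounded (M := 1)
  · simp [Set.uIoc, Real.volume_Ioc]
  · exact hF.aestronglyMeasurable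
  · filter_upwards with x
    rw [Real.norm_eq_abs, abs_of_nonneg (h0 x)]; exact h1 x

theorem II_diff (hF : Measurable F) (h0 : ∀ t, 0 ≤ F t) (h1 : ∀ t, F t ≤ 1) (t t' : ℝ) :
    II F t' - II F t = ∫ u in t..t', (2 * F u - F (u - (Real.log 2)) - F (u + (Real.log (3 / 2)))) := by
  have hi := intble hF h0 h1
  have i1 : IntervalIntegrable (fun u => F (u - (Real.log 2))) volume t t' := by
    have := (hi (t - (Real.log 2)) (t' - (Real.log 2))).comp_sub_right (Real.log 2)
    simpa using this
  have i2 : IntervalIntegrable (fun u => F (u + (Real.log (3 / 2)))) volume t t' := by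
    have := (hi (t + (Real.log (3 / 2))) (t' + (Real.log (3 / 2)))).comp_add_right (Real.log (3 / 2))
    simpa using this
  have e : ∫ u in t..t', (2 * F u - F (u - (Real.log 2)) - F (u + (Real.log (3 / 2))))
      = 2 * (∫ u in t..t', F u) - (∫ u in (t - (Real.log 2))..(t' - (Real.log 2)), F u) - ∫ u in (t + (Real.log (3 / 2)))..(t' + (Real.log (3 / 2))), F u := by
    rw [intervalIntegral.integral_sub (((hi t t').const_mul 2).sub i1) i2,
      intervalIntegral.integral_sub ((hi t t').const_mul 2) i1, intervalIntegral.integral_const_mul,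
      intervalIntegral.integral_comp_sub_right, intervalIntegral.integral_comp_add_right]
  rw [e]
  unfold II
  have a1 := intervalIntegral.integral_add_adjacent_intervals (hi (t - (Real.log 2)) t) (hi t t')
  have a2 := intervalIntegral.integral_add_adjacent_intervals (hi (t - (Real.log 2)) (t' - (Real.log 2))) (hi (t' - (Real.log 2)) t')
  have a3 := intervalIntegral.integral_add_adjacent_intervals (hi t (t + (Real.log (3 / 2)))) (hi (t + (Real.log (3 / 2))) (t' + (Real.log (3 / 2))))
  have a4 := intervalIntegral.integral_add_adjacent_intervals (hi t t') (hi t' (t' + (Real.log (3 / 2))))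
  linarith

theorem II_cauchy (hF : Measurable F) (h0 : ∀ t, 0 ≤ F t) (h1 : ∀ t, F t ≤ 1)
    (hh : ∀ t, t0 ≤ t → |F t - (F (t - (Real.log 2)) + F (t + (Real.log (3 / 2)))) / 2| ≤ C / t ^ 2) (hC : 0 ≤ C)
    {t t' : ℝ} (ht0 : t0 ≤ t) (ht : 0 < t) (htt : t ≤ t') : |II F t' - II F t| ≤ 2 * C / t := by
  rw [II_diff hF h0 h1]
  have hbound : ∀ u ∈ Set.uIoc t t', ‖2 * F u - F (u - (Real.log 2)) - F (u + (Real.log (3 / 2)))‖ ≤ 2 * C * u ^ (-2 : ℤ) := by
    intro u hu
    rw [Set.uIoc_of_le htt] at hu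
    have hupos : 0 < u := lt_trans ht hu.1
    have := hh u (by linarith [hu.1])
    rw [Real.norm_eq_abs, show 2 * F u - F (u - (Real.log 2)) - F (u + (Real.log (3 / 2)))
      = 2 * (F u - (F (u - (Real.log 2)) + F (u + (Real.log (3 / 2)))) / 2) by ring, abs_mul, abs_of_pos (by norm_num : (0 : ℝ) < 2)]
    have e : u ^ (-2 : ℤ) = 1 / u ^ 2 := by
      rw [zpow_neg, one_div]; norm_cast
    rw [e]
    calc 2 * |F u - (F (u - (Real.log 2)) + F (u + (Real.log (3 / 2)))) / 2| ≤ 2 * (C / u ^ 2) := by linarith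
      _ = _ := by ring
  have h0not : (0 : ℝ) ∉ Set.uIcc t t' := by
    rw [Set.uIcc_of_le htt]
    intro h; linarith [h.1]
  have hint : IntervalIntegrable (fun u : ℝ => 2 * C * u ^ (-2 : ℤ)) volume t t' :=
    (intervalIntegral.intervalIntegrable_zpow (Or.inr h0not)).const_mul (2 * C)
  have := intervalIntegral.norm_integral_le_of_norm_le htt
    (Filter.Eventually.of_forall fun u hu => hbound u (by rw [Set.uIoc_of_le htt]; exact hu)) hint
  rw [Real.norm_eq_abs] at this
  refine this.trans ?_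
  rw [intervalIntegral.integral_const_mul, integral_zpow (Or.inr ⟨by norm_num, h0not⟩)]
  have ht' : 0 < t' := lt_of_lt_of_le ht htt
  have e0 : (-2 : ℤ) + 1 = -1 := by norm_num
  have e1 : (t' ^ (-1 : ℤ) : ℝ) = 1 / t' := by rw [zpow_neg_one, one_div]
  have e2 : (t ^ (-1 : ℤ) : ℝ) = 1 / t := by rw [zpow_neg_one, one_div]
  have p : 0 < 1 / t' := by positivity
  rw [e0, e1, e2]
  have e3 : 2 * C * ((1 / t' - 1 / t) / (((-2 : ℤ) : ℝ) + 1)) = 2 * C / t - 2 * C * (1 / t') := by
    push_cast; ring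
  rw [e3]
  have := mul_nonneg (by linarith : (0 : ℝ) ≤ 2 * C) p.le
  linarith


/-- at suitable large times the conserved quantity is close to `log(4/3)` times the upper limit -/
theorem II_close (hF : Measurable F) (h0 : ∀ t, 0 ≤ F t) (h1 : ∀ t, F t ≤ 1) (hL0 : 0 ≤ L) (hC : 0 ≤ C)
    (hL : ∀ t s, t0 ≤ t → 0 ≤ s → s ≤ 1 → |F (t + s) - F t| ≤ L * (s + Real.exp (-t)))
    (hh : ∀ t, t0 ≤ t → |F t - (F (t - (Real.log 2)) + F (t + (Real.log (3 / 2)))) / 2| ≤ C / t ^ 2) {M : ℝ}
    (hM : ∀ δ, 0 < δ → ∀ᶠ t in atTop, F t < M + δ)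
    (hM' : ∀ δ, 0 < δ → ∃ᶠ t in atTop, M - δ < F t) (ε : ℝ) (hε : 0 < ε) (T : ℝ) :
    ∃ t, T ≤ t ∧ |II F t - ((Real.log 2) - (Real.log (3 / 2))) * M| ≤ ε := by
  have ha := a_pos
  have hb := b_pos
  have hba := b_lt_a
  have ha1 := a_lt_one
  -- mesh
  obtain ⟨η, hη, hη1, hηε⟩ : ∃ η : ℝ, 0 < η ∧ η ≤ 1 ∧ 2 * L * η ≤ ε / 16 := by
    refine ⟨min 1 (ε / (32 * (L + 1))), by positivity, min_le_left _ _, ?_⟩
    have h2 : min 1 (ε / (32 * (L + 1))) ≤ ε / (32 * (L + 1)) := min_le_right _ _
    calc 2 * L * min 1 (ε / (32 * (L + 1))) ≤ 2 * (L + 1) * (ε / (32 * (L + 1))) := by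
          apply mul_le_mul (by linarith) h2 (by positivity) (by positivity)
      _ = ε / 16 := by field_simp; ring
  obtain ⟨n, hn⟩ := net η hη
  obtain ⟨δ, hδ, T1, hprop⟩ := propagate hM hh hC n (ε / 16) (by positivity)
  obtain ⟨T2, hT2⟩ := eventually_atTop.1 (hM (ε / 4) (by positivity))
  -- exponential term
  obtain ⟨T3, hT3⟩ : ∃ T3 : ℝ, ∀ t, T3 ≤ t → L * Real.exp (-t) ≤ ε / 32 := by
    refine ⟨32 * L / ε, fun t ht => ?_⟩
    have h2 : t + 1 ≤ Real.exp t := Real.add_one_le_exp t
    have ht0 : 0 ≤ t := le_trans (by positivity) ht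
    rw [Real.exp_neg, ← div_eq_mul_inv, div_le_iff₀ (Real.exp_pos t)]
    rw [div_le_iff₀ hε] at ht
    nlinarith
  have hfreq := (hM' δ hδ).and_eventually (eventually_ge_atTop
    (max (max T (T1 + 1)) (max (T2 + 1) (max (T3 + 3) (t0 + 3)))))
  obtain ⟨t, htF, htT⟩ := hfreq.exists
  have e1 : T ≤ t := (le_max_left _ _).trans ((le_max_left _ _).trans htT)
  have e2 : T1 + 1 ≤ t := (le_max_right _ _).trans ((le_max_left _ _).trans htT)
  have e3 : T2 + 1 ≤ t := (le_max_left _ _).trans ((le_max_right _ _).trans htT)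
  have e4 : T3 + 3 ≤ t := (le_max_left _ _).trans ((le_max_right _ _).trans ((le_max_right _ _).trans htT))
  have e5 : t0 + 3 ≤ t := (le_max_right _ _).trans ((le_max_right _ _).trans ((le_max_right _ _).trans htT))
  refine ⟨t, e1, ?_⟩
  -- pointwise closeness on the window
  have hclose : ∀ u, t - (Real.log 2) ≤ u → u ≤ t + (Real.log (3 / 2)) → |F u - M| ≤ ε / 4 := by
    intro u hu1 hu2
    obtain ⟨i, j, hij, hd⟩ := hn (u - t) (by linarith) (by linarith)
    set p := t + (-(i : ℝ) * (Real.log 2) + j * (Real.log (3 / 2))) with hp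
    have hpF : M - ε / 16 < F p := hprop t (by linarith) htF i j hij
    have hd' : |u - p| ≤ η := by
      rw [hp, show u - (t + (-(i : ℝ) * (Real.log 2) + j * (Real.log (3 / 2)))) = u - t - (-(i : ℝ) * (Real.log 2) + j * (Real.log (3 / 2))) by ring]; exact hd
    have hFup : |F u - F p| ≤ ε / 8 := by
      rcases le_total p u with h | h
      · have h2 := hL p (u - p) (by
          rw [abs_le] at hd'; linarith) (by linarith) (by rw [abs_le] at hd'; linarith)
        rw [show p + (u - p) = u by ring] at h2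
        have h3 := hT3 p (by rw [abs_le] at hd'; linarith)
        have h4 : L * (u - p) ≤ L * η := by
          apply mul_le_mul_of_nonneg_left _ hL0
          rw [abs_le] at hd'; linarith
        refine h2.trans ?_
        rw [mul_add]
        have : 0 ≤ L * η := by positivity
        nlinarith
      · have h2 := hL u (p - u) (by linarith) (by linarith) (by rw [abs_le] at hd'; linarith)
        rw [show u + (p - u) = p by ring] at h2
        have h3 := hT3 u (by linarith)
        have h4 : L * (p - u) ≤ L * η := by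
          apply mul_le_mul_of_nonneg_left _ hL0
          rw [abs_le] at hd'; linarith
        rw [abs_sub_comm]
        refine h2.trans ?_
        rw [mul_add]
        have : 0 ≤ L * η := by positivity
        nlinarith
    have hup := hT2 u (by linarith)
    rw [abs_le] at hFup ⊢
    constructor <;> linarith
  have hi := intble hF h0 h1
  have c1 : |(∫ u in (t - (Real.log 2))..t, F u) - (Real.log 2) * M| ≤ ε / 4 * (Real.log 2) := by
    have e : (∫ u in (t - (Real.log 2))..t, F u) - (Real.log 2) * M = ∫ u in (t - (Real.log 2))..t, (F u - M) := by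
      rw [intervalIntegral.integral_sub (hi _ _) intervalIntegrable_const, intervalIntegral.integral_const,
        smul_eq_mul]
      ring
    rw [e]
    have := intervalIntegral.norm_integral_le_of_norm_le_const (a := t - (Real.log 2)) (b := t)
      (f := fun u => F u - M) (C := ε / 4) (fun u hu => by
        rw [Set.uIoc_of_le (by linarith)] at hu
        rw [Real.norm_eq_abs]
        exact hclose u hu.1.le (by linarith [hu.2]))
    rw [Real.norm_eq_abs, show t - (t - (Real.log 2)) = (Real.log 2) by ring, abs_of_pos ha] at this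
    exact this
  have c2 : |(∫ u in t..(t + (Real.log (3 / 2))), F u) - (Real.log (3 / 2)) * M| ≤ ε / 4 * (Real.log (3 / 2)) := by
    have e : (∫ u in t..(t + (Real.log (3 / 2))), F u) - (Real.log (3 / 2)) * M = ∫ u in t..(t + (Real.log (3 / 2))), (F u - M) := by
      rw [intervalIntegral.integral_sub (hi _ _) intervalIntegrable_const, intervalIntegral.integral_const,
        smul_eq_mul]
      ring
    rw [e]
    have := intervalIntegral.norm_integral_le_of_norm_le_const (a := t) (b := t + (Real.log (3 / 2)))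
      (f := fun u => F u - M) (C := ε / 4) (fun u hu => by
        rw [Set.uIoc_of_le (by linarith)] at hu
        rw [Real.norm_eq_abs]
        exact hclose u (by linarith [hu.1]) hu.2)
    rw [Real.norm_eq_abs, show t + (Real.log (3 / 2)) - t = (Real.log (3 / 2)) by ring, abs_of_pos hb] at this
    exact this
  unfold II
  rw [show (∫ u in (t - (Real.log 2))..t, F u) - (∫ u in t..(t + (Real.log (3 / 2))), F u) - ((Real.log 2) - (Real.log (3 / 2))) * M
    = ((∫ u in (t - (Real.log 2))..t, F u) - (Real.log 2) * M) - ((∫ u in t..(t + (Real.log (3 / 2))), F u) - (Real.log (3 / 2)) * M) by ring]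
  refine (abs_sub _ _).trans ?_
  nlinarith

theorem limsup_props (h0 : ∀ t, 0 ≤ F t) (h1 : ∀ t, F t ≤ 1) :
    (∀ δ, 0 < δ → ∀ᶠ t in atTop, F t < limsup F atTop + δ) ∧
    (∀ δ, 0 < δ → ∃ᶠ t in atTop, limsup F atTop - δ < F t) := by
  have hb : IsBoundedUnder (· ≤ ·) atTop F := isBoundedUnder_of ⟨1, h1⟩
  have hb' : IsBoundedUnder (· ≥ ·) atTop F := isBoundedUnder_of ⟨0, h0⟩
  have hcb : IsCoboundedUnder (· ≤ ·) atTop F := hb'.isCoboundedUnder_le
  exact ⟨fun δ hδ => eventually_lt_of_limsup_lt (by linarith) hb,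
    fun δ hδ => frequently_lt_of_lt_limsup hcb (by linarith)⟩

/-- CONVERGENCE of bounded approximately harmonic functions -/
theorem harmonic_limit (hF : Measurable F) (h0 : ∀ t, 0 ≤ F t) (h1 : ∀ t, F t ≤ 1)
    (hL : ∀ t s, t0 ≤ t → 0 ≤ s → s ≤ 1 → |F (t + s) - F t| ≤ L * (s + Real.exp (-t)))
    (hh : ∀ t, t0 ≤ t → |F t - (F (t - (Real.log 2)) + F (t + (Real.log (3 / 2)))) / 2| ≤ C / t ^ 2) :
    ∃ l : ℝ, Tendsto F atTop (𝓝 l) := by
  have ha := a_pos
  have hb := b_pos
  have hba := b_lt_a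
  have hL0 : 0 ≤ L := by
    have h2 := hL (max t0 0) 0 (le_max_left _ _) le_rfl zero_le_one
    have h3 := Real.exp_pos (-(max t0 0))
    have h4 : 0 ≤ L * Real.exp (-(max t0 0)) := by
      refine le_trans (abs_nonneg _) (h2.trans (le_of_eq ?_)); rw [zero_add]
    exact nonneg_of_mul_nonneg_left h4 h3
  have hC : 0 ≤ C := by
    have h2 := hh (max t0 1) (le_max_left _ _)
    have h3 : (0 : ℝ) < (max t0 1) ^ 2 := by positivity
    have h4 : 0 ≤ C / (max t0 1) ^ 2 := (abs_nonneg _).trans h2
    have h5 := mul_nonneg h4 h3.le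
    rwa [div_mul_cancel₀ _ h3.ne'] at h5
  set F' : ℝ → ℝ := fun t => 1 - F t with hF'def
  have hF' : Measurable F' := measurable_const.sub hF
  have h0' : ∀ t, 0 ≤ F' t := fun t => by simp only [hF'def]; linarith [h1 t]
  have h1' : ∀ t, F' t ≤ 1 := fun t => by simp only [hF'def]; linarith [h0 t]
  have hL' : ∀ t s, t0 ≤ t → 0 ≤ s → s ≤ 1 → |F' (t + s) - F' t| ≤ L * (s + Real.exp (-t)) := by
    intro t s ht hs hs1
    have := hL t s ht hs hs1
    simp only [hF'def]
    rw [show 1 - F (t + s) - (1 - F t) = -(F (t + s) - F t) by ring, abs_neg]; exact this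
  have hh' : ∀ t, t0 ≤ t → |F' t - (F' (t - (Real.log 2)) + F' (t + (Real.log (3 / 2)))) / 2| ≤ C / t ^ 2 := by
    intro t ht
    have := hh t ht
    simp only [hF'def]
    rw [show 1 - F t - (1 - F (t - (Real.log 2)) + (1 - F (t + (Real.log (3 / 2))))) / 2 = -(F t - (F (t - (Real.log 2)) + F (t + (Real.log (3 / 2)))) / 2) by ring,
      abs_neg]; exact this
  obtain ⟨p1, p2⟩ := limsup_props h0 h1
  obtain ⟨q1, q2⟩ := limsup_props h0' h1'
  set M := limsup F atTop with hMdef
  set M' := limsup F' atTop with hM'def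
  have hII' : ∀ t, II F' t = ((Real.log 2) - (Real.log (3 / 2))) - II F t := by
    intro t
    unfold II
    have hi := intble hF h0 h1
    simp only [hF'def]
    rw [intervalIntegral.integral_sub intervalIntegrable_const (hi _ _),
      intervalIntegral.integral_sub intervalIntegrable_const (hi _ _), intervalIntegral.integral_const,
      intervalIntegral.integral_const, smul_eq_mul, smul_eq_mul]
    ring
  -- M + M' = 1
  have hsum : M + M' = 1 := by
    by_contra hne
    have hpos : 0 < |((Real.log 2) - (Real.log (3 / 2))) * (M + M' - 1)| := by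
      apply abs_pos.2
      apply mul_ne_zero (by linarith)
      intro h; apply hne; linarith
    set e := |((Real.log 2) - (Real.log (3 / 2))) * (M + M' - 1)| with he
    set T := max (max t0 1) (8 * C / e + 1) with hT
    have hT1 : t0 ≤ T := (le_max_left _ _).trans (le_max_left _ _)
    have hT2 : 1 ≤ T := (le_max_right _ _).trans (le_max_left _ _)
    have hT3 : 8 * C / e + 1 ≤ T := le_max_right _ _
    have hCT : 2 * C / T ≤ e / 4 := by
      rw [div_le_iff₀ (by linarith)]
      have : 8 * C / e ≤ T := by linarith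
      rw [div_le_iff₀ hpos] at this
      linarith
    obtain ⟨t, ht, hc⟩ := II_close hF h0 h1 hL0 hC hL hh p1 p2 (e / 8) (by positivity) T
    obtain ⟨s, hs, hc'⟩ := II_close hF' h0' h1' hL0 hC hL' hh' q1 q2 (e / 8) (by positivity) T
    rw [hII'] at hc'
    have k1 := II_cauchy hF h0 h1 hh hC hT1 (by linarith) ht
    have k2 := II_cauchy hF h0 h1 hh hC hT1 (by linarith) hs
    have hlt : e < e := by
      have h3 : ((Real.log 2) - (Real.log (3 / 2))) * (M + M' - 1)
          = -(II F t - ((Real.log 2) - (Real.log (3 / 2))) * M) - (((Real.log 2) - (Real.log (3 / 2))) - II F s - ((Real.log 2) - (Real.log (3 / 2))) * M') + (II F t - II F T)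
            - (II F s - II F T) := by ring
      calc e = |-(II F t - ((Real.log 2) - (Real.log (3 / 2))) * M) - (((Real.log 2) - (Real.log (3 / 2))) - II F s - ((Real.log 2) - (Real.log (3 / 2))) * M') + (II F t - II F T)
            - (II F s - II F T)| := by rw [he, h3]
        _ ≤ |II F t - ((Real.log 2) - (Real.log (3 / 2))) * M| + |((Real.log 2) - (Real.log (3 / 2))) - II F s - ((Real.log 2) - (Real.log (3 / 2))) * M'| + |II F t - II F T|
            + |II F s - II F T| := by
            refine (abs_sub _ _).trans ?_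
            refine add_le_add_left ?_ _
            refine (abs_add_le _ _).trans ?_
            refine add_le_add_left ?_ _
            refine (abs_sub _ _).trans ?_
            rw [abs_neg]
        _ ≤ e / 8 + e / 8 + e / 4 + e / 4 := by linarith
        _ < e := by linarith
    exact lt_irrefl _ hlt
  refine ⟨M, ?_⟩
  rw [Metric.tendsto_nhds]
  intro ε hε
  filter_upwards [p1 ε hε, q1 ε hε] with t h2 h3
  rw [Real.dist_eq, abs_lt]
  simp only [hF'def] at h3
  constructor <;> linarith

end Pool.Agent.H499R2.HL
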