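import Pool.Agent.H33.G.R_seed8.H499R2.NDClass

/-! Natural density: invariant sets and countable additivity. -/

set_option autoImplicit false

namespace Pool.Agent.H499R2.ND

open Pool.Agent.H320R2.PD Finset Filter Topology

theorem G_sum_le' {ι : Type*} (A : Finset ι) (K : ι → Set ℤ) (U : Set ℤ)
    (hdisj : ∀ a ∈ A, ∀ b ∈ A, a ≠ b → Disjoint (K a) (K b))
    (hsub : ∀ a ∈ A, ∀ x : ℤ, 0 < x → x ∈ K a → x ∈ U) (X : ℝ) :
    ∑ a ∈ A, G (K a) X ≤ G U X := by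
  classical
  unfold G
  have h1 : (A.biUnion fun a => pos (K a) X).card = ∑ a ∈ A, (pos (K a) X).card := by
    apply card_biUnion
    intro a ha b hb hab
    rw [Function.onFun, Finset.disjoint_left]
    intro x hx hx'
    rw [mem_pos] at hx hx'
    exact Set.disjoint_left.1 (hdisj a ha b hb hab) hx.2 hx'.2
  have h2 : (A.biUnion fun a => pos (K a) X) ⊆ pos U X := by
    intro x hx
    rw [mem_biUnion] at hx
    obtain ⟨a, ha, hx⟩ := hx
    rw [mem_pos] at hx ⊢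
    exact ⟨hx.1, hsub a ha x (by omega) hx.2⟩
  have h3 := card_le_card h2
  rw [h1] at h3
  exact_mod_cast h3

theorem G_compl (S : Set ℤ) (X : ℝ) : G S X + G Sᶜ X = G Set.univ X := by
  classical
  unfold G
  have hdisj : Disjoint (pos S X) (pos Sᶜ X) := by
    rw [Finset.disjoint_left]
    intro x hx hx'
    rw [mem_pos] at hx hx'
    exact hx'.2 hx.2
  have hun : pos S X ∪ pos Sᶜ X = pos Set.univ X := by
    ext x
    rw [mem_union, mem_pos, mem_pos, mem_pos]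
    by_cases h : x ∈ S
    · simp [h]
    · simp [h]
  rw [← hun, card_union_of_disjoint hdisj]
  push_cast; ring

theorem G_univ_le {X : ℝ} (hX : 0 ≤ X) : G Set.univ X ≤ X := pos_card_le _ hX

theorem compl_density {S : Set ℤ} {l l' : ℝ} (h : Tendsto (fun X : ℝ => G S X / X) atTop (𝓝 l))
    (h' : Tendsto (fun X : ℝ => G Sᶜ X / X) atTop (𝓝 l')) : l + l' = 1 := by
  have h1 := h.add h'
  have h2 : Tendsto (fun X : ℝ => G S X / X + G Sᶜ X / X) atTop (𝓝 1) := by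
    have hl : Tendsto (fun X : ℝ => 1 - 1 / X) atTop (𝓝 (1 - 0)) := by
      apply Tendsto.const_sub
      exact tendsto_const_nhds.div_atTop tendsto_id
    rw [sub_zero] at hl
    apply tendsto_of_tendsto_of_tendsto_of_le_of_le' hl (tendsto_const_nhds (x := (1 : ℝ)))
    · filter_upwards [eventually_gt_atTop (0 : ℝ)] with X hX
      rw [← add_div, G_compl, le_div_iff₀ hX]
      have : (1 - 1 / X) * X = X - 1 := by field_simp
      rw [this]; exact G_univ_ge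
    · filter_upwards [eventually_gt_atTop (0 : ℝ)] with X hX
      rw [← add_div, G_compl, div_le_one hX]
      exact G_univ_le hX.le
  exact tendsto_nhds_unique h1 h2

/-- invariance under the Collatz map -/
theorem Ci_inv {S : Set ℤ} (h : ∀ x : ℤ, x ∈ S ↔ Ci x ∈ S) : Inv 1 S := by
  intro x
  rcases Td_Ci x with h1 | h1
  · rw [h1, ← h]
  · rw [h1, ← h, ← h]

theorem Ci_inv_s {s : ℤ} (hs : s = 1 ∨ s = -1) {S : Set ℤ} (h : ∀ x : ℤ, x ∈ S ↔ Ci x ∈ S) :
    Inv s {x | s * x ∈ S} := by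
  rcases hs with rfl | rfl
  · have : {x : ℤ | (1 : ℤ) * x ∈ S} = S := by ext x; simp
    rw [this]; exact Ci_inv h
  · have h1 := (Ci_inv h).neg odd_one
    have : {x : ℤ | (-1 : ℤ) * x ∈ S} = {x | -x ∈ S} := by ext x; simp
    rw [this]; exact h1

theorem mem_of_merge {S : Set ℤ} (h : ∀ x : ℤ, x ∈ S ↔ Ci x ∈ S) {a n : ℤ} (hn : n ∈ Kc a) :
    n ∈ S ↔ a ∈ S := by
  have hi : ∀ k : ℕ, ∀ x : ℤ, x ∈ S ↔ Ci^[k] x ∈ S := by
    intro k
    induction k with
    | zero => intro x; simp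
    | succ k ih => intro x; rw [h, ih, Function.iterate_succ_apply]
  obtain ⟨i, j, hij⟩ := hn
  rw [hi i n, hij, ← hi j a]

/-- representatives: least elements of the classes -/
def IsRep (s a : ℤ) : Prop := 0 < s * a ∧ ∀ b : ℤ, 0 < s * b → (∃ i j : ℕ, Ci^[i] a = Ci^[j] b) → s * a ≤ s * b

/-- STRUCTURE THEOREM, full form -/
theorem structure_full {s : ℤ} (hs : s = 1 ∨ s = -1) : ∃ δ : ℤ → ℝ,
    (∀ a : ℤ, 0 < s * a → 0 < δ a ∧
      Tendsto (fun N : ℕ => ({n : ℤ | 0 < s * n ∧ s * n ≤ N ∧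
        ∃ i j : ℕ, Ci^[i] n = Ci^[j] a}.ncard : ℝ) / N) atTop (𝓝 (δ a))) ∧
    (∀ S : Set ℤ, (∀ x : ℤ, x ∈ S ↔ Ci x ∈ S) →
      Tendsto (fun N : ℕ => ({n : ℤ | 0 < s * n ∧ s * n ≤ N ∧ n ∈ S}.ncard : ℝ) / N) atTop
        (𝓝 (∑' a : {a : ℤ // IsRep s a ∧ a ∈ S}, δ a))) ∧
    HasSum (fun a : {a : ℤ // IsRep s a} => δ a) 1 := by
  obtain ⟨δ, h1, h2⟩ := structure_thm hs
  have hsodd : Odd s := by rcases hs with rfl | rfl <;> decide
  have hs3 : IsCoprime s 3 := by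
    rcases hs with rfl | rfl
    · exact isCoprime_one_left
    · exact isCoprime_one_left.neg_left
  have hss : ∀ x : ℤ, s * (s * x) = x := by
    intro x; rcases hs with rfl | rfl <;> ring
  have h2' : HasSum (fun a : {a : ℤ // IsRep s a} => δ a) 1 := h2
  refine ⟨δ, h1, ?_, h2'⟩
  intro S hS
  -- real-variable limits for the classes
  have hδ : ∀ a : ℤ, 0 < s * a → Tendsto (fun X : ℝ => G (Ks s a) X / X) atTop (𝓝 (δ a)) := by
    intro a ha
    obtain ⟨l, _, hl⟩ := class_density hs ha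
    have h3 := nat_limit hl
    have h4 : Tendsto (fun N : ℕ => G (Ks s a) ((N : ℝ) + 1) / N) atTop (𝓝 (δ a)) := by
      refine (h1 a ha).2.congr fun N => ?_
      have e := ncard_side hs (Kc a) N
      change ({n : ℤ | 0 < s * n ∧ s * n ≤ N ∧ n ∈ Kc a}.ncard : ℝ) / N = G (Ks s a) ((N : ℝ) + 1) / N
      rw [e]
      rfl
    rw [tendsto_nhds_unique h4 h3]; exact hl
  have hSi := Ci_inv_s hs hS
  obtain ⟨l, hl⟩ := density_exists hsodd hs3 hSi
  obtain ⟨l', hl'⟩ := density_exists hsodd hs3 hSi.compl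
  have hll := compl_density hl hl'
  -- partial sums
  have hpart : ∀ (P : Set ℤ) (lP : ℝ), (∀ x : ℤ, x ∈ P ↔ Ci x ∈ P) →
      Tendsto (fun X : ℝ => G {x | s * x ∈ P} X / X) atTop (𝓝 lP) →
      ∀ A : Finset {a : ℤ // IsRep s a ∧ a ∈ P}, ∑ a ∈ A, δ a.1 ≤ lP := by
    intro P lP hP hlP A
    have htend : Tendsto (fun X : ℝ => (∑ a ∈ A, G (Ks s a.1) X) / X) atTop (𝓝 (∑ a ∈ A, δ a.1)) := by
      have := tendsto_finsetSum A (fun a _ => hδ a.1 a.2.1.1)
      refine this.congr fun X => ?_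
      rw [sum_div]
    apply le_of_tendsto_of_tendsto htend hlP
    filter_upwards [eventually_gt_atTop (0 : ℝ)] with X hX
    apply div_le_div_of_nonneg_right _ hX.le
    apply G_sum_le' A (fun a => Ks s a.1) {x | s * x ∈ P}
    · intro a _ b _ hab
      rw [Set.disjoint_left]
      intro x hx hx'
      apply hab
      have k1 : s * x ∈ Kc a.1 := hx
      have k2 : s * x ∈ Kc b.1 := hx'
      have k3 : a.1 ∈ Kc b.1 := Kc_trans (Kc_symm k1) k2
      have k4 := a.2.1.2 b.1 b.2.1.1 k3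
      have k5 := b.2.1.2 a.1 a.2.1.1 (Kc_symm k3)
      apply Subtype.ext
      rcases hs with rfl | rfl <;> omega
    · intro a _ x _ hx
      change s * x ∈ P
      exact (mem_of_merge hP hx).2 a.2.2
  have hSc : ∀ x : ℤ, x ∈ Sᶜ ↔ Ci x ∈ Sᶜ := fun x => not_congr (hS x)
  have hδnn : ∀ a : ℤ, IsRep s a → 0 ≤ δ a := fun a ha => (h1 a ha.1).1.le
  have hsumS : Summable (fun a : {a : ℤ // IsRep s a ∧ a ∈ S} => δ a.1) :=
    summable_of_sum_le (fun a => hδnn a.1 a.2.1) (hpart S l hS hl)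
  have hsumSc : Summable (fun a : {a : ℤ // IsRep s a ∧ a ∈ Sᶜ} => δ a.1) :=
    summable_of_sum_le (fun a => hδnn a.1 a.2.1) (hpart Sᶜ l' hSc hl')
  have hleS : ∑' a : {a : ℤ // IsRep s a ∧ a ∈ S}, δ a.1 ≤ l :=
    hsumS.tsum_le_of_sum_le (hpart S l hS hl)
  have hleSc : ∑' a : {a : ℤ // IsRep s a ∧ a ∈ Sᶜ}, δ a.1 ≤ l' :=
    hsumSc.tsum_le_of_sum_le (hpart Sᶜ l' hSc hl')
  -- the two parts add up to one
  have htot : (∑' a : {a : ℤ // IsRep s a ∧ a ∈ S}, δ a.1)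
      + (∑' a : {a : ℤ // IsRep s a ∧ a ∈ Sᶜ}, δ a.1) = 1 := by
    -- reindex
    let T : Set {a : ℤ // IsRep s a} := {a | a.1 ∈ S}
    let E1 : {a : ℤ // IsRep s a ∧ a ∈ S} ≃ T :=
      { toFun := fun a => ⟨⟨a.1, a.2.1⟩, a.2.2⟩
        invFun := fun a => ⟨a.1.1, a.1.2, a.2⟩
        left_inv := fun a => rfl
        right_inv := fun a => rfl }
    let E2 : {a : ℤ // IsRep s a ∧ a ∈ Sᶜ} ≃ (Tᶜ : Set {a : ℤ // IsRep s a}) :=
      { toFun := fun a => ⟨⟨a.1, a.2.1⟩, a.2.2⟩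
        invFun := fun a => ⟨a.1.1, a.1.2, a.2⟩
        left_inv := fun a => rfl
        right_inv := fun a => rfl }
    have e1 : ∑' a : {a : ℤ // IsRep s a ∧ a ∈ S}, δ a.1 = ∑' a : T, δ a.1.1 :=
      E1.tsum_eq (fun a : T => δ a.1.1)
    have e2 : ∑' a : {a : ℤ // IsRep s a ∧ a ∈ Sᶜ}, δ a.1
        = ∑' a : (Tᶜ : Set {a : ℤ // IsRep s a}), δ a.1.1 :=
      E2.tsum_eq (fun a : (Tᶜ : Set {a : ℤ // IsRep s a}) => δ a.1.1)
    rw [e1, e2]
    have hsummable : Summable (fun a : {a : ℤ // IsRep s a} => δ a.1) := h2'.summable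
    exact ((hsummable.subtype T).tsum_add_tsum_compl (hsummable.subtype Tᶜ)).trans h2'.tsum_eq
  have hl_eq : l = ∑' a : {a : ℤ // IsRep s a ∧ a ∈ S}, δ a.1 := by linarith
  rw [← hl_eq]
  refine (nat_limit hl).congr fun N => ?_
  rw [ncard_side hs S N]

end Pool.Agent.H499R2.ND
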