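import Pool.Agent.H33.G.R_seed8.H499R2.NDCor

/-! Natural density: countable additivity over an arbitrary partition into invariant sets (`d = 1`). -/

set_option autoImplicit false

namespace Pool.Agent.H499R2.ND

open Pool.Agent.H320R2.PD Finset Filter Topology

theorem part_sum_one {ι : Type*} {s : ℤ} (hs : s = 1 ∨ s = -1) (K : ι → Set ℤ) (δ : ι → ℝ)
    (hδ : ∀ i, HD s (K i) (δ i)) (hdisj : ∀ i j, i ≠ j → Disjoint (K i) (K j)) {S : Set ℤ}
    (hK : ∀ i, Inv 1 (K i)) (hS : Inv 1 S) (hcov : ∀ n : ℤ, 0 < s * n → n ∈ S → ∃ i, n ∈ K i)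
    (hsub : ∀ i, ∀ n : ℤ, 0 < s * n → n ∈ K i → n ∈ S) {l : ℝ} (hl : HD s S l) : HasSum δ l := by
  classical
  have hss : ∀ x : ℤ, s * (s * x) = x := by
    intro x; rcases hs with rfl | rfl <;> ring
  have hδ0 : ∀ a, 0 ≤ δ a := fun a => by
    apply ge_of_tendsto (hδ a)
    filter_upwards [eventually_gt_atTop (0 : ℝ)] with X hX
    exact div_nonneg (G_nonneg _ _) hX.le
  have htend : ∀ A : Finset ι, Tendsto (fun X : ℝ => (∑ a ∈ A, G {x | s * x ∈ K a} X) / X) atTop
      (𝓝 (∑ a ∈ A, δ a)) := by
    intro A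
    have := tendsto_finsetSum A (fun a _ => hδ a)
    refine this.congr fun X => ?_
    rw [sum_div]
  apply hasSum_of_isLUB_of_nonneg
  · exact hδ0
  · constructor
    · rintro _ ⟨A, rfl⟩
      apply le_of_tendsto_of_tendsto (htend A) hl
      filter_upwards [eventually_gt_atTop (0 : ℝ)] with X hX
      apply div_le_div_of_nonneg_right _ hX.le
      apply G_sum_le' A (fun a => {x | s * x ∈ K a}) {x | s * x ∈ S}
      · intro a _ b _ hab
        rw [Set.disjoint_left]
        intro x hx hx'
        exact Set.disjoint_left.1 (hdisj a b hab) hx hx'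
      · intro a _ x hx hxa
        exact hsub a (s * x) (by rw [hss]; exact hx) hxa
    · intro b hb
      apply le_of_forall_pos_le_add
      intro ε hε
      obtain ⟨C, hC, hst⟩ := stay_side 1 odd_one isCoprime_one_left hs
      obtain ⟨y, hy2, hyε⟩ : ∃ y : ℝ, 2 ≤ y ∧ C / Real.log y ≤ ε := by
        refine ⟨Real.exp (C / ε + 1), ?_, ?_⟩
        · have := Real.add_one_le_exp (C / ε + 1)
          have : 0 < C / ε := by positivity
          linarith
        · rw [Real.log_exp, div_le_iff₀ (by positivity)]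
          have : ε * (C / ε + 1) = C + ε := by field_simp
          rw [this]; linarith
      -- finitely many pieces meet `[-y,y]`
      have hpick : ∀ m : ℤ, ∃ A : Finset ι, 0 < s * m → m ∈ S → ∃ i ∈ A, m ∈ K i := by
        intro m
        by_cases h : 0 < s * m ∧ m ∈ S
        · obtain ⟨i, hi⟩ := hcov m h.1 h.2
          exact ⟨{i}, fun _ _ => ⟨i, by simp, hi⟩⟩
        · exact ⟨∅, fun h1 h2 => (h ⟨h1, h2⟩).elim⟩
      choose pk hpk using hpick
      set A := (Finset.Icc (-⌊y⌋) ⌊y⌋).biUnion pk with hA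
      have hcovA : ∀ n : ℤ, 0 < s * n → n ∈ S → (∀ i ∈ A, n ∉ K i) → n ∈ Stay 1 y := by
        intro n hn hnS hni k
        by_contra hcon
        push Not at hcon
        set m := (Td 1)^[k] n with hm
        have hmS : m ∈ S := (inv_iter hS k n).1 hnS
        have hms : 0 < s * m := (Td_one_iter_sign hs n k).1 hn
        obtain ⟨i, hi, hmi⟩ := hpk m hms hmS
        apply hni i
        · rw [hA, mem_biUnion]
          refine ⟨m, ?_, hi⟩
          rw [abs_le] at hcon
          rw [mem_Icc]
          constructor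
          · have : -y ≤ m := hcon.1
            have h2 : ((-m : ℤ) : ℝ) ≤ y := by push_cast; linarith
            have := Int.le_floor.2 h2
            omega
          · exact Int.le_floor.2 hcon.2
        · exact (inv_iter (hK i) k n).2 hmi
      have h1 : ∀ X : ℝ, 1 ≤ X → G {x | s * x ∈ S} X / X ≤ (∑ a ∈ A, G {x | s * x ∈ K a} X) / X + ε := by
        intro X hX
        have hXpos : 0 < X := by linarith
        have h2 : G {x | s * x ∈ S} X ≤ ∑ a ∈ A, G {x | s * x ∈ K a} X + G {x | s * x ∈ Stay 1 y} X := by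
          unfold G
          have e1 : pos {x | s * x ∈ S} X ⊆ (A.biUnion fun a => pos {x | s * x ∈ K a} X)
              ∪ pos {x | s * x ∈ Stay 1 y} X := by
            intro x hx
            rw [mem_pos] at hx
            rw [mem_union, mem_biUnion]
            by_cases h : ∃ a ∈ A, s * x ∈ K a
            · obtain ⟨a, ha, hxa⟩ := h
              exact Or.inl ⟨a, ha, mem_pos.2 ⟨hx.1, hxa⟩⟩
            · push Not at h
              exact Or.inr (mem_pos.2 ⟨hx.1, hcovA (s * x) (by rw [hss]; omega) hx.2 h⟩)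
          have e2 := (card_le_card e1).trans (card_union_le _ _)
          have e3 : (A.biUnion fun a => pos {x | s * x ∈ K a} X).card
              ≤ ∑ a ∈ A, (pos {x | s * x ∈ K a} X).card := card_biUnion_le
          exact_mod_cast e2.trans (Nat.add_le_add_right e3 _)
        have h3 := hst y hy2 X hXpos.le
        rw [pow_one] at h3
        have h4 : C * X / Real.log y ≤ ε * X := by
          rw [mul_div_right_comm]
          exact mul_le_mul_of_nonneg_right hyε hXpos.le
        rw [div_add' _ _ _ hXpos.ne']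
        apply div_le_div_of_nonneg_right _ hXpos.le
        linarith
      have h2 : l ≤ ∑ a ∈ A, δ a + ε := by
        apply le_of_tendsto_of_tendsto hl ((htend A).add_const ε)
        filter_upwards [eventually_ge_atTop (1 : ℝ)] with X hX
        exact h1 X hX
      have h3 := hb ⟨A, rfl⟩
      simp only at h3
      linarith

/-- eventually periodic orbits and basins -/
theorem per_step {f : ℤ → ℤ} {c : ℤ} (h : ∃ p, 1 ≤ p ∧ f^[p] c = c) : ∃ p, 1 ≤ p ∧ f^[p] (f c) = f c := by
  obtain ⟨p, hp, hc⟩ := h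
  exact ⟨p, hp, by rw [← Function.iterate_succ_apply, Function.iterate_succ_apply', hc]⟩

theorem per_iter {f : ℤ → ℤ} {c : ℤ} (h : ∃ p, 1 ≤ p ∧ f^[p] c = c) (j : ℕ) :
    ∃ p, 1 ≤ p ∧ f^[p] (f^[j] c) = f^[j] c := by
  induction j with
  | zero => exact h
  | succ j ih => rw [Function.iterate_succ_apply']; exact per_step ih

/-- for periodic `c`, from every point of its cycle one comes back to `c` -/
theorem per_return {f : ℤ → ℤ} {c : ℤ} (h : ∃ p, 1 ≤ p ∧ f^[p] c = c) (j : ℕ) :
    ∃ r, f^[r] (f^[j] c) = c := by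
  obtain ⟨p, hp, hc⟩ := h
  have hmul : ∀ q : ℕ, f^[q * p] c = c := by
    intro q
    induction q with
    | zero => simp
    | succ q ih => rw [Nat.succ_mul, Function.iterate_add_apply, hc, ih]
  refine ⟨j * p - j, ?_⟩
  rw [← Function.iterate_add_apply, Nat.sub_add_cancel (Nat.le_mul_of_pos_right j hp), hmul]

/-- the basin of a periodic point is its merging class -/
theorem basin_eq {f : ℤ → ℤ} {c : ℤ} (h : ∃ p, 1 ≤ p ∧ f^[p] c = c) :
    {n : ℤ | ∃ j : ℕ, f^[j] n = c} = Mg f c := by
  ext n
  constructor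
  · rintro ⟨j, hj⟩; exact ⟨j, 0, hj⟩
  · rintro ⟨i, j, hij⟩
    obtain ⟨r, hr⟩ := per_return h j
    exact ⟨r + i, by rw [Function.iterate_add_apply, hij, hr]⟩

end Pool.Agent.H499R2.ND
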