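import Pool.Agent.H33.G.R_seed8.H499R2.NDStep3

/-! Natural density: parameters of one stage and the error bound. -/

set_option autoImplicit false

namespace Pool.Agent.H499R2.ND

open Pool.Agent.H320R2.PD Finset

theorem exp_neg_le (B : ℕ) {a t : ℝ} (ha : 0 < a) (ht : 0 < t) :
    Real.exp (-(t / a)) ≤ (B.factorial * a ^ B) / t ^ B := by
  have h1 : (t / a) ^ B / B.factorial ≤ Real.exp (t / a) :=
    Real.pow_div_factorial_le_exp (t / a) (by positivity) B
  rw [Real.exp_neg, inv_eq_one_div, div_le_div_iff₀ (Real.exp_pos _) (by positivity), one_mul]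
  have hf : (0 : ℝ) < B.factorial := by exact_mod_cast Nat.factorial_pos B
  rw [div_le_iff₀ hf, div_pow, div_le_iff₀ (by positivity)] at h1
  nlinarith

theorem log3_le : Real.log 3 ≤ 8 / 5 * Real.log 2 := by
  have h : Real.log ((3 : ℝ) ^ 5) ≤ Real.log ((2 : ℝ) ^ 8) :=
    Real.log_le_log (by norm_num) (by norm_num)
  rw [Real.log_pow, Real.log_pow] at h
  push_cast at h
  linarith

theorem log3_ge : 19 / 12 * Real.log 2 ≤ Real.log 3 := by
  have h : Real.log ((2 : ℝ) ^ 19) ≤ Real.log ((3 : ℝ) ^ 12) :=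
    Real.log_le_log (by norm_num) (by norm_num)
  rw [Real.log_pow, Real.log_pow] at h
  push_cast at h
  linarith

/-- mass of the typical words -/
theorem mass_GW (k : ℕ) :
    1 - ∑ w ∈ GW (3 * k) k ((39 * k + 19) / 20) (41 * k / 20), wwt w
      ≤ 3 * Real.exp (-(k / 12800 : ℝ)) := by
  set G := GW (3 * k) k ((39 * k + 19) / 20) (41 * k / 20) with hG
  have h1 : ∑ w ∈ FW (3 * k) k, wwt w ≤ ∑ w ∈ G, wwt w
      + ∑ w ∈ (FW (3 * k) k).filter (fun w => (1 / 20 : ℝ) * k ≤ |(w.sum : ℝ) - 2 * k|), wwt w := by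
    rw [hG]; unfold GW
    classical
    rw [← sum_union_inter]
    have hsub : FW (3 * k) k ⊆ ((FW (3 * k) k).filter fun w => (39 * k + 19) / 20 ≤ w.sum ∧ w.sum ≤ 41 * k / 20)
        ∪ ((FW (3 * k) k).filter fun w => (1 / 20 : ℝ) * k ≤ |(w.sum : ℝ) - 2 * k|) := by
      intro w hw
      rw [mem_union, mem_filter, mem_filter]
      by_cases h : (39 * k + 19) / 20 ≤ w.sum ∧ w.sum ≤ 41 * k / 20
      · exact Or.inl ⟨hw, h⟩
      · refine Or.inr ⟨hw, ?_⟩
        rcases not_and_or.1 h with h' | h'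
        · have h2 : 20 * w.sum < 39 * k := by omega
          have h3 : (20 : ℝ) * w.sum < 39 * k := by exact_mod_cast h2
          have := neg_le_abs ((w.sum : ℝ) - 2 * k)
          linarith
        · have h2 : 41 * k < 20 * w.sum := by omega
          have h3 : (41 : ℝ) * k < 20 * w.sum := by exact_mod_cast h2
          have := le_abs_self ((w.sum : ℝ) - 2 * k)
          linarith
    have h2 := sum_le_sum_of_subset_of_nonneg hsub (f := wwt) (fun w _ _ => by unfold wwt; positivity)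
    have h3 : 0 ≤ ∑ x ∈ ((FW (3 * k) k).filter fun w => (39 * k + 19) / 20 ≤ w.sum ∧ w.sum ≤ 41 * k / 20)
        ∩ ((FW (3 * k) k).filter fun w => (1 / 20 : ℝ) * k ≤ |(w.sum : ℝ) - 2 * k|), wwt x :=
      sum_nonneg fun w _ => by unfold wwt; positivity
    linarith
  have h2 := tail (3 * k) k (η := 1 / 20) (by norm_num) (by norm_num)
  have h3 : 1 - (k : ℝ) * (1 / 2) ^ (3 * k) ≤ ∑ w ∈ FW (3 * k) k, wwt w := by
    rw [sum_wwt]
    have := one_add_mul_le_pow (a := -(1 / 2 : ℝ) ^ (3 * k)) (by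
      have : (1 / 2 : ℝ) ^ (3 * k) ≤ 1 := pow_le_one₀ (by norm_num) (by norm_num)
      linarith) k
    rw [← sub_eq_add_neg] at this
    linarith
  have h4 : (k : ℝ) * (1 / 2) ^ (3 * k) ≤ Real.exp (-(k / 12800 : ℝ)) := by
    have e1 : (k : ℝ) ≤ 2 ^ k := by exact_mod_cast Nat.lt_two_pow_self.le
    have e2 : (1 / 2 : ℝ) ^ (3 * k) = (1 / 2) ^ k * ((1 / 4) ^ k) := by
      rw [← mul_pow, pow_mul]; norm_num
    have e3 : (k : ℝ) * (1 / 2) ^ (3 * k) ≤ (1 / 4) ^ k := by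
      rw [e2, ← mul_assoc]
      have : (k : ℝ) * (1 / 2) ^ k ≤ 1 := by
        rw [one_div, inv_pow, ← div_eq_mul_inv, div_le_one (by positivity)]; exact e1
      calc (k : ℝ) * (1 / 2) ^ k * (1 / 4) ^ k ≤ 1 * (1 / 4) ^ k :=
            mul_le_mul_of_nonneg_right this (by positivity)
        _ = _ := one_mul _
    refine e3.trans ?_
    rw [show (-(k / 12800 : ℝ)) = k * (-(1 / 12800)) by ring, Real.exp_nat_mul]
    apply pow_le_pow_left₀ (by norm_num)
    have := Real.add_one_le_exp (-(1 / 12800 : ℝ))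
    linarith
  have h5 : (1 / 20 : ℝ) ^ 2 * k / 32 = k / 12800 := by ring
  rw [h5] at h2
  linarith

theorem pow_tm_le {t : ℝ} (ht : 0 ≤ t) {k : ℕ} (hk : (k : ℝ) ≤ t / 2) :
    (2 : ℝ) ^ (41 * k / 20) ≤ Real.exp (0.7106 * t) := by
  have h1 : ((41 * k / 20 : ℕ) : ℝ) ≤ 41 / 40 * t := by
    have h2 : 20 * (41 * k / 20) ≤ 41 * k := Nat.mul_div_le _ _
    have h3 : (20 : ℝ) * ((41 * k / 20 : ℕ) : ℝ) ≤ 41 * k := by exact_mod_cast h2
    linarith
  have h2 : (2 : ℝ) ^ (41 * k / 20) = Real.exp (Real.log 2 * ((41 * k / 20 : ℕ) : ℝ)) := by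
    rw [mul_comm (Real.log 2), Real.exp_nat_mul, Real.exp_log (by norm_num)]
  rw [h2]
  apply Real.exp_le_exp.2
  have h3 := Real.log_two_lt_d9
  have h4 := Real.log_two_gt_d9
  calc Real.log 2 * ((41 * k / 20 : ℕ) : ℝ) ≤ Real.log 2 * (41 / 40 * t) :=
        mul_le_mul_of_nonneg_left h1 (by linarith)
    _ ≤ 0.6931471808 * (41 / 40 * t) := mul_le_mul_of_nonneg_right h3.le (by linarith)
    _ ≤ 0.7106 * t := by nlinarith

theorem pow_m_le {t : ℝ} (ht : 1000 ≤ t) {m : ℕ} (hm : (m : ℝ) ^ 2 ≤ t) :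
    (3 : ℝ) ^ m ≤ Real.exp (0.05 * t) := by
  have h2 : (3 : ℝ) ^ m = Real.exp (Real.log 3 * m) := by
    rw [mul_comm (Real.log 3), Real.exp_nat_mul, Real.exp_log (by norm_num)]
  rw [h2]
  apply Real.exp_le_exp.2
  have h3 := log3_le
  have h4 := Real.log_two_lt_d9
  have h5 : Real.log 3 ≤ 1.2 := by linarith
  have h6 : (m : ℝ) ≤ t / 31 := by
    have h0 : (0 : ℝ) ≤ m := Nat.cast_nonneg m
    by_contra hcon
    push Not at hcon
    have : t / 31 * (t / 31) ≤ (m : ℝ) ^ 2 := by rw [sq]; nlinarith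
    nlinarith
  have h7 : 0 ≤ (m : ℝ) := Nat.cast_nonneg m
  nlinarith

/-- the total error of one stage, relative to the main term -/
noncomputable def Err (d : ℤ) (A : ℝ) (k m m' : ℕ) : ℝ :=
  (1 + 2 ^ (41 * k / 20) * (2 * 3 ^ m / A))
      * ∑ T ∈ range (k * (3 * k) + 1), dev (FWT (3 * k) k T) wwt (fun w => (Wo w : ℤ)) (k + m) m'
    + (1 - ∑ w ∈ GW (3 * k) k ((39 * k + 19) / 20) (41 * k / 20), wwt w)
    + (1 + (|(d : ℝ)| + 2) * 2 ^ (41 * k / 20)) * (2 * 3 ^ m / A)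

theorem err_bound (B : ℕ) (d : ℤ) : ∃ C : ℝ, 0 < C ∧ ∀ A : ℝ, 0 < A → 1000 ≤ Real.log A → ∀ k m m' : ℕ,
    (m : ℝ) ^ 2 ≤ Real.log A → k = ⌊Real.log A / 2⌋₊ → m' = ⌊Real.sqrt (0.8 * Real.log A)⌋₊ →
    Err d A k m m' ≤ C / (Real.log A) ^ B := by
  obtain ⟨Cm, hCm, hmix⟩ := mix (2 * B + 2)
  refine ⟨2 * (Cm * (2 ^ (2 * B + 2) + 4 ^ (2 * B + 2))) + 4 * (B.factorial * 25600 ^ B)
    + (|(d : ℝ)| + 3) * 2 * (B.factorial * 5 ^ B), by positivity, ?_⟩
  intro A hA ht k m m' hm hk hm'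
  set t := Real.log A with htdef
  have htpos : 0 < t := by linarith
  have hexpA : Real.exp t = A := Real.exp_log hA
  have hk1 : (k : ℝ) ≤ t / 2 := by rw [hk]; exact Nat.floor_le (by linarith)
  have hk2 : t / 2 - 1 ≤ k := by rw [hk]; linarith [Nat.lt_floor_add_one (t / 2)]
  have hkpos : (1 : ℝ) ≤ k := by linarith
  have hk1N : 1 ≤ k := by exact_mod_cast hkpos
  set r := Real.sqrt t with hr
  have hrsq : r ^ 2 = t := Real.sq_sqrt htpos.le
  have hr30 : 30 ≤ r := by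
    apply Real.le_sqrt_of_sq_le; linarith
  have hmr : (m : ℝ) ≤ r := Real.le_sqrt_of_sq_le hm
  have hs8 : Real.sqrt (0.8 * t) ≥ 0.8 * r := by
    apply Real.le_sqrt_of_sq_le
    rw [mul_pow, hrsq]; linarith
  have hs8' : Real.sqrt (0.8 * t) ≤ r := Real.sqrt_le_sqrt (by linarith)
  have hm'1 : r / 2 ≤ m' := by
    rw [hm']; linarith [Nat.lt_floor_add_one (Real.sqrt (0.8 * t))]
  have hm'2 : (m' : ℝ) ≤ r := by
    rw [hm']; exact (Nat.floor_le (Real.sqrt_nonneg _)).trans hs8'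
  have hm'pos : 1 ≤ m' := by
    have : (1 : ℝ) ≤ m' := by linarith
    exact_mod_cast this
  have hm'k : m' ≤ k := by
    have : (m' : ℝ) ≤ k := by nlinarith
    exact_mod_cast this
  -- exponentially small quantities
  have hexp5 := exp_neg_le B (by norm_num : (0 : ℝ) < 5) htpos
  have hexpb := exp_neg_le B (by norm_num : (0 : ℝ) < 25600) htpos
  have hsmall : (2 : ℝ) ^ (41 * k / 20) * (2 * 3 ^ m / A) ≤ 2 * Real.exp (-(t / 5)) := by
    have h1 := pow_tm_le htpos.le hk1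
    have h2 := pow_m_le ht hm
    have h3 : (2 : ℝ) ^ (41 * k / 20) * (2 * 3 ^ m / A)
        ≤ Real.exp (0.7106 * t) * (2 * Real.exp (0.05 * t) / Real.exp t) := by
      rw [← hexpA]
      apply mul_le_mul h1 _ (by positivity) (Real.exp_pos _).le
      apply div_le_div_of_nonneg_right _ (Real.exp_pos _).le
      linarith
    have h4 : Real.exp (0.7106 * t) * (2 * Real.exp (0.05 * t) / Real.exp t)
        = 2 * Real.exp (0.7106 * t + 0.05 * t - t) := by
      rw [Real.exp_sub, Real.exp_add]; ring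
    rw [h4] at h3
    refine h3.trans ?_
    apply mul_le_mul_of_nonneg_left _ (by norm_num)
    apply Real.exp_le_exp.2
    linarith
  have hexpsmall : Real.exp (-(t / 5)) ≤ 1 / 2 := by
    have h1 := Real.add_one_le_exp (t / 5)
    rw [Real.exp_neg, inv_eq_one_div]
    apply one_div_le_one_div_of_le (by norm_num)
    linarith
  have hsmall1 : (2 : ℝ) ^ (41 * k / 20) * (2 * 3 ^ m / A) ≤ 1 := by linarith
  have h3mA : 0 ≤ (2 * 3 ^ m / A : ℝ) := by positivity
  have hone : (2 * 3 ^ m / A : ℝ) ≤ 2 * Real.exp (-(t / 5)) := by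
    have : (1 : ℝ) ≤ 2 ^ (41 * k / 20) := one_le_pow₀ (by norm_num)
    nlinarith
  -- mixing
  have hδ := hmix k m m' (3 * k) hk1N hm'pos hm'k (le_refl _)
  set δ := ∑ T ∈ range (k * (3 * k) + 1), dev (FWT (3 * k) k T) wwt (fun w => (Wo w : ℤ)) (k + m) m'
    with hδdef
  have hδnn : 0 ≤ δ := sum_nonneg fun _ _ => sum_nonneg fun _ _ => abs_nonneg _
  have hrpos : 0 < r := by linarith
  have hδ2 : δ ≤ (Cm * (2 ^ (2 * B + 2) + 4 ^ (2 * B + 2))) / t ^ B := by
    have e1 : ((k : ℝ) + m) ≤ t := by nlinarith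
    have e2 : (1 / (m' : ℝ)) ^ (2 * B + 2) ≤ (2 / r) ^ (2 * B + 2) := by
      apply pow_le_pow_left₀ (by positivity)
      rw [div_le_div_iff₀ (by exact_mod_cast hm'pos) hrpos]
      linarith
    have e3 : ((m : ℝ) / k) ^ (2 * B + 2) ≤ (4 / r) ^ (2 * B + 2) := by
      apply pow_le_pow_left₀ (by positivity)
      rw [div_le_div_iff₀ (by linarith) hrpos]
      nlinarith
    have e4 : t * (Cm * ((2 / r) ^ (2 * B + 2) + (4 / r) ^ (2 * B + 2)))
        = (Cm * (2 ^ (2 * B + 2) + 4 ^ (2 * B + 2))) / t ^ B := by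
      have : r ^ (2 * B + 2) = t * t ^ B := by
        rw [show 2 * B + 2 = 2 * (B + 1) by ring, pow_mul, hrsq, pow_succ]; ring
      rw [div_pow, div_pow, this]
      field_simp
    calc δ ≤ (k + m) * (Cm * ((1 / (m' : ℝ)) ^ (2 * B + 2) + ((m : ℝ) / k) ^ (2 * B + 2))) := hδ
      _ ≤ t * (Cm * ((2 / r) ^ (2 * B + 2) + (4 / r) ^ (2 * B + 2))) := by
          apply mul_le_mul e1 _ (by positivity) htpos.le
          apply mul_le_mul_of_nonneg_left _ hCm.le
          linarith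
      _ = _ := e4
  -- mass
  have hmass := mass_GW k
  have hmass2 : 3 * Real.exp (-(k / 12800 : ℝ)) ≤ 4 * Real.exp (-(t / 25600)) := by
    have h1 : Real.exp (-(k / 12800 : ℝ)) ≤ Real.exp (1 / 12800) * Real.exp (-(t / 25600)) := by
      rw [← Real.exp_add]
      apply Real.exp_le_exp.2
      linarith
    have h2 : Real.exp (1 / 12800) ≤ 4 / 3 := by
      have := Real.exp_bound_div_one_sub_of_interval (x := 1 / 12800) (by norm_num) (by norm_num)
      refine this.trans (by norm_num)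
    have h3 := Real.exp_pos (-(t / 25600))
    nlinarith
  unfold Err
  rw [← hδdef]
  have hd0 : 0 ≤ |(d : ℝ)| := abs_nonneg _
  have f1 : (1 + 2 ^ (41 * k / 20) * (2 * 3 ^ m / A)) * δ ≤ 2 * δ :=
    mul_le_mul_of_nonneg_right (by linarith) hδnn
  have f2 : (1 + (|(d : ℝ)| + 2) * 2 ^ (41 * k / 20)) * (2 * 3 ^ m / A)
      ≤ (|(d : ℝ)| + 3) * (2 * Real.exp (-(t / 5))) := by
    calc (1 + (|(d : ℝ)| + 2) * 2 ^ (41 * k / 20)) * (2 * 3 ^ m / A)
        = (2 * 3 ^ m / A) + (|(d : ℝ)| + 2) * (2 ^ (41 * k / 20) * (2 * 3 ^ m / A)) := by ring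
      _ ≤ 2 * Real.exp (-(t / 5)) + (|(d : ℝ)| + 2) * (2 * Real.exp (-(t / 5))) := by
          have := mul_le_mul_of_nonneg_left hsmall (by linarith : 0 ≤ |(d : ℝ)| + 2)
          linarith
      _ = _ := by ring
  have f3 : (|(d : ℝ)| + 3) * (2 * Real.exp (-(t / 5)))
      ≤ (|(d : ℝ)| + 3) * (2 * ((B.factorial * 5 ^ B) / t ^ B)) := by
    apply mul_le_mul_of_nonneg_left _ (by linarith)
    linarith
  have f4 : 4 * Real.exp (-(t / 25600)) ≤ 4 * ((B.factorial * 25600 ^ B) / t ^ B) := by linarith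
  calc (1 + 2 ^ (41 * k / 20) * (2 * 3 ^ m / A)) * δ
      + (1 - ∑ w ∈ GW (3 * k) k ((39 * k + 19) / 20) (41 * k / 20), wwt w)
      + (1 + (|(d : ℝ)| + 2) * 2 ^ (41 * k / 20)) * (2 * 3 ^ m / A)
      ≤ 2 * ((Cm * (2 ^ (2 * B + 2) + 4 ^ (2 * B + 2))) / t ^ B)
        + 4 * ((B.factorial * 25600 ^ B) / t ^ B)
        + (|(d : ℝ)| + 3) * (2 * ((B.factorial * 5 ^ B) / t ^ B)) := by
        linarith
    _ = _ := by ring

end Pool.Agent.H499R2.ND
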