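import Pool.Agent.H33.G.R_seed8.H499R2.NDErr

/-! Natural density: the one-stage inequality, general form (size dependent targets). -/

set_option autoImplicit false

namespace Pool.Agent.H499R2.ND

open Pool.Agent.H320R2.PD Finset

/-- THE ONE-STAGE INEQUALITY, general form: the path property is only assumed for the words and the
window used, and the target set may depend on the size of the word -/
theorem starG {d : ℤ} (hd : Odd d) (hd3 : IsCoprime d 3) {S : Set ℤ} (S' : ℕ → Set ℤ) {A : ℝ}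
    (hA : 0 ≤ A) (cap k m m' Tl Tm : ℕ)
    (hpath : ∀ w ∈ GW cap k Tl Tm, ∀ M x : ℤ, Odd M → Odd x → A ≤ (M : ℝ) → (M : ℝ) < 2 * A → M ∈ S →
      Vw d w M x → x ∈ S' w.sum)
    (hk : 1 ≤ k) (hm' : m' ≤ k) (hTm : Tm ≤ k * cap) (c : ℤ) :
    ((cls S A (2 * A) m 1 c).card : ℝ)
      ≤ (∑ w ∈ GW cap k Tl Tm, ((cls (S' w.sum) (A * 3 ^ k / 2 ^ w.sum) (2 * (A * 3 ^ k / 2 ^ w.sum)) m'
            (2 ^ w.sum) (d * Wo w)).card : ℝ)) / 3 ^ (k + m - m')
        + (A / (2 * 3 ^ m) + 2 ^ Tm)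
            * ∑ T ∈ range (k * cap + 1), dev (FWT cap k T) wwt (fun w => (Wo w : ℤ)) (k + m) m'
        + A / (2 * 3 ^ m) * (1 - ∑ w ∈ GW cap k Tl Tm, wwt w)
        + 1 + (|(d : ℝ)| + 2) * 2 ^ Tm := by
  classical
  set G := GW cap k Tl Tm with hG
  set F := cls S A (2 * A) m 1 c with hF
  set All := cls Set.univ A (2 * A) m 1 c with hAll
  have hGprop : ∀ w ∈ G, w.length = k ∧ (∀ e ∈ w, 1 ≤ e) ∧ w.sum ≤ Tm := by
    intro w hw
    rw [hG] at hw; unfold GW at hw
    rw [mem_filter] at hw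
    exact ⟨(FW_props hw.1).1, (FW_props hw.1).2, hw.2.2⟩
  have hne : ∀ w ∈ G, w ≠ [] := by
    intro w hw h
    have := (hGprop w hw).1
    rw [h] at this; simp at this; omega
  have hXall : ∀ w ∈ G, XX d A k m c w ⊆ All := by
    intro w hw M hM
    obtain ⟨x, hx, hV⟩ := XX_word (hGprop w hw).1 hM
    have hMo := Vw_odd_left hd (hGprop w hw).2.1 (hne w hw) hV
    rw [hAll, mem_cls]
    rw [mem_XX] at hM
    exact ⟨hM.1, hMo, Set.mem_univ _, hM.2.2⟩
  have hdisj : (G : Set (List ℕ)).PairwiseDisjoint (fun w => XX d A k m c w) := by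
    intro w hw w' hw' hww
    rw [Function.onFun, Finset.disjoint_left]
    intro M hM hM'
    apply hww
    have hw1 := hGprop w (mem_coe.1 hw)
    have hw2 := hGprop w' (mem_coe.1 hw')
    obtain ⟨x, hx, hV⟩ := XX_word hw1.1 hM
    obtain ⟨x', hx', hV'⟩ := XX_word hw2.1 hM'
    exact word_unique hd w hw1.2.1 w' hw2.2.1 (hw1.1.trans hw2.1.symm) M x x' hx hx' hV hV'
  -- step 1
  have hcover : F ⊆ (G.biUnion fun w => F ∩ XX d A k m c w) ∪ (All \ G.biUnion fun w => XX d A k m c w) := by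
    intro M hM
    rw [mem_union, mem_biUnion, mem_sdiff, mem_biUnion]
    by_cases h : ∃ w ∈ G, M ∈ XX d A k m c w
    · obtain ⟨w, hw, hMw⟩ := h
      exact Or.inl ⟨w, hw, mem_inter.2 ⟨hM, hMw⟩⟩
    · refine Or.inr ⟨?_, h⟩
      rw [hF, mem_cls] at hM
      rw [hAll, mem_cls]
      exact ⟨hM.1, hM.2.1, Set.mem_univ _, hM.2.2.2⟩
  have hUsub : (G.biUnion fun w => XX d A k m c w) ⊆ All := biUnion_subset.2 hXall
  have hcard1 : (F.card : ℝ) ≤ ∑ w ∈ G, ((F ∩ XX d A k m c w).card : ℝ)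
      + (All.card - ∑ w ∈ G, ((XX d A k m c w).card : ℝ)) := by
    have h1 : F.card ≤ (G.biUnion fun w => F ∩ XX d A k m c w).card
        + (All \ G.biUnion fun w => XX d A k m c w).card :=
      (card_le_card hcover).trans (card_union_le _ _)
    have h2 : (G.biUnion fun w => F ∩ XX d A k m c w).card ≤ ∑ w ∈ G, (F ∩ XX d A k m c w).card :=
      card_biUnion_le
    have h3 : (All \ G.biUnion fun w => XX d A k m c w).card + (G.biUnion fun w => XX d A k m c w).card
        = All.card := card_sdiff_add_card_eq_card hUsub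
    have h4 : (G.biUnion fun w => XX d A k m c w).card = ∑ w ∈ G, (XX d A k m c w).card :=
      card_biUnion hdisj
    rw [h4] at h3
    have h1' : (F.card : ℝ) ≤ (G.biUnion fun w => F ∩ XX d A k m c w).card
        + (All \ G.biUnion fun w => XX d A k m c w).card := by exact_mod_cast h1
    have h2' : ((G.biUnion fun w => F ∩ XX d A k m c w).card : ℝ)
        ≤ ∑ w ∈ G, ((F ∩ XX d A k m c w).card : ℝ) := by exact_mod_cast h2
    have h3' : ((All \ G.biUnion fun w => XX d A k m c w).card : ℝ)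
        + ∑ w ∈ G, ((XX d A k m c w).card : ℝ) = All.card := by exact_mod_cast h3
    linarith
  have hAllcard : (All.card : ℝ) ≤ A / (2 * 3 ^ m) + 1 := by
    have := cls_card_le Set.univ (by linarith : A ≤ 2 * A) m isCoprime_one_left c
    rw [show 2 * A - A = A by ring] at this
    exact this
  have hXcard : ∑ w ∈ G, (A / (2 * 3 ^ m) * wwt w - 1) ≤ ∑ w ∈ G, ((XX d A k m c w).card : ℝ) :=
    sum_le_sum fun w _ => XX_card d k m c w
  rw [sum_sub_distrib, ← mul_sum, sum_const, nsmul_eq_mul, mul_one] at hXcard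
  -- step 2 and 3
  have hstep : ∀ w ∈ G, ((F ∩ XX d A k m c w).card : ℝ)
      ≤ (cls (S' w.sum) (A * 3 ^ k / 2 ^ w.sum) (2 * (A * 3 ^ k / 2 ^ w.sum)) (k + m) (2 ^ w.sum)
          (d * Wo w + 3 ^ k * c)).card + (|(d : ℝ)| + 1) := by
    intro w hw
    obtain ⟨hlen, hlet, hwTm⟩ := hGprop w hw
    set T := w.sum with hT
    set L := A * 3 ^ k / 2 ^ T with hL
    have h2T : (0 : ℝ) < 2 ^ T := by positivity
    set s : ℝ := d * Wo w / 2 ^ T with hs
    have hinj : (F ∩ XX d A k m c w).card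
        ≤ (cls (S' T) (L + s) (2 * L + s) (k + m) (2 ^ T) (d * Wo w + 3 ^ k * c)).card := by
      apply card_le_card_of_injOn (fun M => (3 ^ k * M + d * Wo w) / 2 ^ T)
      · intro M hM
        rw [mem_coe, mem_inter] at hM
        obtain ⟨hMF, hMX⟩ := hM
        obtain ⟨x, hx, hV⟩ := XX_word hlen hMX
        have hMo := Vw_odd_left hd hlet (hne w hw) hV
        unfold Vw at hV
        rw [hlen] at hV
        have hx2 : (3 ^ k * M + d * Wo w) / 2 ^ T = x := by
          rw [hV, Int.mul_ediv_cancel_left _ (by positivity)]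
        rw [mem_coe, mem_cls]
        beta_reduce
        rw [hx2]
        rw [hF, mem_cls] at hMF
        have hVR : (3 : ℝ) ^ k * M + d * Wo w = 2 ^ T * x := by exact_mod_cast hV
        have hxR : (x : ℝ) = (3 ^ k * M + d * Wo w) / 2 ^ T := by
          rw [eq_div_iff h2T.ne']; linarith
        refine ⟨⟨?_, ?_⟩, hx, ?_, ?_⟩
        · rw [hxR, hL, hs, ← add_div]
          apply div_le_div_of_nonneg_right _ h2T.le
          have := mul_le_mul_of_nonneg_right hMF.1.1 (by positivity : (0 : ℝ) ≤ 3 ^ k)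
          linarith
        · rw [hxR, hL, hs, ← mul_div_assoc, ← add_div]
          apply div_lt_div_of_pos_right _ h2T
          have := mul_lt_mul_of_pos_right hMF.1.2 (by positivity : (0 : ℝ) < 3 ^ k)
          linarith
        · apply hpath w hw M x hMo hx hMF.1.1 hMF.1.2 hMF.2.2.1
          unfold Vw; rw [hlen]; exact hV
        · rw [← hV, pow_add, show 3 ^ k * M + d * (Wo w : ℤ) - (d * Wo w + 3 ^ k * c)
            = 3 ^ k * (1 * M - c) by ring]
          exact mul_dvd_mul_left _ hMF.2.2.2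
      · intro M hM M' hM' hMM
        rw [mem_coe, mem_inter] at hM hM'
        obtain ⟨x, hx, hV⟩ := XX_word hlen hM.2
        obtain ⟨x', hx', hV'⟩ := XX_word hlen hM'.2
        unfold Vw at hV hV'
        rw [hlen] at hV hV'
        simp only at hMM
        rw [hV, hV', Int.mul_ediv_cancel_left _ (by positivity),
          Int.mul_ediv_cancel_left _ (by positivity)] at hMM
        rw [hMM] at hV
        have : (3 : ℤ) ^ k * M = 3 ^ k * M' := by linarith
        exact mul_left_cancel₀ (by positivity) this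
    have hsabs : |s| ≤ |(d : ℝ)| * (3 / 2) ^ k := by
      rw [hs, abs_div, abs_mul, abs_of_pos h2T, div_le_iff₀ h2T, mul_assoc]
      apply mul_le_mul_of_nonneg_left _ (abs_nonneg _)
      rw [abs_of_nonneg (by positivity)]
      have := Wo_le hlet
      rw [hlen] at this
      have h3 : (2 : ℝ) ^ T * ((3 / 2 : ℝ) ^ k - 1) ≤ (3 / 2) ^ k * 2 ^ T := by
        have : (0 : ℝ) < 2 ^ T := h2T
        nlinarith
      exact this.trans h3
    have h4 := shift_card (S' T) (L := L) hsabs (k + m) (cop_two_pow T) (d * Wo w + 3 ^ k * c)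
    have h5 : |(d : ℝ)| * (3 / 2) ^ k / (2 * 3 ^ (k + m)) ≤ |(d : ℝ)| := by
      rw [div_le_iff₀ (by positivity)]
      apply mul_le_mul_of_nonneg_left _ (abs_nonneg _)
      calc (3 / 2 : ℝ) ^ k ≤ 3 ^ k := pow_le_pow_left₀ (by norm_num) (by norm_num) k
        _ ≤ 3 ^ (k + m) := pow_le_pow_right₀ (by norm_num) (by omega)
        _ ≤ 2 * 3 ^ (k + m) := by linarith [(by positivity : (0 : ℝ) < 3 ^ (k + m))]
    have h6 : ((F ∩ XX d A k m c w).card : ℝ)
        ≤ (cls (S' T) (L + s) (2 * L + s) (k + m) (2 ^ T) (d * Wo w + 3 ^ k * c)).card := by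
      exact_mod_cast hinj
    linarith
  have hcard2 : ∑ w ∈ G, ((F ∩ XX d A k m c w).card : ℝ)
      ≤ ∑ w ∈ G, ((cls (S' w.sum) (A * 3 ^ k / 2 ^ w.sum) (2 * (A * 3 ^ k / 2 ^ w.sum)) (k + m) (2 ^ w.sum)
          (d * Wo w + 3 ^ k * c)).card : ℝ) + (|(d : ℝ)| + 1) * G.card := by
    refine (sum_le_sum hstep).trans ?_
    rw [sum_add_distrib, sum_const, nsmul_eq_mul]
    linarith
  -- step 4
  have hmixsum : ∑ w ∈ G, ((cls (S' w.sum) (A * 3 ^ k / 2 ^ w.sum) (2 * (A * 3 ^ k / 2 ^ w.sum)) (k + m)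
        (2 ^ w.sum) (d * Wo w + 3 ^ k * c)).card : ℝ)
      ≤ (∑ w ∈ G, ((cls (S' w.sum) (A * 3 ^ k / 2 ^ w.sum) (2 * (A * 3 ^ k / 2 ^ w.sum)) m'
            (2 ^ w.sum) (d * Wo w)).card : ℝ)) / 3 ^ (k + m - m')
        + (A / (2 * 3 ^ m) + 2 ^ Tm)
            * ∑ T ∈ range (k * cap + 1), dev (FWT cap k T) wwt (fun w => (Wo w : ℤ)) (k + m) m' := by
    rw [hG, sum_GW, sum_GW, sum_div]
    have hT : ∀ T ∈ Icc Tl Tm, ∑ w ∈ FWT cap k T, ((cls (S' w.sum) (A * 3 ^ k / 2 ^ w.sum)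
          (2 * (A * 3 ^ k / 2 ^ w.sum)) (k + m) (2 ^ w.sum) (d * Wo w + 3 ^ k * c)).card : ℝ)
        ≤ (∑ w ∈ FWT cap k T, ((cls (S' w.sum) (A * 3 ^ k / 2 ^ w.sum) (2 * (A * 3 ^ k / 2 ^ w.sum)) m'
            (2 ^ w.sum) (d * Wo w)).card : ℝ)) / 3 ^ (k + m - m')
          + (A / (2 * 3 ^ m) + 2 ^ Tm) * dev (FWT cap k T) wwt (fun w => (Wo w : ℤ)) (k + m) m' := by
      intro T hT
      rw [mem_Icc] at hT
      have hsum : ∀ w ∈ FWT cap k T, w.sum = T := fun w hw => by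
        unfold FWT at hw; exact (mem_filter.1 hw).2
      have h1 := mixT hd3 (S' T) (L := A * 3 ^ k / 2 ^ T) (by positivity) cap k m m' T hm' hk c
      have e1 : ∑ w ∈ FWT cap k T, ((cls (S' w.sum) (A * 3 ^ k / 2 ^ w.sum)
          (2 * (A * 3 ^ k / 2 ^ w.sum)) (k + m) (2 ^ w.sum) (d * Wo w + 3 ^ k * c)).card : ℝ)
          = ∑ w ∈ FWT cap k T, ((cls (S' T) (A * 3 ^ k / 2 ^ T)
          (2 * (A * 3 ^ k / 2 ^ T)) (k + m) (2 ^ T) (d * Wo w + 3 ^ k * c)).card : ℝ) :=
        sum_congr rfl fun w hw => by rw [hsum w hw]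
      have e2 : ∑ w ∈ FWT cap k T, ((cls (S' w.sum) (A * 3 ^ k / 2 ^ w.sum) (2 * (A * 3 ^ k / 2 ^ w.sum)) m'
            (2 ^ w.sum) (d * Wo w)).card : ℝ)
          = ∑ w ∈ FWT cap k T, ((cls (S' T) (A * 3 ^ k / 2 ^ T) (2 * (A * 3 ^ k / 2 ^ T)) m'
            (2 ^ T) (d * Wo w)).card : ℝ) :=
        sum_congr rfl fun w hw => by rw [hsum w hw]
      rw [e1, e2]
      refine h1.trans ?_
      have hdev : 0 ≤ dev (FWT cap k T) wwt (fun w => (Wo w : ℤ)) (k + m) m' :=
        sum_nonneg fun _ _ => abs_nonneg _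
      have hcoef : 2 ^ T * (A * 3 ^ k / 2 ^ T / (2 * 3 ^ (k + m)) + 1) ≤ A / (2 * 3 ^ m) + 2 ^ Tm := by
        have h2 : (2 : ℝ) ^ T * (A * 3 ^ k / 2 ^ T / (2 * 3 ^ (k + m)) + 1)
            = A / (2 * 3 ^ m) + 2 ^ T := by
          rw [pow_add]
          field_simp
        rw [h2]
        have h3 : (2 : ℝ) ^ T ≤ 2 ^ Tm := pow_le_pow_right₀ (by norm_num) hT.2
        linarith
      have := mul_le_mul_of_nonneg_right hcoef hdev
      linarith
    refine (sum_le_sum hT).trans ?_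
    rw [sum_add_distrib, ← mul_sum]
    apply add_le_add_right
    apply mul_le_mul_of_nonneg_left _ (by positivity)
    apply sum_le_sum_of_subset_of_nonneg
    · intro T hT
      rw [mem_Icc] at hT
      rw [mem_range]; omega
    · intro T _ _; exact sum_nonneg fun _ _ => abs_nonneg _
  have hGc := GW_card cap k Tl Tm
  rw [← hG] at hGc
  have hfin : (|(d : ℝ)| + 2) * G.card ≤ (|(d : ℝ)| + 2) * 2 ^ Tm :=
    mul_le_mul_of_nonneg_left hGc (by positivity)
  have e3 : A / (2 * 3 ^ m) * (1 - ∑ w ∈ G, wwt w)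
      = A / (2 * 3 ^ m) - A / (2 * 3 ^ m) * ∑ w ∈ G, wwt w := by ring
  rw [e3]
  linarith

end Pool.Agent.H499R2.ND
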