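import Pool.Agent.H33.G.R_seed8.H499R2.NDG2

/-! Natural density: iteration over the scales for families of sets. -/

set_option autoImplicit false

namespace Pool.Agent.H499R2.ND

open Pool.Agent.H320R2.PD Finset

/-- ALL SCALES, for a family of sets with a transition rule -/
theorem all_scalesG {N : ℕ} (hN : 20 ≤ N) (B : ℕ) (hB : 1 ≤ B) {d : ℤ} (hd : Odd d)
    (hd3 : IsCoprime d 3) :
    ∃ K : ℝ, 0 < K ∧ ∀ y : ℝ, 0 < y → 1000 ≤ Real.log (y / 2) → ∀ (ι : Type) (S : ι → Set ℤ)
      (ok : ι → ℝ → Prop) (nxt : ι → ℕ → ι),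
      (∀ τ, ∀ x ∈ S τ, 0 < x → y < (x : ℝ)) →
      (∀ τ A, ok τ A → y / 2 < A → ∀ T : ℕ, (2 * N - 1) * ⌊Real.log A / 2⌋₊ ≤ N * T →
        N * T ≤ (2 * N + 1) * ⌊Real.log A / 2⌋₊ → ok (nxt τ T) (A * 3 ^ ⌊Real.log A / 2⌋₊ / 2 ^ T)) →
      (∀ τ A, ok τ A → y / 2 < A → ∀ w ∈ GW (3 * ⌊Real.log A / 2⌋₊) ⌊Real.log A / 2⌋₊
        (Tlo N ⌊Real.log A / 2⌋₊) (Thi N ⌊Real.log A / 2⌋₊), ∀ M x : ℤ, Odd M → Odd x → A ≤ (M : ℝ) →
        (M : ℝ) < 2 * A → M ∈ S τ → Vw d w M x → x ∈ S (nxt τ w.sum)) →
      ∀ τ : ι, ∀ A : ℝ, 0 < A → ok τ A → ∀ m : ℕ,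
        (y / 2 < A → (m : ℝ) ^ 2 ≤ Real.log A) → PB (S τ) A m (K / (Real.log (y / 2)) ^ B) := by
  obtain ⟨C, hC, herr⟩ := err_boundN N hN B d
  refine ⟨20 * C, by positivity, ?_⟩
  intro y hy ht0 ι S ok nxt hSy hok hpath
  set t0 := Real.log (y / 2) with ht0def
  have ht0pos : 0 < t0 := by linarith
  have hlow : ∀ τ : ι, ∀ A : ℝ, 0 < A → A ≤ y / 2 → ∀ m : ℕ, ∀ ρ : ℝ, 0 ≤ ρ → PB (S τ) A m ρ := by
    intro τ A hA hAy m ρ hρ u v hu
    have : cls (S τ) A (2 * A) m u v = ∅ := by
      rw [Finset.eq_empty_iff_forall_notMem]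
      intro x hx
      rw [mem_cls] at hx
      have hx0 : (0 : ℝ) < x := by linarith [hx.1.1]
      have := hSy τ x hx.2.2.1 (by exact_mod_cast hx0)
      linarith [hx.1.2]
    rw [this, card_empty, Nat.cast_zero]
    positivity
  -- main claim
  have main : ∀ n : ℕ, ∀ τ : ι, ∀ A : ℝ, 0 < A → ok τ A → y / 2 < A → Real.log A ≤ t0 + n → ∀ m : ℕ,
      (m : ℝ) ^ 2 ≤ Real.log A → PB (S τ) A m (10 * C * (2 / t0 ^ B - 1 / (Real.log A) ^ B)) := by
    intro n
    induction n with
    | zero =>
      intro τ A hA _ hyA hlog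
      exfalso
      have : t0 < Real.log A := Real.log_lt_log (by positivity) hyA
      rw [Nat.cast_zero, add_zero] at hlog
      linarith
    | succ n ih =>
      intro τ A hA hokA hyA hlog m hm
      have hok1 := hok τ A hokA hyA
      have hpath1 := hpath τ A hokA hyA
      set t := Real.log A with htdef
      have ht0t : t0 < t := Real.log_lt_log (by positivity) hyA
      have htpos : 0 < t := by linarith
      have ht1000 : 1000 ≤ t := by linarith
      obtain ⟨k, hk⟩ : ∃ k : ℕ, k = ⌊t / 2⌋₊ := ⟨_, rfl⟩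
      obtain ⟨m', hm'⟩ : ∃ m' : ℕ, m' = ⌊Real.sqrt (0.8 * t)⌋₊ := ⟨_, rfl⟩
      rw [← hk] at hok1 hpath1
      have hk2 : t / 2 - 1 ≤ k := by rw [hk]; linarith [Nat.lt_floor_add_one (t / 2)]
      have hk1N : 1 ≤ k := by
        have : (1 : ℝ) ≤ k := by linarith
        exact_mod_cast this
      have hm'sq : (m' : ℝ) ^ 2 ≤ 0.8 * t := by
        have h1 : (m' : ℝ) ≤ Real.sqrt (0.8 * t) := by
          rw [hm']; exact Nat.floor_le (Real.sqrt_nonneg _)
        calc (m' : ℝ) ^ 2 ≤ (Real.sqrt (0.8 * t)) ^ 2 :=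
              pow_le_pow_left₀ (Nat.cast_nonneg _) h1 2
          _ = 0.8 * t := Real.sq_sqrt (by linarith)
      have hm'k : m' ≤ k := by
        have : (m' : ℝ) ≤ k := by
          have h0 : (0 : ℝ) ≤ m' := Nat.cast_nonneg _
          by_contra hcon
          push Not at hcon
          nlinarith
        exact_mod_cast this
      have hE := herr A hA ht1000 k m m' hm hk hm'
      rw [← htdef] at hE
      have hpt : 0 < t ^ B := by positivity
      have hpt0 : 0 < t0 ^ B := by positivity
      have hmono : ∀ s : ℝ, t0 ≤ s → 1 / s ^ B ≤ 1 / t0 ^ B := fun s hs =>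
        one_div_le_one_div_of_le hpt0 (pow_le_pow_left₀ ht0pos.le hs B)
      have hCt : C / t ^ B = C * (1 / t ^ B) := by ring
      have h2t0 : 2 / t0 ^ B = 2 * (1 / t0 ^ B) := by ring
      rcases lt_or_ge (0.9 * t) t0 with hcase | hcase
      · -- all next windows are below `y`
        have hst := stageG hN hd hd3 (S := S τ) (fun T => S (nxt τ T)) hA hk1N hm'k (m := m) (le_refl (0 : ℝ))
          hpath1 (fun T hT1 hT2 => by
          have hsp := spread20 hN hT1 hT2
          apply hlow _ _ (by positivity) _ _ _ (le_refl _)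
          have hn := (next_scale hA ht1000 hk hsp.1 hsp.2).2
          have : Real.log (A * 3 ^ k / 2 ^ T) < Real.log (y / 2) := by
            rw [← ht0def]; exact lt_of_le_of_lt hn hcase
          exact ((Real.log_lt_log_iff (by positivity) (by positivity)).1 this).le)
        intro u v hu
        refine (hst u v hu).trans ?_
        apply mul_le_mul_of_nonneg_right _ (by positivity)
        have h1 := hmono t ht0t.le
        have h2 : 0 < C * (1 / t ^ B) := by positivity
        have h3 : 0 ≤ C * (1 / t0 ^ B - 1 / t ^ B) := mul_nonneg hC.le (by linarith)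
        rw [h2t0]
        nlinarith
      · have hρ : 0 ≤ 10 * C * (2 / t0 ^ B - 1 / (0.9 * t) ^ B) := by
          have h1 := hmono (0.9 * t) hcase
          have h2 : 0 < 1 / t0 ^ B := by positivity
          rw [h2t0]
          apply mul_nonneg (by positivity)
          linarith
        have hst := stageG hN hd hd3 (S := S τ) (fun T => S (nxt τ T)) hA hk1N hm'k (m := m) hρ
          hpath1 (fun T hT1 hT2 => by
          have hsp := spread20 hN hT1 hT2
          have hn := next_scale hA ht1000 hk hsp.1 hsp.2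
          have hok' := hok1 T hT1 hT2
          set A' := A * 3 ^ k / 2 ^ T with hA'
          have hA'pos : 0 < A' := by positivity
          rcases le_or_gt A' (y / 2) with hc | hc
          · exact hlow _ A' hA'pos hc m' _ hρ
          · have hlt : t0 < Real.log A' := Real.log_lt_log (by positivity) hc
            have hih := ih (nxt τ T) A' hA'pos hok' hc (by
              have h9 : Real.log A' ≤ 0.9 * t := hn.2
              have : Real.log A ≤ t0 + (n + 1 : ℕ) := hlog
              push_cast at this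
              linarith) m' (by linarith [hn.1])
            intro u v hu
            refine (hih u v hu).trans ?_
            apply mul_le_mul_of_nonneg_right _ (by positivity)
            apply mul_le_mul_of_nonneg_left _ (by positivity)
            have : 1 / (0.9 * t) ^ B ≤ 1 / (Real.log A') ^ B :=
              one_div_le_one_div_of_le (pow_pos (by linarith) B) (pow_le_pow_left₀ (by linarith) hn.2 B)
            linarith)
        intro u v hu
        refine (hst u v hu).trans ?_
        apply mul_le_mul_of_nonneg_right _ (by positivity)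
        have h1 := pow_09 B hB htpos
        have h2 := mul_le_mul_of_nonneg_left h1 (by positivity : 0 ≤ 10 * C)
        rw [mul_sub, mul_sub]
        have h3 : 10 * C * ((11 / 10) * (1 / t ^ B)) = 10 * C * (1 / t ^ B) + C * (1 / t ^ B) := by ring
        linarith
  intro τ A hA hokA m hm
  rcases le_or_gt A (y / 2) with hc | hc
  · exact hlow τ A hA hc m _ (by positivity)
  · obtain ⟨n, hn⟩ := exists_nat_ge (Real.log A - t0)
    have h1 := main n τ A hA hokA hc (by linarith) m (hm hc)
    intro u v hu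
    refine (h1 u v hu).trans ?_
    apply mul_le_mul_of_nonneg_right _ (by positivity)
    have hlt : t0 < Real.log A := Real.log_lt_log (by positivity) hc
    have : 0 < 1 / (Real.log A) ^ B := by
      have : 0 < Real.log A := by linarith
      positivity
    have h2 : 20 * C / t0 ^ B = 10 * C * (2 / t0 ^ B) := by ring
    rw [h2]
    apply mul_le_mul_of_nonneg_left _ (by positivity)
    linarith

end Pool.Agent.H499R2.ND
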