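import Pool.Agent.H33.G.R_seed8.H499R2.NDHarm

/-! Natural density: the harmonic relation. -/

set_option autoImplicit false

namespace Pool.Agent.H499R2.ND

open Pool.Agent.H320R2.PD Finset

/-- equidistribution mod 3 of an invariant set -/
theorem equi_all {d : ℤ} (hd : Odd d) (hd3 : IsCoprime d 3) : ∃ K : ℝ, 0 < K ∧
    ∀ S : Set ℤ, Inv d S → ∀ A : ℝ, 0 < A → 1001 ≤ Real.log A → ∀ c c' : ℤ,
      ((wc S A (2 * A) 3 c).card : ℝ)
        ≤ (wc S A (2 * A) 3 c').card + K / (Real.log A) ^ 2 * A := by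
  obtain ⟨C, hC, he⟩ := equi_odd 2 hd hd3
  refine ⟨C + 2 * 1002 ^ 2, by positivity, ?_⟩
  intro S hS
  have hl2 := Real.log_two_gt_d9
  have hl2' := Real.log_two_lt_d9
  set K := C + 2 * 1002 ^ 2 with hK
  have hKpos : 0 < K := by positivity
  have htriv : ∀ A : ℝ, 0 < A → 1001 ≤ Real.log A → Real.log A ≤ 1002 → ∀ c c' : ℤ,
      ((wc S A (2 * A) 3 c).card : ℝ)
        ≤ (wc S A (2 * A) 3 c').card + K / (Real.log A) ^ 2 * A := by
    intro A hA h1 h2 c c'
    have h3 := wc_card_le S (by linarith : A ≤ 2 * A) (q := 3) (by norm_num) c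
    have h4 : 1 ≤ A := by
      have : 0 < Real.log A := by linarith
      exact (Real.log_pos_iff hA.le).1 this |>.le
    have h5 : 2 ≤ K / (Real.log A) ^ 2 := by
      rw [le_div_iff₀ (by have : 0 < Real.log A := by linarith
                          positivity)]
      have : (Real.log A) ^ 2 ≤ 1002 ^ 2 := pow_le_pow_left₀ (by linarith) h2 2
      rw [hK]; linarith
    have h6 : 2 * A ≤ K / (Real.log A) ^ 2 * A := mul_le_mul_of_nonneg_right h5 hA.le
    have h7 : (0 : ℝ) ≤ (wc S A (2 * A) 3 c').card := Nat.cast_nonneg _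
    push_cast at h3
    have h8 : (2 * A - A) / 3 + 1 ≤ 2 * A := by linarith
    linarith
  have main : ∀ n : ℕ, ∀ A : ℝ, 0 < A → 1001 ≤ Real.log A → Real.log A ≤ 1002 + n * Real.log 2 →
      ∀ c c' : ℤ, ((wc S A (2 * A) 3 c).card : ℝ)
        ≤ (wc S A (2 * A) 3 c').card + K / (Real.log A) ^ 2 * A := by
    intro n
    induction n with
    | zero =>
      intro A hA h1 h2 c c'
      exact htriv A hA h1 (by simpa using h2) c c'
    | succ n ih =>
      intro A hA h1 h2 c c'
      rcases le_or_gt (Real.log A) 1002 with h3 | h3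
      · exact htriv A hA h1 h3 c c'
      · have hlog : Real.log (A / 2) = Real.log A - Real.log 2 := Real.log_div hA.ne' (by norm_num)
        have hih := ih (A / 2) (by linarith) (by rw [hlog]; linarith) (by
          rw [hlog]; push_cast at h2; linarith) (2 * c) (2 * c')
        have hodd := he S hS.fwd hS.compl.fwd A hA (by linarith) 1 (by
          norm_num; linarith) c c'
        have e1 := wc_parity hS A c
        have e2 := wc_parity hS A c'
        have e1' : ((wc S A (2 * A) 3 c).card : ℝ)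
            = (cls S A (2 * A) 1 1 c).card + (wc S (A / 2) (2 * (A / 2)) 3 (2 * c)).card := by
          exact_mod_cast e1
        have e2' : ((wc S A (2 * A) 3 c').card : ℝ)
            = (cls S A (2 * A) 1 1 c').card + (wc S (A / 2) (2 * (A / 2)) 3 (2 * c')).card := by
          exact_mod_cast e2
        rw [e1', e2']
        set t := Real.log A with ht
        have htpos : 0 < t := by linarith
        have hne : (0 : ℝ) < (t - Real.log 2) ^ 2 := by
          have : 0 < t - Real.log 2 := by linarith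
          positivity
        have hsq : 0.998 * t ^ 2 ≤ (t - Real.log 2) ^ 2 := by nlinarith
        have hK1 : K / (Real.log (A / 2)) ^ 2 * (A / 2) ≤ 0.51 * (K / t ^ 2 * A) := by
          rw [hlog]
          have : K / (t - Real.log 2) ^ 2 ≤ K / (0.998 * t ^ 2) :=
            div_le_div_of_nonneg_left hKpos.le (by positivity) hsq
          have h9 : K / (0.998 * t ^ 2) ≤ 1.01 * (K / t ^ 2) := by
            rw [div_mul_eq_div_div_swap, div_le_iff₀ (by norm_num)]
            have : 0 < K / t ^ 2 := by positivity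
            nlinarith
          have h10 : 0 < K / t ^ 2 * A := by positivity
          calc K / (t - Real.log 2) ^ 2 * (A / 2) ≤ (1.01 * (K / t ^ 2)) * (A / 2) :=
                mul_le_mul_of_nonneg_right (this.trans h9) (by linarith)
            _ = 0.505 * (K / t ^ 2 * A) := by ring
            _ ≤ _ := by linarith
        have hC1 : C / t ^ 2 * (A / (2 * 3 ^ 1)) ≤ 0.49 * (K / t ^ 2 * A) := by
          have h9 : C / t ^ 2 ≤ K / t ^ 2 := by
            apply div_le_div_of_nonneg_right _ (by positivity)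
            rw [hK]; linarith [(by positivity : (0 : ℝ) < 2 * 1002 ^ 2)]
          have h10 : 0 < K / t ^ 2 * A := by positivity
          calc C / t ^ 2 * (A / (2 * 3 ^ 1)) ≤ K / t ^ 2 * (A / (2 * 3 ^ 1)) :=
                mul_le_mul_of_nonneg_right h9 (by positivity)
            _ = (K / t ^ 2 * A) / 6 := by ring
            _ ≤ _ := by linarith
        linarith
  intro A hA h1 c c'
  obtain ⟨n, hn⟩ := exists_nat_ge ((Real.log A - 1002) / Real.log 2)
  have : Real.log A ≤ 1002 + n * Real.log 2 := by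
    rw [div_le_iff₀ (by linarith)] at hn; linarith
  exact main n A hA h1 this c c'

/-- THE HARMONIC RELATION -/
theorem harm {d : ℤ} (hd : Odd d) (hd3 : IsCoprime d 3) : ∃ K : ℝ, 0 < K ∧
    ∀ S : Set ℤ, Inv d S → ∀ A : ℝ, 0 < A → 1002 ≤ Real.log A →
      |((wc S A (2 * A) 1 0).card : ℝ) - (wc S (A / 2) (2 * (A / 2)) 1 0).card
        - (wc S (3 * A / 2) (2 * (3 * A / 2)) 1 0).card / 3| ≤ K / (Real.log A) ^ 2 * A := by
  obtain ⟨K, hK, he⟩ := equi_all hd hd3
  refine ⟨2 * K + 2 * |(d : ℝ)| + 2, by positivity, ?_⟩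
  intro S hS A hA ht
  have h1 := wc_parity_one hS A
  have h2 := cls_odd_image hd hS A
  have h1' : ((wc S A (2 * A) 1 0).card : ℝ)
      = (cls S A (2 * A) 0 1 0).card + (wc S (A / 2) (2 * (A / 2)) 1 0).card := by exact_mod_cast h1
  rw [h1', h2]
  set L := 3 * A / 2 with hL
  have hLpos : 0 < L := by positivity
  have hlogL : Real.log A ≤ Real.log L := Real.log_le_log hA (by rw [hL]; linarith)
  have h3 := wc_shift_le S L (d / 2) 3 (2 * d)
  have h4 := wc_shift_ge S L (d / 2) 3 (2 * d)
  have hthree : ((wc S L (2 * L) 1 0).card : ℝ)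
      = (wc S L (2 * L) 3 0).card + (wc S L (2 * L) 3 1).card + (wc S L (2 * L) 3 2).card := by
    exact_mod_cast wc_three S L (2 * L)
  have he' := fun c c' => he S hS L hLpos (by linarith) c c'
  set W := fun c : ℤ => ((wc S L (2 * L) 3 c).card : ℝ) with hW
  set D := K / (Real.log L) ^ 2 * L with hD
  have u0 := he' (2 * d) 0
  have u1 := he' (2 * d) 1
  have u2 := he' (2 * d) 2
  have v0 := he' 0 (2 * d)
  have v1 := he' 1 (2 * d)
  have v2 := he' 2 (2 * d)
  have hDle : D ≤ 3 / 2 * (K / (Real.log A) ^ 2 * A) := by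
    rw [hD, hL]
    have htpos : 0 < Real.log A := by linarith
    have : K / (Real.log (3 * A / 2)) ^ 2 ≤ K / (Real.log A) ^ 2 := by
      apply div_le_div_of_nonneg_left hK.le (by positivity)
      exact pow_le_pow_left₀ htpos.le hlogL 2
    calc K / (Real.log (3 * A / 2)) ^ 2 * (3 * A / 2) ≤ K / (Real.log A) ^ 2 * (3 * A / 2) :=
          mul_le_mul_of_nonneg_right this (by positivity)
      _ = _ := by ring
  have hD0 : 0 ≤ D := by positivity
  have hd2 : |(d : ℝ) / 2| = |(d : ℝ)| / 2 := by rw [abs_div, abs_of_pos (by norm_num : (0 : ℝ) < 2)]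
  rw [hd2] at h3 h4
  -- the constant is absorbed
  have habs : (2 * |(d : ℝ)| + 2) / (Real.log A) ^ 2 * A ≥ |(d : ℝ)| + 1 := by
    have htpos : 0 < Real.log A := by linarith
    have h5 : (Real.log A) ^ 2 / 2 ≤ A := by
      have := Real.pow_div_factorial_le_exp (Real.log A) htpos.le 2
      rw [Real.exp_log hA] at this
      simpa using this
    rw [ge_iff_le, div_mul_eq_mul_div, le_div_iff₀ (by positivity)]
    have : 0 ≤ |(d : ℝ)| := abs_nonneg _
    nlinarith
  have hfin : (2 * K + 2 * |(d : ℝ)| + 2) / (Real.log A) ^ 2 * A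
      = 2 * (K / (Real.log A) ^ 2 * A) + (2 * |(d : ℝ)| + 2) / (Real.log A) ^ 2 * A := by ring
  rw [hfin]
  have h0d : 0 ≤ |(d : ℝ)| := abs_nonneg _
  have hKA : 0 ≤ K / (Real.log A) ^ 2 * A := by positivity
  rw [abs_le]
  constructor <;> linarith

end Pool.Agent.H499R2.ND
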