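import Pool.Agent.H33.G.R_seed8.H499R2.NDCor2

/-! Natural density: mean values of bounded invariant functions, and Abel means. -/

set_option autoImplicit false

namespace Pool.Agent.H499R2.ND

open Pool.Agent.H320R2.PD Finset Filter Topology

/-- labels of the classes of `T` on the positive integers: least elements -/
def Lab (a : ℕ) : Prop := 1 ≤ a ∧ ∀ b : ℕ, 1 ≤ b → (∃ i j : ℕ, Tn^[i] a = Tn^[j] b) → a ≤ b

theorem Tn_pos {n : ℕ} (hn : 1 ≤ n) : 1 ≤ Tn n := by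
  simp only [Tn]; split_ifs <;> omega

theorem Tn_iter_pos {n : ℕ} (hn : 1 ≤ n) (k : ℕ) : 1 ≤ Tn^[k] n := by
  induction k with
  | zero => exact hn
  | succ k ih => rw [Function.iterate_succ_apply']; exact Tn_pos ih

theorem exists_lab {n : ℕ} (hn : 1 ≤ n) : ∃ a, Lab a ∧ a ≤ n ∧ ∃ i j : ℕ, Tn^[i] a = Tn^[j] n := by
  classical
  have hex : ∃ a : ℕ, 1 ≤ a ∧ ∃ i j : ℕ, Tn^[i] a = Tn^[j] n := ⟨n, hn, 0, 0, rfl⟩
  obtain ⟨h1, i, j, hij⟩ := Nat.find_spec hex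
  refine ⟨Nat.find hex, ⟨h1, fun b hb ⟨i', j', h'⟩ => Nat.find_min' hex ⟨hb, ?_⟩⟩,
    Nat.find_min' hex ⟨hn, 0, 0, rfl⟩, i, j, hij⟩
  refine ⟨i + j', j + i', ?_⟩
  rw [Function.iterate_add_apply, ← h', ← Function.iterate_add_apply, add_comm i i',
    Function.iterate_add_apply, hij, ← Function.iterate_add_apply, add_comm i' j]

/-- class of `a` as a set of positive integers -/
def Cn (a : ℕ) (n : ℕ) : Prop := ∃ i j : ℕ, Tn^[i] n = Tn^[j] a

theorem Cn_inv (a n : ℕ) : Cn a n ↔ Cn a (Tn n) := by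
  constructor
  · rintro ⟨i, j, h⟩
    refine ⟨i, j + 1, ?_⟩
    rw [← Function.iterate_succ_apply, Function.iterate_succ_apply', h, ← Function.iterate_succ_apply' Tn]
  · rintro ⟨i, j, h⟩
    exact ⟨i + 1, j, by rw [Function.iterate_succ_apply]; exact h⟩

theorem lab_unique {a b n : ℕ} (ha : Lab a) (hb : Lab b) (h : Cn a n) (h' : Cn b n) : a = b := by
  obtain ⟨i, j, h⟩ := h
  obtain ⟨k, l, h'⟩ := h'
  have e : Tn^[k + j] a = Tn^[i + l] b := by
    rw [Function.iterate_add_apply, ← h, ← Function.iterate_add_apply, add_comm k i,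
      Function.iterate_add_apply, h', ← Function.iterate_add_apply]
  have h1 := ha.2 b hb.1 ⟨_, _, e⟩
  have h2 := hb.2 a ha.1 ⟨_, _, e.symm⟩
  omega

theorem inv_fun_iter {α : Type*} {c : ℕ → α} (hc : ∀ n, 1 ≤ n → c n = c (Tn n)) {n : ℕ} (hn : 1 ≤ n) (k : ℕ) :
    c n = c (Tn^[k] n) := by
  induction k generalizing n with
  | zero => rfl
  | succ k ih => rw [hc n hn, ih (Tn_pos hn), Function.iterate_succ_apply]

theorem inv_fun_class {α : Type*} {c : ℕ → α} (hc : ∀ n, 1 ≤ n → c n = c (Tn n)) {a n : ℕ} (ha : 1 ≤ a)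
    (hn : 1 ≤ n) (h : Cn a n) : c n = c a := by
  obtain ⟨i, j, h⟩ := h
  rw [inv_fun_iter hc hn i, h, ← inv_fun_iter hc ha j]

/-- number of `n ≤ N` with the property `P` -/
noncomputable def cnt (P : ℕ → Prop) (N : ℕ) : ℝ := ({n : ℕ | 1 ≤ n ∧ n ≤ N ∧ P n}.ncard : ℝ)

theorem cnt_eq (P : ℕ → Prop) [DecidablePred P] (N : ℕ) :
    cnt P N = (((Icc 1 N).filter P).card : ℝ) := by
  unfold cnt
  congr 1
  rw [← Set.ncard_coe_finset]
  congr 1
  ext n
  rw [mem_coe, mem_filter, mem_Icc]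
  exact ⟨fun h => ⟨⟨h.1, h.2.1⟩, h.2.2⟩, fun h => ⟨h.1.1, h.1.2, h.2⟩⟩

/-- THE WEIGHTS of the classes -/
theorem weights : ∃ δ : ℕ → ℝ, (∀ a, 1 ≤ a → 0 < δ a) ∧
    (∀ a, 1 ≤ a → Tendsto (fun N : ℕ => cnt (Cn a) N / N) atTop (𝓝 (δ a))) ∧
    HasSum (fun a : {a : ℕ // Lab a} => δ a) 1 := by
  have hs : (1 : ℤ) = 1 ∨ (1 : ℤ) = -1 := Or.inl rfl
  have hex : ∀ a : ℕ, ∃ l : ℝ, HD 1 (NS (Cn a)) l := fun a => by
    obtain ⟨l, _, _, hl⟩ := dens_side odd_one isCoprime_one_left hs (NS_inv (fun n _ => Cn_inv a n))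
    exact ⟨l, hl⟩
  choose δ hδ using hex
  refine ⟨δ, ?_, ?_, ?_⟩
  · intro a ha
    refine one_pos hs (NS_inv (fun n _ => Cn_inv a n)) (a := (a : ℤ)) ⟨by exact_mod_cast ha, ?_⟩
      (by rw [one_mul]; exact_mod_cast ha) (hδ a)
    rw [Int.toNat_natCast]; exact ⟨0, 0, rfl⟩
  · intro a _
    refine (HD_ncard hs (hδ a)).congr fun N => ?_
    rw [NS_ncard]; rfl
  · obtain ⟨l, _, _, hl⟩ := dens_side odd_one isCoprime_one_left hs (NS_inv (P := fun _ => True) (fun n _ => Iff.rfl))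
    have hl1 : l = 1 := by
      obtain ⟨l', _, _, hl'⟩ := dens_side odd_one isCoprime_one_left hs
        (NS_inv (P := fun _ => True) (fun n _ => Iff.rfl)).compl
      have h1 := HD_compl hl hl'
      have h2 := one_eq_zero hs (S := (NS (fun _ => True))ᶜ) (fun a ha h0 => ha ⟨by omega, trivial⟩) hl'
      linarith
    rw [← hl1]
    refine part_sum_one (ι := {a : ℕ // Lab a}) hs (fun a => NS (Cn a.1)) (fun a => δ a.1)
      (fun a => hδ a.1) (fun a b hab => ?_) (S := NS (fun _ => True)) (fun a => NS_inv (fun n _ => Cn_inv a.1 n))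
      (NS_inv (fun n _ => Iff.rfl)) (fun n hn _ => ?_) (fun a n hn _ => ⟨by omega, trivial⟩) hl
    · rw [Set.disjoint_left]
      rintro x ⟨_, hx⟩ ⟨_, hx'⟩
      exact hab (Subtype.ext (lab_unique a.2 b.2 hx hx'))
    · obtain ⟨a, ha, _, i, j, hij⟩ := exists_lab (n := n.toNat) (by omega)
      exact ⟨⟨a, ha⟩, by omega, j, i, hij.symm⟩

/-- MEAN VALUES of bounded invariant functions -/
theorem mean_value {δ : ℕ → ℝ} (hδ : ∀ a, 1 ≤ a → Tendsto (fun N : ℕ => cnt (Cn a) N / N) atTop (𝓝 (δ a)))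
    (hδ0 : ∀ a, 1 ≤ a → 0 < δ a) (hsum : HasSum (fun a : {a : ℕ // Lab a} => δ a) 1)
    {c : ℕ → ℂ} {M : ℝ} (hM : ∀ n, 1 ≤ n → ‖c n‖ ≤ M) (hc : ∀ n, 1 ≤ n → c n = c (Tn n)) :
    Tendsto (fun N : ℕ => (∑ n ∈ Icc 1 N, c n) / N) atTop (𝓝 (∑' a : {a : ℕ // Lab a}, (δ a : ℂ) * c a)) := by
  classical
  have hM0 : 0 ≤ M := (norm_nonneg _).trans (hM 1 le_rfl)
  set L := ∑' a : {a : ℕ // Lab a}, (δ a : ℂ) * c a with hL
  have hsummable : Summable (fun a : {a : ℕ // Lab a} => (δ a : ℂ) * c a) := by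
    apply Summable.of_norm_bounded (g := fun a : {a : ℕ // Lab a} => δ a * M) (hsum.summable.mul_right M)
    intro a
    rw [norm_mul, Complex.norm_real, Real.norm_of_nonneg (hδ0 a.1 a.2.1).le]
    exact mul_le_mul_of_nonneg_left (hM a.1 a.2.1) (hδ0 a.1 a.2.1).le
  rw [Metric.tendsto_atTop]
  intro ε hε
  -- a finite set of classes with almost the whole mass
  have h1 : ∀ᶠ A : Finset {a : ℕ // Lab a} in atTop, 1 - ε / (8 * (M + 1)) < ∑ a ∈ A, δ a.1 := by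
    have := hsum.eventually (lt_mem_nhds (show 1 - ε / (8 * (M + 1)) < 1 by
      have : 0 < ε / (8 * (M + 1)) := by positivity
      linarith))
    exact this
  have h2 : ∀ᶠ A : Finset {a : ℕ // Lab a} in atTop, ‖∑ a ∈ A, (δ a.1 : ℂ) * c a.1 - L‖ < ε / 8 := by
    have := hsummable.hasSum.eventually (Metric.ball_mem_nhds L (by positivity : 0 < ε / 8))
    filter_upwards [this] with A hA
    rw [← dist_eq_norm]
    exact hA
  obtain ⟨A, hA1, hA2⟩ := (h1.and h2).exists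
  -- counting functions
  have htendA : Tendsto (fun N : ℕ => ∑ a ∈ A, cnt (Cn a.1) N / N) atTop (𝓝 (∑ a ∈ A, δ a.1)) :=
    tendsto_finsetSum A (fun a _ => hδ a.1 a.2.1)
  have htendB : Tendsto (fun N : ℕ => ∑ a ∈ A, ((cnt (Cn a.1) N / N : ℝ) : ℂ) * c a.1) atTop
      (𝓝 (∑ a ∈ A, (δ a.1 : ℂ) * c a.1)) := by
    apply tendsto_finsetSum A
    intro a _
    apply Tendsto.mul_const
    exact (Complex.continuous_ofReal.tendsto _).comp (hδ a.1 a.2.1)
  have e1 := htendA.eventually (lt_mem_nhds hA1)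
  have e2 := htendB.eventually (Metric.ball_mem_nhds _ (by positivity : 0 < ε / 8))
  obtain ⟨N0, hN0⟩ := eventually_atTop.1 (e1.and e2)
  refine ⟨max N0 1, fun N hN => ?_⟩
  obtain ⟨hN1, hN2⟩ := hN0 N ((le_max_left _ _).trans hN)
  have hNpos : 1 ≤ N := (le_max_right _ _).trans hN
  have hNR : (0 : ℝ) < N := by exact_mod_cast hNpos
  rw [dist_eq_norm] at hN2
  -- decompose the sum
  set U := A.biUnion (fun a => (Icc 1 N).filter (Cn a.1)) with hU
  have hdisj : (A : Set {a : ℕ // Lab a}).PairwiseDisjoint (fun a => (Icc 1 N).filter (Cn a.1)) := by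
    intro a _ b _ hab
    rw [Function.onFun, Finset.disjoint_left]
    intro n hn hn'
    rw [mem_filter] at hn hn'
    exact hab (Subtype.ext (lab_unique a.2 b.2 hn.2 hn'.2))
  have hUsub : U ⊆ Icc 1 N := by
    intro n hn
    rw [hU, mem_biUnion] at hn
    obtain ⟨a, _, hn⟩ := hn
    exact (mem_filter.1 hn).1
  have hsplit : ∑ n ∈ Icc 1 N, c n = ∑ n ∈ U, c n + ∑ n ∈ Icc 1 N \ U, c n := by
    rw [add_comm]; exact (sum_sdiff hUsub).symm
  have hUsum : ∑ n ∈ U, c n = ∑ a ∈ A, ((cnt (Cn a.1) N : ℝ) : ℂ) * c a.1 := by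
    rw [hU, sum_biUnion hdisj]
    apply sum_congr rfl
    intro a _
    have : ∀ n ∈ (Icc 1 N).filter (Cn a.1), c n = c a.1 := by
      intro n hn
      rw [mem_filter, mem_Icc] at hn
      exact inv_fun_class hc a.2.1 hn.1.1 hn.2
    rw [sum_congr rfl this, sum_const, cnt_eq, nsmul_eq_mul]
    push_cast; ring
  have hUcard : (U.card : ℝ) = ∑ a ∈ A, cnt (Cn a.1) N := by
    rw [hU, card_biUnion hdisj]
    push_cast
    apply sum_congr rfl
    intro a _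
    rw [cnt_eq]
  have hrest : ‖∑ n ∈ Icc 1 N \ U, c n‖ ≤ M * (N - ∑ a ∈ A, cnt (Cn a.1) N) := by
    calc ‖∑ n ∈ Icc 1 N \ U, c n‖ ≤ ∑ n ∈ Icc 1 N \ U, ‖c n‖ := norm_sum_le _ _
      _ ≤ ∑ _n ∈ Icc 1 N \ U, M := sum_le_sum (fun n hn => by
          rw [Finset.mem_sdiff, Finset.mem_Icc] at hn; exact hM n hn.1.1)
      _ = M * (N - ∑ a ∈ A, cnt (Cn a.1) N) := by
          rw [sum_const, nsmul_eq_mul, card_sdiff_of_subset hUsub, Nat.card_Icc, Nat.add_sub_cancel,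
            Nat.cast_sub (by
              have := card_le_card hUsub
              rwa [Nat.card_Icc, Nat.add_sub_cancel] at this), hUcard]
          ring
  have hmass : (N - ∑ a ∈ A, cnt (Cn a.1) N) / N ≤ ε / (8 * (M + 1)) := by
    rw [sub_div, div_self hNR.ne', sum_div]
    linarith
  rw [dist_eq_norm]
  have hdecomp : (∑ n ∈ Icc 1 N, c n) / N - L
      = (∑ a ∈ A, ((cnt (Cn a.1) N / N : ℝ) : ℂ) * c a.1 - ∑ a ∈ A, (δ a.1 : ℂ) * c a.1)
        + (∑ a ∈ A, (δ a.1 : ℂ) * c a.1 - L) + (∑ n ∈ Icc 1 N \ U, c n) / N := by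
    rw [hsplit, hUsum, add_div, sum_div]
    have : ∀ a ∈ A, ((cnt (Cn a.1) N : ℝ) : ℂ) * c a.1 / (N : ℂ)
        = ((cnt (Cn a.1) N / N : ℝ) : ℂ) * c a.1 := by
      intro a _
      push_cast; ring
    rw [sum_congr rfl this]
    ring
  rw [hdecomp]
  have hr : ‖(∑ n ∈ Icc 1 N \ U, c n) / (N : ℂ)‖ ≤ ε / 8 := by
    rw [norm_div, Complex.norm_natCast, div_le_iff₀ hNR]
    refine hrest.trans ?_
    have : M * (N - ∑ a ∈ A, cnt (Cn a.1) N) = M * ((N - ∑ a ∈ A, cnt (Cn a.1) N) / N) * N := by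
      field_simp
    rw [this]
    apply mul_le_mul_of_nonneg_right _ hNR.le
    calc M * ((N - ∑ a ∈ A, cnt (Cn a.1) N) / N) ≤ M * (ε / (8 * (M + 1))) :=
          mul_le_mul_of_nonneg_left hmass hM0
      _ ≤ ε / 8 := by
          rw [mul_div_assoc', div_le_div_iff₀ (by positivity) (by norm_num)]
          nlinarith
  calc ‖(∑ a ∈ A, ((cnt (Cn a.1) N / N : ℝ) : ℂ) * c a.1 - ∑ a ∈ A, (δ a.1 : ℂ) * c a.1)
        + (∑ a ∈ A, (δ a.1 : ℂ) * c a.1 - L) + (∑ n ∈ Icc 1 N \ U, c n) / N‖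
      ≤ ‖∑ a ∈ A, ((cnt (Cn a.1) N / N : ℝ) : ℂ) * c a.1 - ∑ a ∈ A, (δ a.1 : ℂ) * c a.1‖
        + ‖∑ a ∈ A, (δ a.1 : ℂ) * c a.1 - L‖ + ‖(∑ n ∈ Icc 1 N \ U, c n) / (N : ℂ)‖ := norm_add₃_le
    _ < ε := by linarith

/-- ABEL MEANS: Cesàro convergence implies Abel convergence -/
theorem abel_of_cesaro {c : ℕ → ℂ} {M : ℝ} (hM : ∀ n, ‖c n‖ ≤ M) {L : ℂ}
    (h : Tendsto (fun N : ℕ => (∑ n ∈ range (N + 1), c n) / ((N : ℂ) + 1)) atTop (𝓝 L)) :
    Tendsto (fun r : ℝ => (1 - (r : ℂ)) * ∑' n, c n * (r : ℂ) ^ n) (𝓝[<] 1) (𝓝 L) := by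
  have hM0 : 0 ≤ M := (norm_nonneg _).trans (hM 0)
  set S : ℕ → ℂ := fun N => ∑ n ∈ range (N + 1), c n with hS
  have hSb : ∀ N, ‖S N‖ ≤ M * (N + 1) := by
    intro N
    calc ‖S N‖ ≤ ∑ n ∈ range (N + 1), ‖c n‖ := norm_sum_le _ _
      _ ≤ ∑ _n ∈ range (N + 1), M := sum_le_sum (fun n _ => hM n)
      _ = M * (N + 1) := by rw [sum_const, card_range, nsmul_eq_mul]; push_cast; ring
  -- facts for 0 < r < 1
  have hgeom : ∀ r : ℝ, 0 < r → r < 1 → HasSum (fun n : ℕ => ((n : ℝ) + 1) * r ^ n) (1 / (1 - r) ^ 2) := by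
    intro r hr0 hr1
    have := hasSum_choose_mul_geometric_of_norm_lt_one 1 (r := r) (by rw [Real.norm_of_nonneg hr0.le]; exact hr1)
    simpa using this
  have hparts : ∀ r : ℝ, 0 < r → r < 1 →
      (1 - (r : ℂ)) * ∑' n, c n * (r : ℂ) ^ n = (1 - (r : ℂ)) ^ 2 * ∑' n, S n * (r : ℂ) ^ n := by
    intro r hr0 hr1
    have hrn : ‖(r : ℂ)‖ < 1 := by rw [Complex.norm_real, Real.norm_of_nonneg hr0.le]; exact hr1
    have s1 : Summable (fun n => ‖c n * (r : ℂ) ^ n‖) := by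
      apply Summable.of_nonneg_of_le (fun n => norm_nonneg _) (fun n => ?_)
        ((summable_geometric_of_lt_one hr0.le hr1).mul_left M)
      rw [norm_mul, norm_pow, Complex.norm_real, Real.norm_of_nonneg hr0.le]
      exact mul_le_mul_of_nonneg_right (hM n) (by positivity)
    have s2 : Summable (fun n => ‖(r : ℂ) ^ n‖) := by
      have := summable_geometric_of_lt_one hr0.le hr1
      refine this.congr fun n => ?_
      rw [norm_pow, Complex.norm_real, Real.norm_of_nonneg hr0.le]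
    have h1 := tsum_mul_tsum_eq_tsum_sum_range_of_summable_norm s1 s2
    have h2 : ∀ n : ℕ, ∑ k ∈ range (n + 1), c k * (r : ℂ) ^ k * (r : ℂ) ^ (n - k) = S n * (r : ℂ) ^ n := by
      intro n
      rw [hS, sum_mul]
      apply sum_congr rfl
      intro k hk
      rw [mem_range] at hk
      rw [mul_assoc, ← pow_add, Nat.add_sub_cancel' (by omega)]
    simp only [h2] at h1
    rw [tsum_geometric_of_norm_lt_one hrn] at h1
    have h3 : (1 : ℂ) - r ≠ 0 := by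
      intro h0
      have : (r : ℂ) = 1 := by linear_combination -h0
      rw [this, norm_one] at hrn
      exact lt_irrefl _ hrn
    rw [← h1]
    field_simp
  rw [Metric.tendsto_nhdsWithin_nhds]
  intro ε hε
  rw [Metric.tendsto_atTop] at h
  obtain ⟨N0, hN0⟩ := h (ε / 4) (by positivity)
  -- bound for the first terms
  obtain ⟨K, hK0, hK⟩ : ∃ K : ℝ, 0 < K ∧ ∀ n < N0, ‖S n - L * (n + 1)‖ ≤ K := by
    refine ⟨(M + ‖L‖) * (N0 + 1) + 1, by positivity, fun n hn => ?_⟩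
    have h1 := hSb n
    have h2 : ‖L * ((n : ℂ) + 1)‖ = ‖L‖ * (n + 1) := by
      rw [norm_mul]
      congr 1
      have : ((n : ℂ) + 1) = (((n : ℝ) + 1 : ℝ) : ℂ) := by push_cast; rfl
      rw [this, Complex.norm_real, Real.norm_of_nonneg (by positivity)]
    have h3 : (n : ℝ) + 1 ≤ N0 + 1 := by
      have : (n : ℝ) ≤ N0 := by exact_mod_cast hn.le
      linarith
    calc ‖S n - L * (n + 1)‖ ≤ ‖S n‖ + ‖L * ((n : ℂ) + 1)‖ := norm_sub_le _ _
      _ ≤ M * (n + 1) + ‖L‖ * (n + 1) := by rw [h2]; linarith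
      _ = (M + ‖L‖) * (n + 1) := by ring
      _ ≤ (M + ‖L‖) * (N0 + 1) + 1 := by
          have := mul_le_mul_of_nonneg_left h3 (by positivity : 0 ≤ M + ‖L‖)
          linarith
  have hSdiff : ∀ n : ℕ, ‖S n - L * (n + 1)‖ ≤ K + ε / 4 * (n + 1) := by
    intro n
    rcases Nat.lt_or_ge n N0 with hn | hn
    · have := hK n hn
      have h0 : 0 ≤ ε / 4 * ((n : ℝ) + 1) := by positivity
      linarith
    · have h1 := hN0 n hn
      rw [dist_eq_norm] at h1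
      have h2 : ((n : ℂ) + 1) ≠ 0 := by
        have : ((n : ℂ) + 1) = ((n + 1 : ℕ) : ℂ) := by push_cast; rfl
        rw [this]; exact_mod_cast Nat.succ_ne_zero n
      have h3 : S n - L * (n + 1) = (S n / ((n : ℂ) + 1) - L) * (n + 1) := by field_simp
      have h4 : ‖((n : ℂ) + 1)‖ = n + 1 := by
        have : ((n : ℂ) + 1) = (((n : ℝ) + 1 : ℝ) : ℂ) := by push_cast; rfl
        rw [this, Complex.norm_real, Real.norm_of_nonneg (by positivity)]
      rw [h3, norm_mul, h4]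
      have := mul_le_mul_of_nonneg_right h1.le (by positivity : (0 : ℝ) ≤ n + 1)
      linarith
  refine ⟨min (1 / 2) (ε / (4 * K)), by positivity, fun {r} hr hdist => ?_⟩
  have hr1 : r < 1 := hr
  rw [Real.dist_eq, abs_lt] at hdist
  have hd1 : 1 - r < 1 / 2 := lt_of_lt_of_le (by linarith [hdist.1]) (min_le_left _ _)
  have hd2 : 1 - r < ε / (4 * K) := lt_of_lt_of_le (by linarith [hdist.1]) (min_le_right _ _)
  have hr0 : 0 < r := by linarith
  have hrn : ‖(r : ℂ)‖ < 1 := by rw [Complex.norm_real, Real.norm_of_nonneg hr0.le]; exact hr1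
  rw [hparts r hr0 hr1, dist_eq_norm]
  have hg := hgeom r hr0 hr1
  have hgC : HasSum (fun n : ℕ => L * ((n : ℂ) + 1) * (r : ℂ) ^ n) (L * (1 / (1 - (r : ℂ)) ^ 2)) := by
    have h1 : HasSum (fun n : ℕ => ((((n : ℝ) + 1) * r ^ n : ℝ) : ℂ)) (((1 / (1 - r) ^ 2 : ℝ) : ℝ) : ℂ) := by
      exact_mod_cast hg
    have h2 := h1.mul_left L
    have e1 : (fun i : ℕ => L * ((((i : ℝ) + 1) * r ^ i : ℝ) : ℂ))
        = fun n : ℕ => L * ((n : ℂ) + 1) * (r : ℂ) ^ n := by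
      funext n; push_cast; ring
    rw [e1] at h2
    have e2 : L * (((1 / (1 - r) ^ 2 : ℝ) : ℝ) : ℂ) = L * (1 / (1 - (r : ℂ)) ^ 2) := by
      push_cast; ring
    rw [e2] at h2
    exact h2
  have hne : (1 : ℂ) - r ≠ 0 := by
    intro h0
    have : (r : ℂ) = 1 := by linear_combination -h0
    rw [this, norm_one] at hrn
    exact lt_irrefl _ hrn
  have hSsum : Summable (fun n : ℕ => S n * (r : ℂ) ^ n) := by
    apply Summable.of_norm_bounded (g := fun n : ℕ => M * (((n : ℝ) + 1) * r ^ n)) (hg.summable.mul_left M)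
    intro n
    rw [norm_mul, norm_pow, Complex.norm_real, Real.norm_of_nonneg hr0.le]
    have := mul_le_mul_of_nonneg_right (hSb n) (by positivity : 0 ≤ r ^ n)
    linarith
  have hdiff : (1 - (r : ℂ)) ^ 2 * ∑' n, S n * (r : ℂ) ^ n - L
      = (1 - (r : ℂ)) ^ 2 * ∑' n : ℕ, (S n - L * ((n : ℂ) + 1)) * (r : ℂ) ^ n := by
    have e1 : (fun n : ℕ => (S n - L * ((n : ℂ) + 1)) * (r : ℂ) ^ n)
        = fun n : ℕ => S n * (r : ℂ) ^ n - L * ((n : ℂ) + 1) * (r : ℂ) ^ n := by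
      funext n; ring
    rw [e1, (hSsum.hasSum.sub hgC).tsum_eq, mul_sub]
    congr 1
    field_simp
  rw [hdiff, norm_mul, norm_pow]
  have hn1 : ‖(1 : ℂ) - r‖ = 1 - r := by
    have : (1 : ℂ) - r = ((1 - r : ℝ) : ℂ) := by push_cast; rfl
    rw [this, Complex.norm_real, Real.norm_of_nonneg (by linarith)]
  rw [hn1]
  have hgeo : HasSum (fun n : ℕ => r ^ n) (1 - r)⁻¹ := hasSum_geometric_of_lt_one hr0.le hr1
  have hbound : ‖∑' n : ℕ, (S n - L * ((n : ℂ) + 1)) * (r : ℂ) ^ n‖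
      ≤ K * (1 - r)⁻¹ + ε / 4 * (1 / (1 - r) ^ 2) := by
    have hb : HasSum (fun n : ℕ => K * r ^ n + ε / 4 * (((n : ℝ) + 1) * r ^ n))
        (K * (1 - r)⁻¹ + ε / 4 * (1 / (1 - r) ^ 2)) := (hgeo.mul_left K).add (hg.mul_left (ε / 4))
    apply tsum_of_norm_bounded hb
    intro n
    rw [norm_mul, norm_pow, Complex.norm_real, Real.norm_of_nonneg hr0.le]
    have := mul_le_mul_of_nonneg_right (hSdiff n) (by positivity : 0 ≤ r ^ n)
    linarith
  have hd0 : 0 < 1 - r := by linarith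
  calc (1 - r) ^ 2 * ‖∑' n : ℕ, (S n - L * ((n : ℂ) + 1)) * (r : ℂ) ^ n‖
      ≤ (1 - r) ^ 2 * (K * (1 - r)⁻¹ + ε / 4 * (1 / (1 - r) ^ 2)) :=
        mul_le_mul_of_nonneg_left hbound (by positivity)
    _ = K * (1 - r) + ε / 4 := by field_simp
    _ < ε := by
        have : K * (1 - r) < K * (ε / (4 * K)) := mul_lt_mul_of_pos_left hd2 hK0
        have e : K * (ε / (4 * K)) = ε / 4 := by field_simp
        linarith

end Pool.Agent.H499R2.ND
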