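import Pool.Agent.H33.G.R_seed8.H499R2.NDTime
import Pool.Agent.H33.G.R_seed8.H499R2.NDMean
import Pool.Agent.H33.G.R_seed8.H319R2.LlnFinal

/-! Natural density: complete law of large numbers on basins, `d = 1`. -/

set_option autoImplicit false

namespace Pool.Agent.H499R2.ND

open Pool.Agent.H320R2.PD Finset Filter Topology

/-- natural density of a property -/
def Dn (P : ℕ → Prop) (l : ℝ) : Prop := Tendsto (fun N : ℕ => cnt P N / N) atTop (𝓝 l)

theorem cntn_nonneg (P : ℕ → Prop) (N : ℕ) : 0 ≤ cnt P N := by unfold cnt; positivity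

theorem cnt_mono {P Q : ℕ → Prop} (N : ℕ) (h : ∀ n, 1 ≤ n → n ≤ N → P n → Q n) :
    cnt P N ≤ cnt Q N := by
  classical
  rw [cnt_eq, cnt_eq]
  have : (Icc 1 N).filter P ⊆ (Icc 1 N).filter Q := by
    intro n hn
    rw [mem_filter, mem_Icc] at hn ⊢
    exact ⟨hn.1, h n hn.1.1 hn.1.2 hn.2⟩
  exact_mod_cast card_le_card this

theorem cnt_or {P Q R : ℕ → Prop} (N : ℕ) (h : ∀ n, 1 ≤ n → n ≤ N → P n → Q n ∨ R n) :
    cnt P N ≤ cnt Q N + cnt R N := by
  classical
  rw [cnt_eq, cnt_eq, cnt_eq]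
  have : (Icc 1 N).filter P ⊆ (Icc 1 N).filter Q ∪ (Icc 1 N).filter R := by
    intro n hn
    rw [mem_filter, mem_Icc] at hn
    rw [mem_union, mem_filter, mem_filter, mem_Icc]
    rcases h n hn.1.1 hn.1.2 hn.2 with h | h
    · exact Or.inl ⟨hn.1, h⟩
    · exact Or.inr ⟨hn.1, h⟩
  exact_mod_cast (card_le_card this).trans (card_union_le _ _)

theorem cnt_le (P : ℕ → Prop) (N : ℕ) : cnt P N ≤ N := by
  classical
  rw [cnt_eq]
  have := card_filter_le (Icc 1 N) P
  rw [Nat.card_Icc, Nat.add_sub_cancel] at this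
  exact_mod_cast this

theorem cnt_small {t : ℝ} (ht : 0 ≤ t) (N : ℕ) : cnt (fun n => (n : ℝ) ≤ t) N ≤ t := by
  classical
  rw [cnt_eq]
  have : (Icc 1 N).filter (fun n : ℕ => (n : ℝ) ≤ t) ⊆ Icc 1 ⌊t⌋₊ := by
    intro n hn
    rw [mem_filter, mem_Icc] at hn
    rw [mem_Icc]
    exact ⟨hn.1.1, Nat.le_floor hn.2⟩
  have h1 := card_le_card this
  rw [Nat.card_Icc, Nat.add_sub_cancel] at h1
  have h2 : (((Icc 1 N).filter (fun n : ℕ => (n : ℝ) ≤ t)).card : ℝ) ≤ (⌊t⌋₊ : ℝ) := by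
    exact_mod_cast h1
  exact h2.trans (Nat.floor_le ht)

theorem zd_iff {P : ℕ → Prop} : Dn P 0 ↔ ∀ ε : ℝ, 0 < ε → ∀ᶠ N : ℕ in atTop, cnt P N ≤ ε * N := by
  unfold Dn
  constructor
  · intro h ε hε
    filter_upwards [h.eventually (gt_mem_nhds hε), eventually_gt_atTop 0] with N h1 h2
    have : (0 : ℝ) < N := by exact_mod_cast h2
    rw [div_lt_iff₀ this] at h1
    exact h1.le
  · intro h
    rw [Metric.tendsto_atTop]
    intro ε hε
    obtain ⟨N0, hN0⟩ := eventually_atTop.1 (h (ε / 2) (by positivity))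
    refine ⟨N0 + 1, fun N hN => ?_⟩
    have hNpos : (0 : ℝ) < N := by exact_mod_cast (by omega : 0 < N)
    rw [Real.dist_eq, sub_zero, abs_of_nonneg (div_nonneg (cntn_nonneg _ _) hNpos.le), div_lt_iff₀ hNpos]
    have := hN0 N (by omega)
    nlinarith

theorem zd_mono {P Q : ℕ → Prop} (hQ : Dn Q 0) (h : ∀ n, 1 ≤ n → P n → Q n) : Dn P 0 := by
  rw [zd_iff] at hQ ⊢
  intro ε hε
  filter_upwards [hQ ε hε] with N h1
  exact (cnt_mono N fun n hn _ => h n hn).trans h1

theorem zd_or {P Q R : ℕ → Prop} (hQ : Dn Q 0) (hR : Dn R 0) (h : ∀ n, 1 ≤ n → P n → Q n ∨ R n) :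
    Dn P 0 := by
  rw [zd_iff] at hQ hR ⊢
  intro ε hε
  filter_upwards [hQ (ε / 2) (by positivity), hR (ε / 2) (by positivity)] with N h1 h2
  have := cnt_or N fun n hn _ => h n hn
  linarith

/-- a set of density zero can be ignored -/
theorem dn_congr {P Q E : ℕ → Prop} {l : ℝ} (hP : Dn P l) (hE : Dn E 0)
    (h : ∀ n, 1 ≤ n → ¬ E n → (P n ↔ Q n)) : Dn Q l := by
  unfold Dn at *
  have h1 : ∀ N : ℕ, |cnt Q N - cnt P N| ≤ cnt E N := by
    intro N
    have h2 : cnt Q N ≤ cnt P N + cnt E N := cnt_or N fun n hn _ hq => by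
      by_cases he : E n
      · exact Or.inr he
      · exact Or.inl ((h n hn he).2 hq)
    have h3 : cnt P N ≤ cnt Q N + cnt E N := cnt_or N fun n hn _ hp => by
      by_cases he : E n
      · exact Or.inr he
      · exact Or.inl ((h n hn he).1 hp)
    rw [abs_le]; constructor <;> linarith
  have h2 : Tendsto (fun N : ℕ => cnt Q N / N - cnt P N / N) atTop (𝓝 0) := by
    refine squeeze_zero_norm (fun N => ?_) hE
    rw [Real.norm_eq_abs, ← sub_div, abs_div, abs_of_nonneg (Nat.cast_nonneg N : (0 : ℝ) ≤ N)]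
    exact div_le_div_of_nonneg_right (h1 N) (Nat.cast_nonneg N)
  have h3 := h2.add hP
  rw [zero_add] at h3
  refine h3.congr fun N => by ring

/-- one may restrict to `n` comparable with `N` -/
theorem zd_of_large {P : ℕ → Prop}
    (h : ∀ η : ℝ, 0 < η → η ≤ 1 → ∀ᶠ N : ℕ in atTop, cnt (fun n => η * N < n ∧ P n) N ≤ η * N) :
    Dn P 0 := by
  rw [zd_iff]
  intro ε hε
  have hη : 0 < min (ε / 2) 1 := lt_min (by positivity) (by norm_num)
  filter_upwards [h (min (ε / 2) 1) hη (min_le_right _ _)] with N h1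
  have h2 : cnt P N ≤ cnt (fun n => (n : ℝ) ≤ min (ε / 2) 1 * N) N
      + cnt (fun n => min (ε / 2) 1 * N < n ∧ P n) N := cnt_or N fun n hn _ hp => by
    rcases le_or_gt (n : ℝ) (min (ε / 2) 1 * N) with h | h
    · exact Or.inl h
    · exact Or.inr ⟨h, hp⟩
  have h3 := cnt_small (t := min (ε / 2) 1 * N) (by positivity) N
  have h4 : min (ε / 2) 1 * (N : ℝ) ≤ ε / 2 * N :=
    mul_le_mul_of_nonneg_right (min_le_left _ _) (Nat.cast_nonneg N)
  linarith

/-! ### the map on the naturals -/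

theorem Td_cast (n : ℕ) : Td 1 (n : ℤ) = ((Tn n : ℕ) : ℤ) := by
  unfold Td; simp only [Tn]
  by_cases h : n % 2 = 0
  · rw [if_pos (by omega), if_pos h]; omega
  · rw [if_neg (by omega), if_neg h]; omega

theorem Td_iter_cast (k n : ℕ) : (Td 1)^[k] (n : ℤ) = ((Tn^[k] n : ℕ) : ℤ) := by
  induction k generalizing n with
  | zero => rfl
  | succ k ih => rw [Function.iterate_succ_apply, Td_cast, ih, Function.iterate_succ_apply]

theorem Tn_eq : Pool.Agent.Helper894.Collatz.T = Tn := by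
  funext n; rfl

theorem Tn_le {n : ℕ} (hn : 1 ≤ n) : Tn n ≤ 2 * n := by
  simp only [Tn]; split_ifs <;> omega

theorem Tn_ge (n : ℕ) : n ≤ 2 * Tn n := by
  simp only [Tn]; split_ifs <;> omega

/-- HITTING: almost all orbits fall to a bounded value in time `κ log n` -/
theorem hit {κ : ℝ} (hκ : 2 / Real.log (4 / 3) < κ) {ε : ℝ} (hε : 0 < ε) : ∃ y : ℕ,
    ∀ᶠ N : ℕ in atTop, cnt (fun n => ∀ j : ℕ, (j : ℝ) ≤ κ * Real.log n → y < Tn^[j] n) N ≤ ε * N := by
  set c : ℝ := 2 / Real.log (4 / 3) with hc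
  have hc0 : 0 < c := div_pos two_pos (Real.log_pos (by norm_num))
  obtain ⟨N0, hN0, hkap⟩ := kap_le ((κ - c) / 2) (by linarith)
  have hkap2 := kap_ge hN0
  obtain ⟨K, hK, h⟩ := timed_count hN0 1 (d := 1) odd_one isCoprime_one_left
  -- y
  obtain ⟨y, hy⟩ := exists_nat_ge (max 2 (Real.exp (4 * K / ε)))
  have hy2 : (2 : ℝ) ≤ y := le_trans (le_max_left _ _) hy
  have hy3 : 4 * K / ε ≤ Real.log y := by
    rw [Real.le_log_iff_exp_le (by linarith)]
    exact le_trans (le_max_right _ _) hy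
  have hlogy : 0 < Real.log y := Real.log_pos (by linarith)
  refine ⟨y, ?_⟩
  have hlogN : Tendsto (fun N : ℕ => Real.log (N : ℝ)) atTop atTop :=
    Real.tendsto_log_atTop.comp tendsto_natCast_atTop_atTop
  have hev : ∀ᶠ N : ℕ in atTop, (kap N0 * Real.log 2 + 1 - κ * Real.log (ε / 4)) / ((κ - c) / 2) ≤ Real.log N :=
    hlogN.eventually_ge_atTop _
  filter_upwards [hev, eventually_ge_atTop 1] with N h1 hN
  have hNR : (1 : ℝ) ≤ N := by exact_mod_cast hN
  have hlN : 0 ≤ Real.log N := Real.log_nonneg hNR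
  set τ : ℕ := ⌈kap N0 * Real.log ((N : ℝ) + 1)⌉₊ with hτ
  have hτ1 : kap N0 * Real.log ((N : ℝ) + 1) ≤ τ := Nat.le_ceil _
  have hτ2 : (τ : ℝ) < kap N0 * Real.log ((N : ℝ) + 1) + 1 := Nat.ceil_lt_add_one (by
    apply mul_nonneg (by linarith)
    exact Real.log_nonneg (by linarith))
  have hG := h y hy2 ((N : ℝ) + 1) (by linarith) τ hτ1
  have hlog1 : Real.log ((N : ℝ) + 1) ≤ Real.log 2 + Real.log N := by
    rw [← Real.log_mul (by norm_num) (by linarith)]
    exact Real.log_le_log (by linarith) (by linarith)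
  have hsplit : cnt (fun n => ∀ j : ℕ, (j : ℝ) ≤ κ * Real.log n → y < Tn^[j] n) N
      ≤ cnt (fun n => (n : ℝ) ≤ ε / 4 * N) N + cnt (fun n => (n : ℤ) ∈ TS 1 y τ) N := by
    refine cnt_or N fun n hn hnN hp => ?_
    rcases le_or_gt (n : ℝ) (ε / 4 * N) with hle | hgt
    · exact Or.inl hle
    · refine Or.inr fun j hj => ?_
      have h2 : (τ : ℝ) ≤ κ * Real.log n := by
        have h3 : Real.log (ε / 4) + Real.log N ≤ Real.log n := by
          rw [← Real.log_mul (by positivity) (by linarith)]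
          exact Real.log_le_log (by positivity) hgt.le
        rw [div_le_iff₀ (by linarith)] at h1
        have h4 : kap N0 * Real.log ((N : ℝ) + 1) ≤ kap N0 * (Real.log 2 + Real.log N) :=
          mul_le_mul_of_nonneg_left hlog1 (by linarith)
        have h5 : kap N0 * Real.log N ≤ (c + (κ - c) / 2) * Real.log N :=
          mul_le_mul_of_nonneg_right hkap hlN
        have h6 : κ * (Real.log (ε / 4) + Real.log N) ≤ κ * Real.log n :=
          mul_le_mul_of_nonneg_left h3 (by linarith)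
        nlinarith
      have h3 := hp j (le_trans (by exact_mod_cast hj) h2)
      rw [Td_iter_cast]
      have h4 : (y : ℝ) < ((Tn^[j] n : ℕ) : ℝ) := by exact_mod_cast h3
      rw [Int.cast_natCast, abs_of_pos (by linarith)]
      exact h4
  have hcard : cnt (fun n => (n : ℤ) ∈ TS 1 y τ) N ≤ G (TS 1 y τ) ((N : ℝ) + 1) := by
    classical
    rw [cnt_eq]; unfold G
    have : ((Icc 1 N).filter (fun n : ℕ => (n : ℤ) ∈ TS 1 y τ)).card ≤ (pos (TS 1 y τ) ((N : ℝ) + 1)).card := by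
      apply card_le_card_of_injOn (fun n : ℕ => (n : ℤ))
      · intro n hn
        rw [mem_coe, mem_filter, mem_Icc] at hn
        rw [mem_coe, mem_pos]
        refine ⟨⟨?_, ?_⟩, hn.2⟩
        · have := hn.1.1
          beta_reduce
          omega
        have : (n : ℝ) ≤ N := by exact_mod_cast hn.1.2
        push_cast; linarith
      · intro a _ b _ hab
        simpa using hab
    exact_mod_cast this
  have hsm := cnt_small (t := ε / 4 * N) (by positivity) N
  have hfin : K * ((N : ℝ) + 1) / Real.log y ^ 1 ≤ ε / 2 * N := by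
    rw [pow_one, div_le_iff₀ hlogy]
    rw [div_le_iff₀ hε] at hy3
    nlinarith
  have hεN : 0 ≤ ε * (N : ℝ) := by positivity
  linarith

end Pool.Agent.H499R2.ND
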